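import Pool.Agent.Work.MP_292d0f_iso.Interface

/-! Block A00: the slot `At 0 0`. -/

open CategoryTheory MonoidalCategory
open Pool.Agent.Work.MP_c42eb9_num.Defs Pool.Agent.Work.MP_c42eb9_num

namespace Pool.VAS

universe v u w

section

variable {A : Type u} [Category.{v} A] [MonoidalCategory A]

theorem A00_unit {Z H : A} (z : Z ⟶ H ⊗ 𝟙_ A) (d : H ⟶ 𝟙_ A)
    (h : z ≫ d ▷ 𝟙_ A ≫ (λ_ (𝟙_ A)).hom = z ≫ d ▷ 𝟙_ A ≫ (λ_ (𝟙_ A)).hom) :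
    (z ≫ (ρ_ H).hom) ≫ d = z ≫ d ▷ 𝟙_ A ≫ (λ_ (𝟙_ A)).hom := by
  rw [unitors_equal, Category.assoc, rightUnitor_naturality]

theorem A00_split {Z H t : A} (z : Z ⟶ H ⊗ 𝟙_ A) (z₀ : Z ⟶ t) (i : t ⟶ H)
    (h : z ≫ (ρ_ H).hom = z₀ ≫ i) : z = (z₀ ≫ (ρ_ t).inv) ≫ (i ⊗ₘ 𝟙 (𝟙_ A)) := by
  rw [tensorHom_id, Category.assoc, ← rightUnitor_inv_naturality, ← Category.assoc, ← h,
    Category.assoc, Iso.hom_inv_id, Category.comp_id]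

theorem A00_ext {H L t T T' : A} (w : 𝟙_ A ⟶ t) (i : t ⟶ H) (z : L ⟶ T) (j : T ⟶ T') :
    (λ_ L).inv ≫ ((w ≫ i) ⊗ₘ (z ≫ j)) = ((λ_ L).inv ≫ (w ⊗ₘ z)) ≫ (i ⊗ₘ j) := by
  rw [Category.assoc, tensorHom_comp_tensorHom]

end

variable (V : Type w) (A : Type u) [Category.{v} A] [MonoidalCategory A] [SymmetricCategory A]
  [Preadditive A] [MonoidalPreadditive A] [Linear ℚ A] [MonoidalLinear ℚ A]
  (M : ChowMotives V A) (K : K3Motive M)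

theorem i_A00 : Stmt_A00 V A M K := by
  intro hv z _ hz w hw
  obtain ⟨w₀, rfl⟩ := p_WRI V A M K w hw
  have h1 : (z ≫ (ρ_ (M.h K.S)).hom) ≫ K.deg = 0 :=
    (A00_unit z K.deg rfl).trans hz
  obtain ⟨z₀, hz₀⟩ := p_WRI V A M K (z ≫ (ρ_ (M.h K.S)).hom) h1
  have h2 : z = (z₀ ≫ (ρ_ K.t).inv) ≫ tpowMap K.inc 1 := A00_split z z₀ K.inc hz₀
  have h3 : ext (w₀ ≫ K.inc) ((z₀ ≫ (ρ_ K.t).inv) ≫ tpowMap K.inc 1 : tpow M.L 0 ⟶ _) =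
      ext w₀ (z₀ ≫ (ρ_ K.t).inv : tpow M.L 0 ⟶ tpow K.t 1) ≫ tpowMap K.inc 2 :=
    A00_ext w₀ K.inc (z₀ ≫ (ρ_ K.t).inv : tpow M.L 0 ⟶ tpow K.t 1) (tpowMap K.inc 1)
  have h4 : ext w₀ (z₀ ≫ (ρ_ K.t).inv : tpow M.L 0 ⟶ tpow K.t 1) ≫ alt K.t 2 = 0 :=
    hv (ext w₀ (z₀ ≫ (ρ_ K.t).inv : tpow M.L 0 ⟶ tpow K.t 1))
  have h5 : (ext w₀ (z₀ ≫ (ρ_ K.t).inv : tpow M.L 0 ⟶ tpow K.t 1) ≫ tpowMap K.inc 2) ≫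
      alt (M.h K.S) 2 = 0 := by
    rw [Category.assoc, ← alt_nat K.inc 2, ← Category.assoc, h4, Limits.zero_comp]
  exact ((congrArg (fun x => ext (w₀ ≫ K.inc) x ≫ alt (M.h K.S) 2) h2).trans
    (congrArg (fun x => x ≫ alt (M.h K.S) 2) h3)).trans h5

end Pool.VAS
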