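import Pool.Agent.Work.MP_292d0f_iso.Interface

/-! Block ABL of THEOREM ISO (MP_292d0f_ag): absorption of the antisymmetriser of the first factors
(helper20). -/

open CategoryTheory MonoidalCategory
open Pool.Agent.Work.MP_c42eb9_num.Defs Pool.Agent.Work.MP_c42eb9_num

namespace Pool.VAS

universe v u w v' u' w'

section

variable {A : Type u} [Category.{v} A] [MonoidalCategory A]

theorem ABL_B {t Z Y W' : A} (a : Z ⟶ Z) (g : Z ⊗ Y ⟶ W') (b : W' ⟶ W')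
    (c : t ⊗ W' ⟶ t ⊗ W') (h1 : a ▷ Y ≫ g ≫ b = g ≫ b) (h2 : t ◁ b ≫ c = c) :
    (t ◁ a) ▷ Y ≫ ((α_ t Z Y).hom ≫ t ◁ g) ≫ c = ((α_ t Z Y).hom ≫ t ◁ g) ≫ c := by
  have h3 : ((α_ t Z Y).hom ≫ t ◁ g) ≫ c = (α_ t Z Y).hom ≫ t ◁ (g ≫ b) ≫ c := by
    rw [whiskerLeft_comp]
    simp only [Category.assoc]
    rw [h2]
  rw [h3, associator_naturality_middle_assoc, ← whiskerLeft_comp_assoc, h1]

end

section

variable {A : Type u} [Category.{v} A] [MonoidalCategory A] [SymmetricCategory A]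

theorem ABL_S0 {t Z Y W' : A} (g : Z ⊗ Y ⟶ W') :
    ((α_ t t Z).inv ≫ (β_ t t).hom ▷ Z ≫ (α_ t t Z).hom) ▷ Y ≫
      ((α_ t (t ⊗ Z) Y).hom ≫ t ◁ ((α_ t Z Y).hom ≫ t ◁ g)) =
    ((α_ t (t ⊗ Z) Y).hom ≫ t ◁ ((α_ t Z Y).hom ≫ t ◁ g)) ≫
      ((α_ t t W').inv ≫ (β_ t t).hom ▷ W' ≫ (α_ t t W').hom) := by
  have h1 : (t ◁ t ◁ g) ≫ ((α_ t t W').inv ≫ (β_ t t).hom ▷ W' ≫ (α_ t t W').hom) =
      ((α_ t t (Z ⊗ Y)).inv ≫ (β_ t t).hom ▷ (Z ⊗ Y) ≫ (α_ t t (Z ⊗ Y)).hom) ≫ (t ◁ t ◁ g) := by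
    simp only [Category.assoc]
    rw [associator_inv_naturality_right_assoc, whisker_exchange_assoc,
      associator_naturality_right]
  rw [whiskerLeft_comp]
  simp only [Category.assoc]
  simp only [Category.assoc] at h1
  rw [h1]
  simp only [← Category.assoc]
  congr 1
  monoidal

variable [Preadditive A]

theorem ABL_S {t Z Y W' : A} (g : Z ⊗ Y ⟶ W') (c : t ⊗ (t ⊗ W') ⟶ t ⊗ (t ⊗ W'))
    (h : ((α_ t t W').inv ≫ (β_ t t).hom ▷ W' ≫ (α_ t t W').hom) ≫ c = -c) :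
    ((α_ t t Z).inv ≫ (β_ t t).hom ▷ Z ≫ (α_ t t Z).hom) ▷ Y ≫
      ((α_ t (t ⊗ Z) Y).hom ≫ t ◁ ((α_ t Z Y).hom ≫ t ◁ g)) ≫ c =
    -(((α_ t (t ⊗ Z) Y).hom ≫ t ◁ ((α_ t Z Y).hom ≫ t ◁ g)) ≫ c) := by
  rw [← Category.assoc, ABL_S0, Category.assoc, h, Preadditive.comp_neg]

variable [MonoidalPreadditive A] [Linear ℚ A] [MonoidalLinear ℚ A]

theorem ABL_comb {W U Y : A} (B s : W ⟶ W) (F : W ⊗ Y ⟶ U) (c c' : ℚ) (hc : c * (1 + c') = 1)
    (hB : B ▷ Y ≫ F = F) (hs : s ▷ Y ≫ F = -F) :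
    (c • (B - c' • (B ≫ s ≫ B))) ▷ Y ≫ F = F := by
  have h1 : (B ≫ s ≫ B) ▷ Y ≫ F = -F := by
    rw [comp_whiskerRight, comp_whiskerRight]
    simp only [Category.assoc]
    rw [hB, hs, Preadditive.comp_neg, hB]
  rw [MonoidalLinear.smul_whiskerRight, sub_eq_add_neg, MonoidalPreadditive.add_whiskerRight,
    ← neg_smul, MonoidalLinear.smul_whiskerRight, Linear.smul_comp, Preadditive.add_comp,
    Linear.smul_comp, hB, h1, smul_neg, neg_smul, neg_neg]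
  have h2 : F + c' • F = (1 + c') • F := by rw [add_smul, one_smul]
  rw [h2, smul_smul, hc, one_smul]

theorem ABL_main (t : A) (j : ℕ) : ∀ i : ℕ,
    (alt t i ▷ tpow t j) ≫ (ad t j i).inv ≫ alt t (j + i) = (ad t j i).inv ≫ alt t (j + i)
  | 0 => by
    have h : alt t 0 = 𝟙 _ := by unfold alt altOf; rfl
    rw [h]
    exact (congrArg (· ≫ (ad t j 0).inv ≫ alt t (j + 0)) (id_whiskerRight (tpow t 0) (tpow t j))).trans
      (Category.id_comp _)
  | 1 => by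
    have h : alt t 1 = 𝟙 _ := by unfold alt altOf; rfl
    rw [h]
    exact (congrArg (· ≫ (ad t j 1).inv ≫ alt t (j + 1)) (id_whiskerRight (tpow t 1) (tpow t j))).trans
      (Category.id_comp _)
  | i + 2 => by
    have ih := ABL_main t j (i + 1)
    have hL : (t ◁ alt t (j + (i + 1))) ≫ alt t (j + (i + 2)) = alt t (j + (i + 2)) :=
      Lalt_alt (exchE t) (j + (i + 1))
    have hX : exch t (j + i) ≫ alt t (j + (i + 2)) = -alt t (j + (i + 2)) :=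
      exch_alt (exchE t) (j + i)
    have hB : ((t ◁ alt t (i + 1)) ▷ tpow t j) ≫
        ((α_ t (tpow t (i + 1)) (tpow t j)).hom ≫ t ◁ (ad t j (i + 1)).inv) ≫
          alt t (j + (i + 2)) =
        ((α_ t (tpow t (i + 1)) (tpow t j)).hom ≫ t ◁ (ad t j (i + 1)).inv) ≫
          alt t (j + (i + 2)) :=
      ABL_B (alt t (i + 1)) (ad t j (i + 1)).inv (alt t (j + (i + 1))) (alt t (j + (i + 2))) ih hL
    have hS : (exch t i ▷ tpow t j) ≫
        ((α_ t (tpow t (i + 1)) (tpow t j)).hom ≫ t ◁ (ad t j (i + 1)).inv) ≫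
          alt t (j + (i + 2)) =
        -(((α_ t (tpow t (i + 1)) (tpow t j)).hom ≫ t ◁ (ad t j (i + 1)).inv) ≫
          alt t (j + (i + 2))) :=
      ABL_S (t := t) (Z := tpow t i) (Y := tpow t j) (W' := tpow t (j + i)) (ad t j i).inv
        (alt t (j + (i + 2))) hX
    have hc : ((i : ℚ) + 2)⁻¹ * (1 + ((i : ℚ) + 1)) = 1 := by
      have : (i : ℚ) + 2 ≠ 0 := by positivity
      field_simp
      ring
    exact ABL_comb (t ◁ alt t (i + 1)) (exch t i)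
      (((α_ t (tpow t (i + 1)) (tpow t j)).hom ≫ t ◁ (ad t j (i + 1)).inv) ≫
          alt t (j + (i + 2))) _ _ hc hB hS

end

section

variable (A : Type u) [Category.{v} A] [MonoidalCategory A] [SymmetricCategory A]
  [Preadditive A] [MonoidalPreadditive A] [Linear ℚ A] [MonoidalLinear ℚ A]

theorem i_ABL : Stmt_ABL A := by
  intro t j i
  have h := ABL_main t j i
  rw [Category.assoc, Category.assoc, h, Iso.hom_inv_id_assoc]

end

end Pool.VAS
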