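import Pool.Agent.Work.MP_292d0f_iso.Interface

/-! Block ABR: the antisymmetriser absorbs the antisymmetriser of the last factors. -/

open CategoryTheory MonoidalCategory
open Pool.Agent.Work.MP_c42eb9_num.Defs Pool.Agent.Work.MP_c42eb9_num

namespace Pool.VAS

universe v u w

variable {A : Type u} [Category.{v} A] [MonoidalCategory A]

theorem ABR_zero {Q : A} (f g : Q ⟶ Q) (h : f ≫ g = g) :
    ((λ_ Q).inv ≫ (𝟙_ A ◁ f) ≫ (λ_ Q).hom) ≫ g = g := by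
  rw [leftUnitor_naturality, Iso.inv_hom_id_assoc, h]

theorem ABR_step {t X P Q : A} (a : X ≅ P ⊗ Q) (f : Q ⟶ Q) :
    (whiskerLeftIso t a ≪≫ (α_ t P Q).symm).hom ≫ ((t ⊗ P) ◁ f) ≫
      (whiskerLeftIso t a ≪≫ (α_ t P Q).symm).inv = t ◁ (a.hom ≫ (P ◁ f) ≫ a.inv) := by
  simp

theorem ABR_succ {t X P Q : A} (a : X ≅ P ⊗ Q) (f : Q ⟶ Q) (g : X ⟶ X) (g' : t ⊗ X ⟶ t ⊗ X)
    (h : (a.hom ≫ (P ◁ f) ≫ a.inv) ≫ g = g) (h' : t ◁ g ≫ g' = g') :
    ((whiskerLeftIso t a ≪≫ (α_ t P Q).symm).hom ≫ ((t ⊗ P) ◁ f) ≫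
      (whiskerLeftIso t a ≪≫ (α_ t P Q).symm).inv) ≫ g' = g' := by
  rw [ABR_step]
  conv_lhs => rw [← h']
  rw [← Category.assoc, ← whiskerLeft_comp, h, h']

variable (A) [SymmetricCategory A]
  [Preadditive A] [MonoidalPreadditive A] [Linear ℚ A] [MonoidalLinear ℚ A]

theorem i_ABR : Stmt_ABR A := by
  intro t j i
  induction i with
  | zero => exact ABR_zero (alt t j) (alt t j) (alt_idem (exchE t) j)
  | succ i ih =>
    exact ABR_succ (ad t j i) (alt t j) (alt t (j + i)) (alt t (j + i + 1)) ih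
      (Lalt_alt (exchE t) (j + i))

end Pool.VAS
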