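import Pool.Agent.Work.MP_292d0f_iso.Interface

open CategoryTheory MonoidalCategory
open Pool.Agent.Work.MP_c42eb9_num.Defs Pool.Agent.Work.MP_c42eb9_num

namespace Pool.VAS

universe v u w

section

variable (A : Type u) [Category.{v} A] [MonoidalCategory A] [SymmetricCategory A]
  [Preadditive A] [MonoidalPreadditive A] [Linear ℚ A] [MonoidalLinear ℚ A]

theorem ALS_nat {A : Type u} [Category.{v} A] [MonoidalCategory A] [SymmetricCategory A]
    (a e X Y Z : A) (g : Z ⟶ X ⊗ Y) (p : Z ⟶ Z) (q : X ⟶ X) (h : p ≫ g = g ≫ q ▷ Y) :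
    (a ⊗ e) ◁ p ≫ ((a ⊗ e) ◁ g ≫ tensorμ a e X Y) =
      ((a ⊗ e) ◁ g ≫ tensorμ a e X Y) ≫ (a ◁ q) ▷ (e ⊗ Y) := by
  rw [← Category.assoc, ← MonoidalCategory.whiskerLeft_comp, h,
    MonoidalCategory.whiskerLeft_comp, Category.assoc, Category.assoc]
  congr 1
  have h1 := tensorμ_natural_right a e q (𝟙 Y)
  rw [tensorHom_id, MonoidalCategory.whiskerLeft_id, tensorHom_id] at h1
  exact h1

theorem ALS_neg {A : Type u} [Category.{v} A] [MonoidalCategory A]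
    [Preadditive A] [MonoidalPreadditive A] (X W : A) (x : X ⟶ X) :
    (x ⊗ₘ (-𝟙 W)) = (-x) ▷ W := by
  have h1 : X ◁ (-𝟙 W) = -𝟙 (X ⊗ W) := by
    have h2 : X ◁ (-𝟙 W) + X ◁ (𝟙 W) = 0 := by
      rw [← MonoidalPreadditive.whiskerLeft_add, neg_add_cancel,
        MonoidalPreadditive.whiskerLeft_zero]
    rw [MonoidalCategory.whiskerLeft_id] at h2
    exact eq_neg_of_add_eq_zero_left h2
  have h3 : (-x) ▷ W = -(x ▷ W) := by
    have h4 : (-x) ▷ W + x ▷ W = 0 := by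
      rw [← MonoidalPreadditive.add_whiskerRight, neg_add_cancel,
        MonoidalPreadditive.zero_whiskerRight]
    exact eq_neg_of_add_eq_zero_left h4
  rw [MonoidalCategory.tensorHom_def, h1, h3, Preadditive.comp_neg, Category.comp_id]

theorem ALS_step {A : Type u} [Category.{v} A] [MonoidalCategory A]
    [Preadditive A] [MonoidalPreadditive A] [Linear ℚ A] [MonoidalLinear ℚ A]
    (X W : A) (b s : X ⟶ X) (c c' : ℚ) :
    (c • (b - c' • (b ≫ s ≫ b))) ▷ W =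
      c • (b ▷ W - c' • (b ▷ W ≫ s ▷ W ≫ b ▷ W)) := by
  have h3 : ∀ x y : X ⟶ X, (x - y) ▷ W = x ▷ W - y ▷ W := by
    intro x y
    have h4 : (x - y) ▷ W + y ▷ W = x ▷ W := by
      rw [← MonoidalPreadditive.add_whiskerRight, sub_add_cancel]
    exact eq_sub_of_add_eq h4
  rw [MonoidalLinear.smul_whiskerRight, h3, MonoidalLinear.smul_whiskerRight, comp_whiskerRight,
    comp_whiskerRight]

theorem i_ALS (hEXS : Stmt_EXS.{v, u} A) (hTEX : Stmt_TEX.{v, u} A) : Stmt_ALS.{v, u} A := by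
  intro a e he n
  induction n with
  | zero =>
    show 𝟙 _ ≫ (tau a e 0).hom = (tau a e 0).hom ≫ (𝟙 (tpow a 0)) ▷ tpow e 0
    rw [id_whiskerRight, Category.id_comp, Category.comp_id]
  | succ n ih =>
    cases n with
    | zero =>
      show 𝟙 _ ≫ (tau a e 1).hom = (tau a e 1).hom ≫ (𝟙 (tpow a 1)) ▷ tpow e 1
      rw [id_whiskerRight, Category.id_comp, Category.comp_id]
    | succ n =>
      have hB := ALS_nat a e (tpow a (n + 1)) (tpow e (n + 1)) (tpow (a ⊗ e) (n + 1))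
        (tau a e (n + 1)).hom (alt (a ⊗ e) (n + 1)) (symm a (n + 1)) ih
      have hs : exch (a ⊗ e) n ≫ (tau a e (n + 2)).hom =
          (tau a e (n + 2)).hom ≫ (-exch a n) ▷ tpow e (n + 2) := by
        rw [hTEX a e n, hEXS e he n, ALS_neg]
      have hstep : symm a (n + 2) ▷ tpow e (n + 2) =
          ((n : ℚ) + 2)⁻¹ • ((a ◁ symm a (n + 1)) ▷ tpow e (n + 2) - ((n : ℚ) + 1) •
            ((a ◁ symm a (n + 1)) ▷ tpow e (n + 2) ≫ (-exch a n) ▷ tpow e (n + 2) ≫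
              (a ◁ symm a (n + 1)) ▷ tpow e (n + 2))) :=
        ALS_step (tpow a (n + 2)) (tpow e (n + 2)) (a ◁ symm a (n + 1)) (-exch a n)
          (((n : ℚ) + 2)⁻¹) ((n : ℚ) + 1)
      show alt (a ⊗ e) (n + 2) ≫ (tau a e (n + 2)).hom =
        (tau a e (n + 2)).hom ≫ symm a (n + 2) ▷ tpow e (n + 2)
      rw [hstep]
      exact alt_nat_aux (W := tpow (a ⊗ e) (n + 2)) (W' := tpow a (n + 2) ⊗ tpow e (n + 2))
        ((a ⊗ e) ◁ alt (a ⊗ e) (n + 1)) (exch (a ⊗ e) n)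
        ((a ◁ symm a (n + 1)) ▷ tpow e (n + 2)) ((-exch a n) ▷ tpow e (n + 2))
        (tau a e (n + 2)).hom (((n : ℚ) + 2)⁻¹) ((n : ℚ) + 1) hB hs

end

end Pool.VAS
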