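import Pool.Agent.Work.MP_292d0f_iso.Interface

/-!
# Block AXE: antisymmetric powers of `a ⊗ e`
-/

open CategoryTheory MonoidalCategory
open Pool.Agent.Work.MP_c42eb9_num.Defs Pool.Agent.Work.MP_c42eb9_num

namespace Pool.VAS

universe v u w

section

variable {A : Type u} [Category.{v} A] [MonoidalCategory A] [SymmetricCategory A]

theorem AXE_aux {X W e K : A} (s : X ⟶ X) (p : X ⊗ W ⟶ K) (q : K ⟶ X ⊗ W) (h : p ≫ q = s ▷ W) :
    (X ◁ (β_ e W).hom ≫ (α_ X W e).inv ≫ p ▷ e) ≫ (q ▷ e ≫ (α_ X W e).hom ≫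
      X ◁ (β_ e W).inv) = s ▷ (e ⊗ W) := by
  have h1 : p ▷ e ≫ q ▷ e = (s ▷ W) ▷ e := by rw [← comp_whiskerRight, h]
  calc (X ◁ (β_ e W).hom ≫ (α_ X W e).inv ≫ p ▷ e) ≫ (q ▷ e ≫ (α_ X W e).hom ≫
      X ◁ (β_ e W).inv)
      = X ◁ (β_ e W).hom ≫ (α_ X W e).inv ≫ (p ▷ e ≫ q ▷ e) ≫ (α_ X W e).hom ≫
          X ◁ (β_ e W).inv := by simp only [Category.assoc]
    _ = X ◁ (β_ e W).hom ≫ ((α_ X W e).inv ≫ (s ▷ W) ▷ e) ≫ (α_ X W e).hom ≫
          X ◁ (β_ e W).inv := by rw [h1]; simp only [Category.assoc]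
    _ = X ◁ (β_ e W).hom ≫ (s ▷ (W ⊗ e) ≫ (α_ X W e).inv) ≫ (α_ X W e).hom ≫
          X ◁ (β_ e W).inv := by rw [associator_inv_naturality_left]
    _ = (X ◁ (β_ e W).hom ≫ s ▷ (W ⊗ e)) ≫ X ◁ (β_ e W).inv := by
          simp only [Category.assoc, Iso.inv_hom_id_assoc]
    _ = (s ▷ (e ⊗ W) ≫ X ◁ (β_ e W).hom) ≫ X ◁ (β_ e W).inv := by rw [whisker_exchange]
    _ = s ▷ (e ⊗ W) := by
          rw [Category.assoc, whiskerLeft_hom_inv, Category.comp_id]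

omit [MonoidalCategory A] [SymmetricCategory A] in
theorem AXE_fin {P X Q K : A} (t : P ⟶ X) (t' : X ⟶ Q) (a : X ⟶ K) (b : K ⟶ X) (s : X ⟶ X)
    (h : a ≫ b = s) : (t ≫ a) ≫ (b ≫ t') = t ≫ s ≫ t' := by
  rw [← h]
  simp only [Category.assoc]

end

section

variable (V : Type w) (A : Type u) [Category.{v} A] [MonoidalCategory A] [SymmetricCategory A]
  [Preadditive A] [MonoidalPreadditive A] [Linear ℚ A] [MonoidalLinear ℚ A]
  (M : ChowMotives V A) (R : RatConn M)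

theorem i_AXE (hALS : Stmt_ALS A) : Stmt_AXE V A M R := by
  intro p k h
  obtain ⟨Z, f, g, hfg⟩ := h
  have h1 := AXE_aux (e := p.e) (symm p.a (k + 1)) f g hfg
  have h2 := hALS p.a p.e p.odd (k + 1)
  have h3 : alt (p.a ⊗ p.e) (k + 1) = (tau p.a p.e (k + 1)).hom ≫
      (symm p.a (k + 1) ▷ tpow p.e (k + 1)) ≫ (tau p.a p.e (k + 1)).inv := by
    rw [← Category.assoc, ← h2, Category.assoc, Iso.hom_inv_id, Category.comp_id]
  exact ⟨Z, _, _, (AXE_fin (tau p.a p.e (k + 1)).hom (tau p.a p.e (k + 1)).inv _ _ _ h1).trans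
    h3.symm⟩

end

end Pool.VAS
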