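import Pool.Agent.Work.MP_292d0f_iso.Interface2

/-! Block CN0 of THEOREM ISO, part 2 (MP_292d0f_ag) (helper20). -/

open CategoryTheory MonoidalCategory
open Pool.Agent.Work.MP_c42eb9_num.Defs Pool.Agent.Work.MP_c42eb9_num

namespace Pool.VAS

universe v u w

section

variable (V : Type w) (A : Type u) [Category.{v} A] [MonoidalCategory A] [SymmetricCategory A]
  [Preadditive A] [MonoidalPreadditive A] [Linear ℚ A] [MonoidalLinear ℚ A]
  (M : ChowMotives V A) (R : RatConn M)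

theorem CN0_tensor (hFTN : Stmt_FTN V A M) {X Y : A} (hX : Fac M 0 (𝟙 X)) (hY : Fac M 0 (𝟙 Y)) :
    Fac M 0 (𝟙 (X ⊗ Y)) := by
  have h := hFTN 0 0 X X Y Y (𝟙 X) (𝟙 Y) hX hY
  rwa [id_tensorHom_id] at h

theorem CN0_pow (hFTN : Stmt_FTN V A M) {e : A} (h : Fac M 0 (𝟙 e)) :
    ∀ k : ℕ, Fac M 0 (𝟙 (tpow e k))
  | 0 => by
    obtain ⟨i⟩ := M.isoPt
    exact Fac.of_iso (Y := M.h M.pt) i.symm (Fac.variety M.pt)
  | k + 1 => CN0_tensor V A M hFTN h (CN0_pow hFTN h k)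

theorem i_CN0 (hFTN : Stmt_FTN V A M) : Stmt_CN0 V A M R := by
  intro p k s
  have ha : Fac M 0 (𝟙 p.a) := Fac.retract p.aC_Ca
  have he : Fac M 0 (𝟙 p.e) := Fac.retract p.eE_Ee
  exact Fac.of_id_left (CN0_tensor V A M hFTN (CN0_pow V A M hFTN ha k)
    (CN0_pow V A M hFTN he s)) _

end

end Pool.VAS
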