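import Pool.Agent.Work.MP_292d0f_iso.Interface2

/-! # Block CN2: two more factors `a` and one more factor `e` (helper40) -/

open CategoryTheory MonoidalCategory
open Pool.Agent.Work.MP_c42eb9_num.Defs Pool.Agent.Work.MP_c42eb9_num

namespace Pool.VAS

universe v u w

section

variable {A : Type u} [Category.{v} A] [Preadditive A] [Linear ℚ A]

theorem CN2_half_comm {X Y : A} (f : X ⟶ Y) (b : X ⟶ X) (s : Y ⟶ Y) (h : b ≫ f = f ≫ s) :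
    ((1 / 2 : ℚ) • (𝟙 X + b)) ≫ f = f ≫ ((1 / 2 : ℚ) • (𝟙 Y + s)) := by
  rw [Linear.smul_comp, Linear.comp_smul, Preadditive.add_comp, Preadditive.comp_add,
    Category.id_comp, Category.comp_id, h]

theorem CN2_half_fix {X Y : A} (b : X ⟶ X) (S : X ⟶ Y) (h : (-b) ≫ S = -S) :
    ((1 / 2 : ℚ) • (𝟙 X + b)) ≫ S = S := by
  have h1 : b ≫ S = S := by
    rw [Preadditive.neg_comp] at h
    exact neg_injective h
  rw [Linear.smul_comp, Preadditive.add_comp, Category.id_comp, h1, ← two_smul ℚ S, smul_smul]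
  norm_num

theorem CN2_two_aux {W : A} (x : W ⟶ W) :
    (((0 : ℕ) : ℚ) + 2)⁻¹ • (𝟙 W - (((0 : ℕ) : ℚ) + 1) • (𝟙 W ≫ (-x) ≫ 𝟙 W)) =
      (1 / 2 : ℚ) • (𝟙 W + x) := by
  rw [Category.id_comp, Category.comp_id, Nat.cast_zero, zero_add, zero_add, one_smul,
    sub_neg_eq_add, one_div]

end

section

variable {A : Type u} [Category.{v} A] [MonoidalCategory A] [SymmetricCategory A]

theorem CN2_beta (a : A) : (β_ a a).hom ≫ a ◁ (ρ_ a).inv =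
    a ◁ (ρ_ a).inv ≫ ((α_ a a (𝟙_ A)).inv ≫ (β_ a a).hom ▷ 𝟙_ A ≫ (α_ a a (𝟙_ A)).hom) := by
  have h1 : a ◁ (ρ_ a).inv ≫ (α_ a a (𝟙_ A)).inv = (ρ_ (a ⊗ a)).inv := by
    monoidal
  have h2 : (ρ_ (a ⊗ a)).inv ≫ (α_ a a (𝟙_ A)).hom = a ◁ (ρ_ a).inv := by
    monoidal
  rw [← Category.assoc, h1, ← rightUnitor_inv_naturality_assoc, h2]

end

section

variable {A : Type u} [Category.{v} A] [MonoidalCategory A] [SymmetricCategory A]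
  [Preadditive A] [MonoidalPreadditive A] [Linear ℚ A] [MonoidalLinear ℚ A]

/-- the symmetriser of two factors -/
noncomputable def CN2_h (a : A) : a ⊗ a ⟶ a ⊗ a := (1 / 2 : ℚ) • (𝟙 (a ⊗ a) + (β_ a a).hom)

omit [MonoidalPreadditive A] [MonoidalLinear ℚ A] in
theorem CN2_two (a : A) : symm a 2 = (1 / 2 : ℚ) • (𝟙 (tpow a 2) + exch a 0) := by
  have h := CN2_two_aux (exch a 0)
  refine Eq.trans ?_ h
  show (((0 : ℕ) : ℚ) + 2)⁻¹ • (a ◁ 𝟙 (tpow a 1) - (((0 : ℕ) : ℚ) + 1) •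
    (a ◁ 𝟙 (tpow a 1) ≫ (-exch a 0) ≫ a ◁ 𝟙 (tpow a 1))) = _
  rw [MonoidalCategory.whiskerLeft_id]
  rfl

omit [MonoidalPreadditive A] [MonoidalLinear ℚ A] in
theorem CN2_h_symm (a : A) : CN2_h a ≫ a ◁ (ρ_ a).inv = a ◁ (ρ_ a).inv ≫ symm a 2 := by
  rw [CN2_two]
  exact CN2_half_comm (a ◁ (ρ_ a).inv) (β_ a a).hom (exch a 0) (CN2_beta a)

/-- the symmetriser of two factors and the exchange -/
theorem CN2_exch (a Z : A) : (α_ a a Z).inv ≫ CN2_h a ▷ Z ≫ (α_ a a Z).hom =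
    (1 / 2 : ℚ) • (𝟙 (a ⊗ (a ⊗ Z)) + (α_ a a Z).inv ≫ (β_ a a).hom ▷ Z ≫ (α_ a a Z).hom) := by
  unfold CN2_h
  rw [MonoidalLinear.smul_whiskerRight, MonoidalPreadditive.add_whiskerRight, id_whiskerRight,
    Linear.smul_comp, Linear.comp_smul, Preadditive.add_comp, Preadditive.comp_add,
    Category.id_comp, Iso.inv_hom_id]

theorem CN2_gen (a Z : A) (σ : Z ⟶ Z) (S : a ⊗ (a ⊗ Z) ⟶ a ⊗ (a ⊗ Z))
    (h1 : (-((α_ a a Z).inv ≫ (β_ a a).hom ▷ Z ≫ (α_ a a Z).hom)) ≫ S = -S)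
    (h2 : a ◁ (a ◁ σ) ≫ S = S) :
    (α_ a a Z).inv ≫ (CN2_h a ⊗ₘ σ) ≫ (α_ a a Z).hom ≫ S = S := by
  rw [MonoidalCategory.tensorHom_def, Category.assoc, associator_naturality_right_assoc, h2]
  calc (α_ a a Z).inv ≫ CN2_h a ▷ Z ≫ (α_ a a Z).hom ≫ S =
      ((α_ a a Z).inv ≫ CN2_h a ▷ Z ≫ (α_ a a Z).hom) ≫ S := by simp only [Category.assoc]
    _ = S := by
      rw [CN2_exch]
      exact CN2_half_fix _ _ h1

omit [SymmetricCategory A] [Preadditive A] [MonoidalPreadditive A] [Linear ℚ A]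
  [MonoidalLinear ℚ A] in
theorem CN2_abs {a Z : A} (σ : Z ⟶ Z) (s1 : a ⊗ Z ⟶ a ⊗ Z)
    (S : a ⊗ (a ⊗ Z) ⟶ a ⊗ (a ⊗ Z)) (h2 : a ◁ s1 ≫ S = S) (h3 : a ◁ σ ≫ s1 = s1) :
    a ◁ (a ◁ σ) ≫ S = S := by
  calc a ◁ (a ◁ σ) ≫ S = a ◁ (a ◁ σ) ≫ (a ◁ s1 ≫ S) := by rw [h2]
    _ = a ◁ (a ◁ σ ≫ s1) ≫ S := by rw [MonoidalCategory.whiskerLeft_comp, Category.assoc]
    _ = S := by rw [h3, h2]

omit [SymmetricCategory A] [Preadditive A] [MonoidalPreadditive A] [Linear ℚ A]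
  [MonoidalLinear ℚ A] in
theorem CN2_nat {X Y E E' : A} (f : X ⟶ Y) (g : E ⟶ E') (b : X ⟶ X) (s : Y ⟶ Y)
    (h : b ≫ f = f ≫ s) : b ▷ E ≫ (f ⊗ₘ g) = (f ⊗ₘ g) ≫ s ▷ E' := by
  rw [MonoidalCategory.tensorHom_def, Category.assoc, whisker_exchange, ← comp_whiskerRight_assoc,
    h, comp_whiskerRight_assoc]

end

section

variable {V : Type w} {A : Type u} [Category.{v} A] [MonoidalCategory A] [SymmetricCategory A]
  [Preadditive A] [MonoidalPreadditive A] [Linear ℚ A] [MonoidalLinear ℚ A]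
  {M : ChowMotives V A} {R : RatConn M}

theorem CN2_step (hFTN : Stmt_FTN V A M) {a e Z Y : A} {c : ℕ} (σ : Z ⟶ Z)
    (S : a ⊗ (a ⊗ Z) ⟶ a ⊗ (a ⊗ Z))
    (h1 : (-((α_ a a Z).inv ≫ (β_ a a).hom ▷ Z ≫ (α_ a a Z).hom)) ≫ S = -S)
    (h2 : a ◁ (a ◁ σ) ≫ S = S) (hh : Fac M 1 (CN2_h a ▷ e)) (hc : Fac M c (σ ▷ Y)) :
    Fac M (c + 1) (S ▷ (e ⊗ Y)) := by
  have h3 : Fac M (1 + c) ((CN2_h a ▷ e) ⊗ₘ (σ ▷ Y)) := hFTN 1 c _ _ _ _ _ _ hh hc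
  have h4 : Fac M (1 + c) ((CN2_h a ⊗ₘ σ) ▷ (e ⊗ Y)) :=
    h3.conj (muIso (a ⊗ a) Z e Y) (muIso (a ⊗ a) Z e Y) (tensorμ_natural_left (CN2_h a) σ e Y)
  have h5 := h4.comp ((α_ a a Z).inv ▷ (e ⊗ Y)) (((α_ a a Z).hom ≫ S) ▷ (e ⊗ Y))
  rw [← comp_whiskerRight, ← comp_whiskerRight, CN2_gen a Z σ S h1 h2, add_comm] at h5
  exact h5

theorem i_CN2 (hFTN : Stmt_FTN V A M) (hFB1 : Stmt_FB1 V A M R) : Stmt_CN2 V A M R := by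
  intro p k s c h
  have h1 : Fac M 1 (CN2_h p.a ▷ p.e) :=
    (hFB1 p).conj (whiskerLeftIso p.a (ρ_ p.a).symm ⊗ᵢ (ρ_ p.e).symm)
      (whiskerLeftIso p.a (ρ_ p.a).symm ⊗ᵢ (ρ_ p.e).symm)
      (CN2_nat (p.a ◁ (ρ_ p.a).inv) (ρ_ p.e).inv (CN2_h p.a) (symm p.a 2) (CN2_h_symm p.a))
  have h2 : p.a ◁ symm p.a (k + 1) ≫ symm p.a (k + 2) = symm p.a (k + 2) :=
    Lalt_alt (negE p.a) (k + 1)
  have h3 : p.a ◁ symm p.a k ≫ symm p.a (k + 1) = symm p.a (k + 1) := Lalt_alt (negE p.a) k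
  have h4 : p.a ◁ (p.a ◁ symm p.a k) ≫ symm p.a (k + 2) = symm p.a (k + 2) :=
    CN2_abs (symm p.a k) (symm p.a (k + 1)) (symm p.a (k + 2)) h2 h3
  exact CN2_step hFTN (symm p.a k) (symm p.a (k + 2)) (exch_alt (negE p.a) k) h4 h1 h

end

end Pool.VAS
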