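import Pool.Agent.Work.MP_292d0f_iso.Interface2

/-!
# Block CNM: one more factor `e`
-/

open CategoryTheory MonoidalCategory
open Pool.Agent.Work.MP_c42eb9_num.Defs Pool.Agent.Work.MP_c42eb9_num

namespace Pool.VAS

universe v u w

section

variable {V : Type w} {A : Type u} [Category.{v} A] [MonoidalCategory A] [SymmetricCategory A]
  [Preadditive A] [Linear ℚ A] {M : ChowMotives V A} {R : RatConn M}

omit [Preadditive A] [Linear ℚ A] in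
theorem CNM_nat (X Y E : A) (σ : X ⟶ X) :
    σ ▷ (E ⊗ Y) ≫ ((α_ X E Y).symm ≪≫ whiskerRightIso (β_ X E) Y ≪≫ α_ E X Y).hom =
      ((α_ X E Y).symm ≪≫ whiskerRightIso (β_ X E) Y ≪≫ α_ E X Y).hom ≫ (𝟙 E ⊗ₘ (σ ▷ Y)) := by
  rw [id_tensorHom]
  show σ ▷ (E ⊗ Y) ≫ (α_ X E Y).inv ≫ (β_ X E).hom ▷ Y ≫ (α_ E X Y).hom =
    ((α_ X E Y).inv ≫ (β_ X E).hom ▷ Y ≫ (α_ E X Y).hom) ≫ E ◁ (σ ▷ Y)
  rw [associator_inv_naturality_left_assoc, ← comp_whiskerRight_assoc,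
    BraidedCategory.braiding_naturality_left, comp_whiskerRight_assoc,
    associator_naturality_middle, Category.assoc, Category.assoc]

theorem CNM_step (hFTN : Stmt_FTN V A M) (c : ℕ) (X Y E : A) (σ : X ⟶ X)
    (hE : Fac M 0 (𝟙 E)) (h : Fac M c (σ ▷ Y)) : Fac M c (σ ▷ (E ⊗ Y)) := by
  have h1 : Fac M (0 + c) (𝟙 E ⊗ₘ (σ ▷ Y)) := hFTN 0 c _ _ _ _ _ _ hE h
  rw [zero_add] at h1
  exact Fac.conj h1 _ _ (CNM_nat X Y E σ)

theorem i_CNM (hFTN : Stmt_FTN V A M) : Stmt_CNM V A M R := by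
  intro p k s c h
  exact CNM_step hFTN c (tpow p.a k) (tpow p.e s) p.e (symm p.a k) (Fac.retract p.eE_Ee) h

end

end Pool.VAS
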