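import Pool.Agent.Work.MP_292d0f_iso.Interface

set_option autoImplicit false

/-! # Block COM (helper94): zero-cycles of degree zero commute -/

open CategoryTheory MonoidalCategory
open Pool.Agent.Work.MP_c42eb9_num.Defs Pool.Agent.Work.MP_c42eb9_num

namespace Pool.VAS

universe v u w

section

variable {A : Type u} [Category.{v} A] [MonoidalCategory A] [SymmetricCategory A]

theorem COM_exch (t : A) : ((α_ t t (𝟙_ A)).inv ≫ (β_ t t).hom ▷ 𝟙_ A ≫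
    (α_ t t (𝟙_ A)).hom) ≫ t ◁ (ρ_ t).hom = t ◁ (ρ_ t).hom ≫ (β_ t t).hom := by
  have h1 : (α_ t t (𝟙_ A)).hom ≫ t ◁ (ρ_ t).hom = (ρ_ (t ⊗ t)).hom := by simp
  have h2 : (α_ t t (𝟙_ A)).inv ≫ (ρ_ (t ⊗ t)).hom = t ◁ (ρ_ t).hom := by simp
  rw [Category.assoc, Category.assoc, h1, rightUnitor_naturality, ← Category.assoc, h2]

theorem COM_swap (t : A) (a b : 𝟙_ A ⟶ t) : (a ⊗ₘ b) ≫ (β_ t t).hom = b ⊗ₘ a := by
  rw [BraidedCategory.braiding_naturality]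
  have h : (β_ (𝟙_ A) (𝟙_ A)).hom = 𝟙 _ := by
    rw [braiding_tensorUnit_left, unitors_equal, Iso.hom_inv_id]
  rw [h, Category.id_comp]

theorem COM_z (t : A) (a b : 𝟙_ A ⟶ t) :
    ((λ_ (𝟙_ A)).inv ≫ (a ⊗ₘ (b ≫ (ρ_ t).inv))) ≫ t ◁ (ρ_ t).hom =
      (λ_ (𝟙_ A)).inv ≫ (a ⊗ₘ b) := by
  rw [Category.assoc]
  congr 1
  rw [← id_tensorHom, tensorHom_comp_tensorHom, Category.comp_id, Category.assoc,
    Iso.inv_hom_id, Category.comp_id]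

end

section

variable {A : Type u} [Category.{v} A] [MonoidalCategory A] [SymmetricCategory A]
  [Preadditive A] [MonoidalPreadditive A] [Linear ℚ A] [MonoidalLinear ℚ A]

theorem COM_alt (t X : A) (z : X ⟶ t ⊗ (t ⊗ 𝟙_ A))
    (h : z ≫ (show t ⊗ (t ⊗ 𝟙_ A) ⟶ t ⊗ (t ⊗ 𝟙_ A) from alt t 2) = 0) :
    z = z ≫ ((α_ t t (𝟙_ A)).inv ≫ (β_ t t).hom ▷ 𝟙_ A ≫ (α_ t t (𝟙_ A)).hom) := by
  have h1 : (show t ⊗ (t ⊗ 𝟙_ A) ⟶ t ⊗ (t ⊗ 𝟙_ A) from alt t 2) =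
      (((0 : ℕ) : ℚ) + 2)⁻¹ • (t ◁ 𝟙 (t ⊗ 𝟙_ A) - (((0 : ℕ) : ℚ) + 1) • (t ◁ 𝟙 (t ⊗ 𝟙_ A) ≫
        ((α_ t t (𝟙_ A)).inv ≫ (β_ t t).hom ▷ 𝟙_ A ≫ (α_ t t (𝟙_ A)).hom) ≫
          t ◁ 𝟙 (t ⊗ 𝟙_ A))) := rfl
  rw [h1] at h
  rw [whiskerLeft_id, Category.id_comp, Category.comp_id, Nat.cast_zero, zero_add, zero_add,
    one_smul, Linear.comp_smul, Preadditive.comp_sub, Category.comp_id] at h
  have h2 := (smul_eq_zero.mp h).resolve_left (by norm_num)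
  exact sub_eq_zero.mp h2

end

section

variable (V : Type w) (A : Type u) [Category.{v} A] [MonoidalCategory A] [SymmetricCategory A]
  [Preadditive A] [MonoidalPreadditive A] [Linear ℚ A] [MonoidalLinear ℚ A]
  (M : ChowMotives V A) (K : K3Motive M)

theorem i_COM : Stmt_COM V A M K := by
  intro hz w w' hw hw'
  obtain ⟨a, ha⟩ := p_WRI V A M K w hw
  obtain ⟨b, hb⟩ := p_WRI V A M K w' hw'
  have h1 := COM_alt K.t (𝟙_ A) ((λ_ (𝟙_ A)).inv ≫ (a ⊗ₘ (b ≫ (ρ_ K.t).inv))) (hz _)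
  have h2 : ((λ_ (𝟙_ A)).inv ≫ (a ⊗ₘ (b ≫ (ρ_ K.t).inv))) ≫ K.t ◁ (ρ_ K.t).hom =
      (((λ_ (𝟙_ A)).inv ≫ (a ⊗ₘ (b ≫ (ρ_ K.t).inv))) ≫ ((α_ K.t K.t (𝟙_ A)).inv ≫
        (β_ K.t K.t).hom ▷ 𝟙_ A ≫ (α_ K.t K.t (𝟙_ A)).hom)) ≫ K.t ◁ (ρ_ K.t).hom :=
    congrArg (fun f => f ≫ K.t ◁ (ρ_ K.t).hom) h1
  rw [COM_z, Category.assoc, COM_exch, ← Category.assoc, COM_z, Category.assoc, COM_swap] at h2
  have h3 : (a ⊗ₘ b) = (b ⊗ₘ a) := (cancel_epi _).mp h2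
  rw [ha, hb, ← tensorHom_comp_tensorHom, h3, tensorHom_comp_tensorHom]

end

end Pool.VAS
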