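import Pool.Agent.Work.MP_292d0f_iso.Interface

/-!
# The block DU0: the determinant
-/

open CategoryTheory MonoidalCategory
open Pool.Agent.Work.MP_c42eb9_num.Defs Pool.Agent.Work.MP_c42eb9_num

namespace Pool.VAS

universe v u w v' u' w'

section

variable (V : Type w) (A : Type u) [Category.{v} A] [MonoidalCategory A] [SymmetricCategory A]
  [Preadditive A] [MonoidalPreadditive A] [Linear ℚ A] [MonoidalLinear ℚ A]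
  (M : ChowMotives V A) (R : RatConn M)

omit [MonoidalPreadditive A] [MonoidalLinear ℚ A] [SymmetricCategory A] [Preadditive A]
  [Linear ℚ A] in
theorem DU0_aux {X E U : A} (s : X ⟶ X) (u : X ⊗ 𝟙_ A ⟶ U) (σ : U ⟶ U) (v : U ⟶ X ⊗ 𝟙_ A)
    (h : u ≫ σ ≫ v = s ▷ 𝟙_ A) :
    (((ρ_ X).inv ≫ u) ▷ E) ≫ ((σ ≫ v ≫ (ρ_ X).hom) ▷ E) = s ▷ E := by
  rw [← comp_whiskerRight]
  congr 1
  have : ((ρ_ X).inv ≫ u) ≫ σ ≫ v ≫ (ρ_ X).hom = (ρ_ X).inv ≫ (u ≫ σ ≫ v) ≫ (ρ_ X).hom := by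
    simp only [Category.assoc]
  rw [this, h, rightUnitor_naturality, ← Category.assoc, Iso.inv_hom_id, Category.id_comp]

omit [MonoidalPreadditive A] [MonoidalLinear ℚ A] in
theorem DU0_mid {c : ℕ} {X Y Z : A} (h : Fac M c (𝟙 Y)) (p : X ⟶ Y) (q : Y ⟶ Z) :
    Fac M c (p ≫ q) := by
  have := h.comp p q
  rwa [Category.id_comp] at this

theorem i_DU0 (hFTN : Stmt_FTN V A M) (hFLN : Stmt_FLN V A M) : Stmt_DU0 V A M R := by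
  intro p q i n h
  obtain ⟨u, v, huv⟩ := h.dual 0 (n + 2) (by omega)
  have h1 : Fac M (1 + 0 + n) (𝟙 ((M.L ⊗ p.e) ⊗ (tpow q.e n ⊗ tpow p.e n))) := by
    have h2 : Fac M (1 + 0) (𝟙 M.L ⊗ₘ 𝟙 p.e) :=
      hFTN 1 0 _ _ _ _ _ _ Fac.lefschetz (Fac.retract p.eE_Ee)
    have h3 := hFTN (1 + 0) n _ _ _ _ _ _ h2 (hFLN p.e q.e i n)
    rwa [id_tensorHom_id, id_tensorHom_id] at h3
  have h4 : Fac M (n + 1) (𝟙 ((𝟙_ A ⊗ (M.L ⊗ tpow q.e n)) ⊗ (p.e ⊗ tpow p.e n))) := by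
    have e : 1 + 0 + n = n + 1 := by omega
    rw [← e]
    exact Fac.of_iso (whiskerRightIso (λ_ (M.L ⊗ tpow q.e n)) _ ≪≫
      muIso M.L (tpow q.e n) p.e (tpow p.e n)) h1
  have h6 := DU0_aux A (E := p.e ⊗ tpow p.e n) (symm p.a (n + 2)) u
    (symm q.a 0 ▷ (M.L ⊗ tpow q.e n)) v huv
  have h5 : Fac M (n + 1) ((((ρ_ (tpow p.a (n + 2))).inv ≫ u) ▷ (p.e ⊗ tpow p.e n)) ≫
      ((symm q.a 0 ▷ (M.L ⊗ tpow q.e n) ≫ v ≫ (ρ_ (tpow p.a (n + 2))).hom) ▷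
        (p.e ⊗ tpow p.e n))) :=
    DU0_mid _ _ _ h4 _ _
  exact h6 ▸ h5

end

end Pool.VAS

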