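import Pool.Agent.Work.MP_292d0f_iso.Interface

/-! # Block DU1: duality (helper38) -/

open CategoryTheory MonoidalCategory
open Pool.Agent.Work.MP_c42eb9_num.Defs Pool.Agent.Work.MP_c42eb9_num

namespace Pool.VAS

universe v u w v' u' w'

section

variable {A : Type u} [Category.{v} A] [MonoidalCategory A] [SymmetricCategory A]

/-- exchange of the last two factors -/
def DU1_sw (X Y Z : A) : (X ⊗ Y) ⊗ Z ≅ (X ⊗ Z) ⊗ Y :=
  α_ X Y Z ≪≫ whiskerLeftIso X (β_ Y Z) ≪≫ (α_ X Z Y).symm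

theorem DU1_sw_nat {X X' : A} (Y Z : A) (g : X ⟶ X') :
    (g ▷ Y) ▷ Z ≫ (DU1_sw X' Y Z).hom = (DU1_sw X Y Z).hom ≫ (g ▷ Z) ▷ Y := by
  simp only [DU1_sw, Iso.trans_hom, whiskerLeftIso_hom, Iso.symm_hom, Category.assoc]
  rw [associator_naturality_left_assoc, ← associator_inv_naturality_left,
    whisker_exchange_assoc]

end

section

variable {V : Type w} {A : Type u} [Category.{v} A] [MonoidalCategory A] [SymmetricCategory A]
  [Preadditive A] [MonoidalPreadditive A] [Linear ℚ A] [MonoidalLinear ℚ A]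
  {M : ChowMotives V A}

theorem DU1_aux (hREA : Stmt_REA A) (hFTN : Stmt_FTN V A M) {B L F G K W : A} (s : B ⟶ B)
    (e : W ≅ F ⊗ G) {j k : ℕ} (h1 : Fac M j (s ▷ G)) (h2 : Fac M 1 (𝟙 L))
    (h3 : Fac M k (𝟙 (F ⊗ K))) : Fac M (j + (1 + k)) ((s ▷ (L ⊗ W)) ▷ K) := by
  obtain ⟨φ, hφ⟩ := hREA L F G K B
  have h4 : Fac M (1 + k) (𝟙 (L ⊗ (F ⊗ K))) := by
    have := hFTN 1 k _ _ _ _ _ _ h2 h3
    rwa [id_tensorHom_id] at this
  have h5 : Fac M (j + (1 + k)) ((s ▷ G) ▷ (L ⊗ (F ⊗ K))) := by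
    have := hFTN j (1 + k) _ _ _ _ _ _ h1 h4
    rwa [tensorHom_id] at this
  have h6 : Fac M (j + (1 + k)) ((s ▷ (L ⊗ (F ⊗ G))) ▷ K) := h5.conj φ φ (hφ s)
  refine h6.conj (whiskerRightIso (whiskerLeftIso B (whiskerLeftIso L e)) K)
    (whiskerRightIso (whiskerLeftIso B (whiskerLeftIso L e)) K) ?_
  simp only [whiskerRightIso_hom, whiskerLeftIso_hom]
  rw [← comp_whiskerRight, ← comp_whiskerRight, ← whisker_exchange]

end

section

variable (V : Type w) (A : Type u) [Category.{v} A] [MonoidalCategory A] [SymmetricCategory A]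
  [Preadditive A] [MonoidalPreadditive A] [Linear ℚ A] [MonoidalLinear ℚ A]
  (M : ChowMotives V A) (R : RatConn M)

theorem i_DU1 (hFTN : Stmt_FTN V A M) (hFCN : Stmt_FCN V A M) (hFLN : Stmt_FLN V A M)
    (hREA : Stmt_REA A) : Stmt_DU1 V A M R := by
  intro p q pr n hD j k hjk hF
  subst hjk
  obtain ⟨u, v, huv⟩ := hD.dual (j + 1) (k + 1) (by omega)
  have h1 : Fac M (j + (1 + k))
      ((symm q.a (j + 1) ▷ (M.L ⊗ tpow q.e (j + k))) ▷ tpow p.e k) :=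
    DU1_aux hREA hFTN (symm q.a (j + 1)) (ad q.e j k) hF Fac.lefschetz (hFLN p.e q.e pr k)
  have h2 := h1.comp (u ▷ tpow p.e k) (v ▷ tpow p.e k)
  rw [← comp_whiskerRight, ← comp_whiskerRight, huv] at h2
  have h3 : Fac M (j + (1 + k)) ((symm p.a (k + 1) ▷ tpow p.e k) ▷ tpow M.L (j + 1)) :=
    h2.conj (DU1_sw _ _ _) (DU1_sw _ _ _) (DU1_sw_nat _ _ _)
  have h4 : j + (1 + k) = (j + 1) + k := by omega
  rw [h4] at h3
  exact hFCN (j + 1) k _ _ _ h3

end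

end Pool.VAS
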