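import Pool.Agent.Work.MP_292d0f_iso.Interface

/-!
# K3 surfaces with half twists: block DU2
-/

open CategoryTheory MonoidalCategory
open Pool.Agent.Work.MP_c42eb9_num.Defs Pool.Agent.Work.MP_c42eb9_num

namespace Pool.VAS

universe v u w

variable {V : Type w} {A : Type u} [Category.{v} A] [MonoidalCategory A] [SymmetricCategory A]
  [Preadditive A] [MonoidalPreadditive A] [Linear ℚ A] [MonoidalLinear ℚ A]
  {M : ChowMotives V A} {R : RatConn M}

/-- The symmetric powers vanish above the dimension. -/
theorem i_DU2 : Stmt_DU2 V A M R := by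
  intro p q n h k hk
  have key : ∀ m : ℕ, n + 3 ≤ m → symm p.a m = 0 := by
    intro m hm
    induction m, hm using Nat.le_induction with
    | base => exact h.top
    | succ m hm ih =>
      have h1 : Lalt (negE p.a) m ≫ symm p.a (m + 1) = symm p.a (m + 1) :=
        Lalt_alt (negE p.a) m
      have h2 : Lalt (negE p.a) m = 0 :=
        (congrArg (LN p.a).map ih).trans ((LN p.a).map_zero _ _)
      rw [← h1, h2, Limits.zero_comp]
  rw [key (k + 1) (by omega), MonoidalPreadditive.zero_whiskerRight]
  exact Fac.zero

end Pool.VAS
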