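import Pool.Agent.Work.MP_292d0f_iso.Interface2
import Pool.Agent.Work.MP_292d0f_iso.B_DU1

/-! # Block DUG: duality with general exponents -/

open CategoryTheory MonoidalCategory
open Pool.Agent.Work.MP_c42eb9_num.Defs Pool.Agent.Work.MP_c42eb9_num

namespace Pool.VAS

universe v u w

variable (V : Type w) (A : Type u) [Category.{v} A] [MonoidalCategory A] [SymmetricCategory A]
  [Preadditive A] [MonoidalPreadditive A] [Linear ℚ A] [MonoidalLinear ℚ A]
  (M : ChowMotives V A) (R : RatConn M)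

theorem i_DUG (hFTN : Stmt_FTN V A M) (hFCN : Stmt_FCN V A M) (hFLN : Stmt_FLN V A M)
    (hREA : Stmt_REA A) : Stmt_DUG V A M R := by
  intro p q pr n hD j k s s' c c' hjk hs hF hc
  subst hs
  obtain ⟨u, v, huv⟩ := hD.dual j k hjk
  have h1 : Fac M (c' + (1 + s))
      ((symm q.a j ▷ (M.L ⊗ tpow q.e (s' + s))) ▷ tpow p.e s) :=
    DU1_aux hREA hFTN (symm q.a j) (ad q.e s' s) hF Fac.lefschetz (hFLN p.e q.e pr s)
  have h2 := h1.comp (u ▷ tpow p.e s) (v ▷ tpow p.e s)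
  rw [← comp_whiskerRight, ← comp_whiskerRight, huv] at h2
  have h3 : Fac M (c' + (1 + s)) ((symm p.a k ▷ tpow p.e s) ▷ tpow M.L j) :=
    h2.conj (DU1_sw _ _ _) (DU1_sw _ _ _) (DU1_sw_nat _ _ _)
  rw [← hc] at h3
  exact hFCN j c _ _ _ h3

end Pool.VAS
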