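import Pool.Agent.Work.MP_292d0f_iso.Interface2

/-! # Block DUZ: the symmetric powers vanish above the dimension (typist helper87) -/

set_option autoImplicit false

open CategoryTheory MonoidalCategory
open Pool.Agent.Work.MP_c42eb9_num.Defs Pool.Agent.Work.MP_c42eb9_num

namespace Pool.VAS

universe v u w

variable (V : Type w) (A : Type u) [Category.{v} A] [MonoidalCategory A] [SymmetricCategory A]
  [Preadditive A] [MonoidalPreadditive A] [Linear ℚ A] [MonoidalLinear ℚ A]
  (M : ChowMotives V A) (R : RatConn M)

omit [MonoidalLinear ℚ A] in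
theorem i_DUZ : Stmt_DUZ V A M R := by
  intro p q n h m hm
  induction m, hm using Nat.le_induction with
  | base => exact h.top
  | succ m hm ih =>
    have h1 : Lalt (negE p.a) m ≫ symm p.a (m + 1) = symm p.a (m + 1) := Lalt_alt (negE p.a) m
    have h2 : Lalt (negE p.a) m = 0 := (congrArg (LN p.a).map ih).trans ((LN p.a).map_zero _ _)
    rw [← h1, h2, Limits.zero_comp]

end Pool.VAS
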