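import Pool.Agent.Work.MP_292d0f_iso.Interface

/-!
# Block EX2 (typed by helper55): expansion of `(P + Q) ^ N = 𝟙` on antisymmetric tensors
-/

open CategoryTheory MonoidalCategory
open Pool.Agent.Work.MP_c42eb9_num.Defs Pool.Agent.Work.MP_c42eb9_num

namespace Pool.VAS

universe v u

section

variable (A : Type u) [Category.{v} A] [MonoidalCategory A] [SymmetricCategory A]
  [Preadditive A] [MonoidalPreadditive A] [Linear ℚ A] [MonoidalLinear ℚ A]

variable {A}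

omit [SymmetricCategory A] in
theorem EX2_step {N Y : A} (R : N ⊗ Y ⟶ N ⊗ Y) (q : Y ⟶ Y) (hRq : R ≫ N ◁ q = R)
    (hqR : N ◁ q ≫ R = R) (hRR : R ≫ R = R) (P Q : N ⟶ N) (hPQ : P + Q = 𝟙 N)
    (W : ℕ → (Y ⟶ Y)) (S : Submodule ℚ (N ⊗ Y ⟶ N ⊗ Y)) (n : ℕ)
    (h1 : ∀ i, i ≤ n → R ≫ (P ⊗ₘ W i) ≫ R ∈ S) (h2 : ∀ i, i ≤ n → R ≫ (Q ⊗ₘ W i) ≫ R ∈ S)
    (hq : q ∈ Submodule.span ℚ {g | ∃ i, i ≤ n ∧ g = q ≫ W i ≫ q}) : R ∈ S := by
  have key : ∀ f ∈ Submodule.span ℚ {g | ∃ i, i ≤ n ∧ g = q ≫ W i ≫ q},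
      R ≫ (N ◁ f) ≫ R ∈ S := by
    intro f hf
    induction hf using Submodule.span_induction with
    | mem f hf =>
      obtain ⟨i, hi, rfl⟩ := hf
      have e : N ◁ (q ≫ W i ≫ q) = (P ⊗ₘ (q ≫ W i ≫ q)) + (Q ⊗ₘ (q ≫ W i ≫ q)) := by
        rw [← MonoidalPreadditive.add_tensor, hPQ, id_tensorHom]
      rw [e, Preadditive.add_comp, Preadditive.comp_add, EXP_absorb R q hRq hqR,
        EXP_absorb R q hRq hqR]
      exact S.add_mem (h1 i hi) (h2 i hi)
    | zero =>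
      rw [MonoidalPreadditive.whiskerLeft_zero, Limits.zero_comp, Limits.comp_zero]
      exact S.zero_mem
    | add f g _ _ hf hg =>
      rw [MonoidalPreadditive.whiskerLeft_add, Preadditive.add_comp, Preadditive.comp_add]
      exact S.add_mem hf hg
    | smul r f _ hf =>
      rw [MonoidalLinear.whiskerLeft_smul, Linear.smul_comp, Linear.comp_smul]
      exact S.smul_mem r hf
  have h := key q hq
  rw [hqR, hRR] at h
  exact h

end

section

variable (A : Type u) [Category.{v} A] [MonoidalCategory A] [SymmetricCategory A]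
  [Preadditive A] [MonoidalPreadditive A] [Linear ℚ A] [MonoidalLinear ℚ A]

theorem i_EX2 (hMOV : Stmt_MOV A) : Stmt_EX2 A := by
  intro t P Q hPQ N
  induction N with
  | zero =>
    refine Submodule.subset_span ⟨0, le_refl 0, ?_⟩
    have h0 : alt t 0 = 𝟙 (tpow t 0) := alt_zero (exchE t)
    have hw : wrd P Q 0 0 = 𝟙 (tpow t 0) := rfl
    rw [h0, hw, Category.id_comp, Category.id_comp]
  | succ N ih =>
    refine EX2_step (N := t) (Y := tpow t N) (alt t (N + 1)) (alt t N) (alt_Lalt (exchE t) N)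
      (Lalt_alt (exchE t) N) (alt_idem (exchE t) (N + 1)) P Q hPQ (fun i => wrd P Q i N)
      (Submodule.span ℚ {g | ∃ i, i ≤ N + 1 ∧ g = alt t (N + 1) ≫ wrd P Q i (N + 1) ≫
        alt t (N + 1)}) N ?_ ?_ ih
    · intro i hi
      exact Submodule.subset_span ⟨i + 1, Nat.succ_le_succ hi, rfl⟩
    · intro i hi
      refine Submodule.subset_span ⟨i, Nat.le_succ_of_le hi, ?_⟩
      exact hMOV t P Q i N hi

end

end Pool.VAS
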