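import Pool.Agent.Work.MP_292d0f_iso.Interface

/-!
# Block EXS: the exchange of an odd object
-/

open CategoryTheory MonoidalCategory
open Pool.Agent.Work.MP_c42eb9_num.Defs Pool.Agent.Work.MP_c42eb9_num

namespace Pool.VAS

universe v u

section

variable {A : Type u} [Category.{v} A] [MonoidalCategory A] [SymmetricCategory A]
  [Preadditive A] [MonoidalPreadditive A] [Linear ℚ A] [MonoidalLinear ℚ A]

omit [SymmetricCategory A] [Linear ℚ A] [MonoidalLinear ℚ A] in
theorem EXS_neg {X Y : A} (f : X ⟶ Y) (Z : A) : (-f) ▷ Z = -(f ▷ Z) :=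
  (tensoringRight A).obj Z |>.map_neg

theorem i_EXS : Stmt_EXS A := by
  intro e he n
  unfold exch
  rw [he]
  have h : (-𝟙 (e ⊗ e)) ▷ tpow e n = -𝟙 ((e ⊗ e) ⊗ tpow e n) := by
    rw [EXS_neg, id_whiskerRight]
  rw [h, Preadditive.neg_comp, Category.id_comp, Preadditive.comp_neg, Iso.inv_hom_id]

end

end Pool.VAS
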