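import Pool.Agent.Work.MP_292d0f_iso.Interface

/-! # Block FB0 (typist helper87) -/

set_option autoImplicit false

open CategoryTheory MonoidalCategory
open Pool.Agent.Work.MP_c42eb9_num.Defs Pool.Agent.Work.MP_c42eb9_num

namespace Pool.VAS

universe v u w

variable (V : Type w) (A : Type u) [Category.{v} A] [MonoidalCategory A] [SymmetricCategory A]
  [Preadditive A] [MonoidalPreadditive A] [Linear ℚ A] [MonoidalLinear ℚ A]
  (M : ChowMotives V A) (R : RatConn M)

omit [MonoidalPreadditive A] [MonoidalLinear ℚ A] in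
theorem i_FB0 : Stmt_FB0 V A M R := by
  intro p
  have h1 : symm p.a 1 ▷ tpow p.e 0 = 𝟙 (tpow p.a 1 ⊗ tpow p.e 0) :=
    id_whiskerRight (tpow p.a 1) (tpow p.e 0)
  rw [h1]
  exact Fac.of_iso (ρ_ (p.a ⊗ 𝟙_ A) ≪≫ ρ_ p.a) (Fac.retract p.aC_Ca)

end Pool.VAS
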