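import Pool.Agent.Work.MP_292d0f_iso.Interface

/-! # Block FB1: the theorem of Bloch and Srinivas for the threefold (typist helper87) -/

set_option autoImplicit false

open CategoryTheory MonoidalCategory
open Pool.Agent.Work.MP_c42eb9_num.Defs Pool.Agent.Work.MP_c42eb9_num

namespace Pool.VAS

universe v u w

variable (V : Type w) (A : Type u) [Category.{v} A] [MonoidalCategory A] [SymmetricCategory A]
  [Preadditive A] [MonoidalPreadditive A] [Linear ℚ A] [MonoidalLinear ℚ A]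
  (M : ChowMotives V A) (R : RatConn M)

omit [MonoidalPreadditive A] [MonoidalLinear ℚ A] in
theorem FB1_fac {X Y : A} {Z : V} (a : X ⟶ M.L ⊗ M.h Z) (b : M.L ⊗ M.h Z ⟶ Y) :
    Fac M 1 (a ≫ b) :=
  ⟨Z, a ≫ (ρ_ M.L).inv ▷ M.h Z, (ρ_ M.L).hom ▷ M.h Z ≫ b, by
    have h : (ρ_ M.L).inv ▷ M.h Z ≫ (ρ_ M.L).hom ▷ M.h Z = 𝟙 _ := by
      rw [← comp_whiskerRight, Iso.inv_hom_id, id_whiskerRight]
    refine (Category.assoc _ _ _).trans ?_
    refine congrArg (fun f => a ≫ f) ?_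
    refine (Category.assoc _ _ _).symm.trans ?_
    exact (congrArg (fun f => f ≫ b) h).trans (Category.id_comp b)⟩

omit [MonoidalLinear ℚ A] in
theorem i_FB1 : Stmt_FB1 V A M R := by
  intro p
  have hz : ∀ z : 𝟙_ A ⟶ M.h p.X, z ≫ (p.v ≫ p.u) = 0 := by
    intro z
    refine R.zero p.X p.rc _ ?_
    rw [Category.assoc, Category.assoc, p.u_deg, Limits.comp_zero, Limits.comp_zero]
  obtain ⟨Z, a, b, hab⟩ := M.blochSrinivas p.X p.X (p.v ≫ p.u) hz
  have hid : symm p.a 2 ≫ symm p.a 2 = symm p.a 2 := alt_idem (negE p.a) 2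
  have hs : symm p.a 2 ▷ p.e = (p.u ≫ a) ≫ (b ≫ p.v) := by
    have h1 : symm p.a 2 ▷ p.e = symm p.a 2 ▷ p.e ≫ symm p.a 2 ▷ p.e := by
      rw [← comp_whiskerRight, hid]
    rw [h1, ← p.u_v]
    calc (p.u ≫ p.v) ≫ p.u ≫ p.v = p.u ≫ (p.v ≫ p.u) ≫ p.v := by
          simp only [Category.assoc]
      _ = (p.u ≫ a) ≫ (b ≫ p.v) := by
          rw [← hab]
          simp only [Category.assoc]
  have hf : Fac M 1 (symm p.a 2 ▷ p.e) := by
    rw [hs]
    exact FB1_fac V A M _ _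
  exact hf.conj (whiskerLeftIso (tpow p.a 2) (ρ_ p.e)) (whiskerLeftIso (tpow p.a 2) (ρ_ p.e))
    (whisker_exchange (symm p.a 2) (ρ_ p.e).hom).symm

end Pool.VAS
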