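import Pool.Agent.Work.MP_292d0f_iso.Interface

/-! # Block FCN: cancellation of `L ^ j` (typist helper87) -/

set_option autoImplicit false

open CategoryTheory MonoidalCategory
open Pool.Agent.Work.MP_c42eb9_num.Defs Pool.Agent.Work.MP_c42eb9_num

namespace Pool.VAS

universe v u w

variable (V : Type w) (A : Type u) [Category.{v} A] [MonoidalCategory A] [SymmetricCategory A]
  [Preadditive A] [MonoidalPreadditive A] [Linear ℚ A] [MonoidalLinear ℚ A]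
  (M : ChowMotives V A)

theorem i_FCN (hTW : Stmt_TW V A M) : Stmt_FCN V A M := by
  intro j c X Y g ⟨Z, u, v, huv⟩
  obtain ⟨e⟩ := p_ADD A M.L j c
  let φ : tpow M.L (j + c) ⊗ M.h Z ≅ tpow M.L j ⊗ (tpow M.L c ⊗ M.h Z) :=
    whiskerRightIso e (M.h Z) ≪≫ α_ (tpow M.L j) (tpow M.L c) (M.h Z)
  obtain ⟨u', hu'⟩ := (hTW j X (tpow M.L c ⊗ M.h Z)).2
    ((β_ (tpow M.L j) X).hom ≫ u ≫ φ.hom)
  obtain ⟨v', hv'⟩ := (hTW j (tpow M.L c ⊗ M.h Z) Y).2
    (φ.inv ≫ v ≫ (β_ (tpow M.L j) Y).inv)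
  simp only at hu' hv'
  refine ⟨Z, u', v', (hTW j X Y).1 ?_⟩
  change tpow M.L j ◁ (u' ≫ v') = tpow M.L j ◁ g
  have hg : tpow M.L j ◁ g ≫ (β_ (tpow M.L j) Y).hom =
      (β_ (tpow M.L j) X).hom ≫ g ▷ tpow M.L j :=
    BraidedCategory.braiding_naturality_right (tpow M.L j) g
  rw [MonoidalCategory.whiskerLeft_comp, hu', hv', ← cancel_mono (β_ (tpow M.L j) Y).hom, hg,
    ← huv]
  simp only [Category.assoc, Iso.hom_inv_id_assoc, Iso.inv_hom_id, Category.comp_id]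

end Pool.VAS
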