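import Pool.Agent.Work.MP_292d0f_iso.Interface

/-! Block FEF: `FacE` implies `Fac`. -/

open CategoryTheory MonoidalCategory
open Pool.Agent.Work.MP_c42eb9_num.Defs Pool.Agent.Work.MP_c42eb9_num

namespace Pool.VAS

universe v u w

section

variable (V : Type w) (A : Type u) [Category.{v} A] [MonoidalCategory A] [SymmetricCategory A]
  [Preadditive A] [MonoidalPreadditive A] [Linear ℚ A] [MonoidalLinear ℚ A]
  (M : ChowMotives V A)

theorem i_FEF (hFTN : Stmt_FTN V A M) : Stmt_FEF V A M := by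
  intro e E i r hir c X Y g hg
  obtain ⟨Z, u, v, rfl⟩ := hg
  have h1 : Fac M c (𝟙 ((tpow M.L c ⊗ M.h Z) ⊗ e)) := by
    have h := hFTN c 0 _ _ _ _ (𝟙 (tpow M.L c ⊗ M.h Z)) (𝟙 e) (Fac.twist c Z)
      (Fac.retract hir)
    rwa [id_tensorHom_id] at h
  have h2 := h1.comp u v
  rwa [Category.id_comp] at h2

end

end Pool.VAS
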