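import Pool.Agent.Work.MP_292d0f_iso.Interface

/-!
# Block FLN: `f ^ n ⊗ e ^ n` is a twist by `L ^ n`
-/

open CategoryTheory MonoidalCategory
open Pool.Agent.Work.MP_c42eb9_num.Defs Pool.Agent.Work.MP_c42eb9_num

namespace Pool.VAS

universe v u w

section

variable {V : Type w} {A : Type u} [Category.{v} A] [MonoidalCategory A] [SymmetricCategory A]
  [Preadditive A] [MonoidalPreadditive A] [Linear ℚ A] [MonoidalLinear ℚ A]
  {M : ChowMotives V A}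

omit [MonoidalPreadditive A] [MonoidalLinear ℚ A] in
theorem FLN_step (hFTN : Stmt_FTN V A M) (n : ℕ) (e f X Y : A) (i : e ⊗ f ≅ M.L)
    (h : Fac M n (𝟙 (X ⊗ Y))) : Fac M (n + 1) (𝟙 ((f ⊗ X) ⊗ (e ⊗ Y))) := by
  have h1 : Fac M 1 (𝟙 (f ⊗ e)) := Fac.of_iso ((β_ f e) ≪≫ i) Fac.lefschetz
  have h2 : Fac M (n + 1) (𝟙 (X ⊗ Y) ⊗ₘ 𝟙 (f ⊗ e)) := hFTN n 1 _ _ _ _ _ _ h h1
  rw [id_tensorHom_id] at h2
  exact Fac.of_iso ((muIso f X e Y) ≪≫ (β_ (f ⊗ e) (X ⊗ Y))) h2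

omit [MonoidalPreadditive A] [MonoidalLinear ℚ A] in
theorem i_FLN (hFTN : Stmt_FTN V A M) : Stmt_FLN V A M := by
  intro e f i n
  induction n with
  | zero =>
    obtain ⟨j⟩ := M.isoPt
    exact Fac.of_iso ((λ_ (𝟙_ A)) ≪≫ j.symm) (Fac.variety M.pt)
  | succ n ih => exact FLN_step hFTN n e f (tpow f n) (tpow e n) i ih

end

end Pool.VAS
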