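import Pool.Agent.Work.MP_292d0f_iso.Interface2

/-!
# Block FRR (typed by helper21): from the property of `𝟙 - deg ≫ pt` to the statement `At`
-/

open CategoryTheory MonoidalCategory
open Pool.Agent.Work.MP_c42eb9_num.Defs Pool.Agent.Work.MP_c42eb9_num

namespace Pool.VAS

universe v u w

section

variable (V : Type w) (A : Type u) [Category.{v} A] [MonoidalCategory A] [SymmetricCategory A]
  [Preadditive A] [MonoidalPreadditive A] [Linear ℚ A] [MonoidalLinear ℚ A]
  (M : ChowMotives V A)

variable (K : K3Motive M)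

theorem i_FRR : Stmt_FRR V A M K := by
  intro B hk n l hB z hz hz0 w hw
  obtain ⟨w₀, hw₀⟩ := p_WRI V A M K w hw
  have h1 := p_CTR A p_EXP (M.h K.S) (tpow M.L l) K.deg K.pt n z hz hz0
  have h2 := hk n l hB z hz w₀
  rw [h1, ← hw₀] at h2
  exact h2

end

end Pool.VAS

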