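import Pool.Agent.Work.MP_292d0f_iso.Interface

/-! Block FTN: tensor products of morphisms which factor through twists. -/

open CategoryTheory MonoidalCategory
open Pool.Agent.Work.MP_c42eb9_num.Defs Pool.Agent.Work.MP_c42eb9_num

namespace Pool.VAS

universe v u w

section

variable (V : Type w) (A : Type u) [Category.{v} A] [MonoidalCategory A] [SymmetricCategory A]
  [Preadditive A] [MonoidalPreadditive A] [Linear ℚ A] [MonoidalLinear ℚ A]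
  (M : ChowMotives V A)

theorem i_FTN : Stmt_FTN V A M := by
  intro c d X Y X' Y' g g' hg hg'
  obtain ⟨Z, u, v, rfl⟩ := hg
  obtain ⟨Z', u', v', rfl⟩ := hg'
  obtain ⟨W, ⟨iW⟩⟩ := M.prod Z Z'
  obtain ⟨iL⟩ := p_ADD A M.L c d
  let φ : (tpow M.L c ⊗ M.h Z) ⊗ (tpow M.L d ⊗ M.h Z') ≅ tpow M.L (c + d) ⊗ M.h W :=
    muIso _ _ _ _ ≪≫ (iL.symm ⊗ᵢ iW.symm)
  refine ⟨W, (u ⊗ₘ u') ≫ φ.hom, φ.inv ≫ (v ⊗ₘ v'), ?_⟩
  rw [Category.assoc, Iso.hom_inv_id_assoc, MonoidalCategory.tensorHom_comp_tensorHom]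

end

end Pool.VAS
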