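import Pool.Agent.Work.MP_292d0f_iso.Interface

/-!
# Block MOV: moving a factor `Q` behind the factors `P`
-/

open CategoryTheory MonoidalCategory
open Pool.Agent.Work.MP_c42eb9_num.Defs Pool.Agent.Work.MP_c42eb9_num

namespace Pool.VAS

universe v u

section

variable {A : Type u} [Category.{v} A]

theorem MOV_swap_aux [Preadditive A] {W : A} (P s F F' : W ⟶ W) (h1 : P ≫ s = -P)
    (h1' : s ≫ P = -P) (h2 : s ≫ F = F' ≫ s) : P ≫ F ≫ P = P ≫ F' ≫ P := by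
  have e1 : P ≫ F = -(P ≫ F' ≫ s) := by
    rw [← h2, ← Category.assoc, h1, Preadditive.neg_comp, neg_neg]
  rw [← Category.assoc, e1, Preadditive.neg_comp, Category.assoc, Category.assoc, h1',
    Preadditive.comp_neg, Preadditive.comp_neg, neg_neg]

theorem MOV_ins_aux {W : A} (P B F G : W ⟶ W) (h1 : P ≫ B = P) (h2 : B ≫ P = P)
    (h3 : B ≫ F ≫ B = G) : P ≫ F ≫ P = P ≫ G ≫ P := by
  rw [← h3, Category.assoc, Category.assoc, h2, ← Category.assoc P B, h1]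

theorem MOV_tens_aux [MonoidalCategory A] {X Z : A} (x : X ⟶ X) (b f : Z ⟶ Z) :
    X ◁ b ≫ (x ⊗ₘ f) ≫ X ◁ b = x ⊗ₘ (b ≫ f ≫ b) := by
  rw [← id_tensorHom, tensorHom_comp_tensorHom, tensorHom_comp_tensorHom, Category.id_comp,
    Category.comp_id]

variable [MonoidalCategory A] [SymmetricCategory A]
  [Preadditive A] [MonoidalPreadditive A] [Linear ℚ A]

theorem MOV_swap (t : A) (n : ℕ) (x y : t ⟶ t) (w : tpow t n ⟶ tpow t n) :
    alt t (n + 2) ≫ (x ⊗ₘ (y ⊗ₘ w) : tpow t (n + 2) ⟶ tpow t (n + 2)) ≫ alt t (n + 2) =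
      alt t (n + 2) ≫ (y ⊗ₘ (x ⊗ₘ w) : tpow t (n + 2) ⟶ tpow t (n + 2)) ≫ alt t (n + 2) :=
  MOV_swap_aux (W := tpow t (n + 2)) (alt t (n + 2)) ((exchE t).op n)
    (x ⊗ₘ (y ⊗ₘ w)) (y ⊗ₘ (x ⊗ₘ w)) (alt_exch (exchE t) n) (exch_alt (exchE t) n)
    (natE_exch n x y w)

theorem MOV_ins (t : A) (n : ℕ) (x : t ⟶ t) (f : tpow t n ⟶ tpow t n) :
    alt t (n + 1) ≫ (x ⊗ₘ f : tpow t (n + 1) ⟶ tpow t (n + 1)) ≫ alt t (n + 1) =
      alt t (n + 1) ≫ (x ⊗ₘ (alt t n ≫ f ≫ alt t n) : tpow t (n + 1) ⟶ tpow t (n + 1)) ≫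
        alt t (n + 1) :=
  MOV_ins_aux (W := tpow t (n + 1)) (alt t (n + 1)) (Lalt (exchE t) n) (x ⊗ₘ f)
    (x ⊗ₘ (alt t n ≫ f ≫ alt t n)) (alt_Lalt (exchE t) n) (Lalt_alt (exchE t) n)
    (MOV_tens_aux x (alt t n) f)

end

section

variable (A : Type u) [Category.{v} A] [MonoidalCategory A] [SymmetricCategory A]
  [Preadditive A] [MonoidalPreadditive A] [Linear ℚ A] [MonoidalLinear ℚ A]

theorem i_MOV : Stmt_MOV A := by
  intro t P Q i
  induction i with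
  | zero => intro N _; rfl
  | succ i ih =>
    intro N hN
    obtain ⟨N', rfl⟩ : ∃ N', N = N' + 1 := ⟨N - 1, by omega⟩
    have h1 := MOV_swap t N' Q P (wrd P Q i N')
    have h2 := MOV_ins t (N' + 1) P (Q ⊗ₘ wrd P Q i N')
    have h3 := congrArg (fun g => alt t (N' + 2) ≫
      (P ⊗ₘ g : tpow t (N' + 2) ⟶ tpow t (N' + 2)) ≫ alt t (N' + 2)) (ih N' (by omega))
    have h4 := MOV_ins t (N' + 1) P (wrd P Q i (N' + 1))
    exact h1.trans (h2.trans (h3.trans h4.symm))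

end

end Pool.VAS
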