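import Pool.Agent.Work.MP_292d0f_iso.Interface

/-! Block MXE: the mixed product. -/

open CategoryTheory MonoidalCategory
open Pool.Agent.Work.MP_c42eb9_num.Defs Pool.Agent.Work.MP_c42eb9_num

namespace Pool.VAS

universe v u w

section

variable (V : Type w) (A : Type u) [Category.{v} A] [MonoidalCategory A] [SymmetricCategory A]
  [Preadditive A] [MonoidalPreadditive A] [Linear ℚ A] [MonoidalLinear ℚ A]
  (M : ChowMotives V A)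

theorem i_MXE (hFTN : Stmt_FTN V A M) : Stmt_MXE V A M := by
  intro e f pair c d X Y X' Y' g g' hg hg'
  obtain ⟨Z, u, v, rfl⟩ := hg
  obtain ⟨Z', u', v', rfl⟩ := hg'
  have h1 : Fac M (c + d) (𝟙 ((tpow M.L c ⊗ M.h Z) ⊗ (tpow M.L d ⊗ M.h Z'))) := by
    have h := hFTN c d _ _ _ _ (𝟙 (tpow M.L c ⊗ M.h Z)) (𝟙 (tpow M.L d ⊗ M.h Z'))
      (Fac.twist c Z) (Fac.twist d Z')
    rwa [id_tensorHom_id] at h
  have h2 : Fac M (c + d + 1)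
      (𝟙 (((tpow M.L c ⊗ M.h Z) ⊗ (tpow M.L d ⊗ M.h Z')) ⊗ M.L)) := by
    have h := hFTN (c + d) 1 _ _ _ _ _ (𝟙 M.L) h1 Fac.lefschetz
    rwa [id_tensorHom_id] at h
  have h3 : Fac M (c + d + 1)
      (𝟙 (((tpow M.L c ⊗ M.h Z) ⊗ e) ⊗ ((tpow M.L d ⊗ M.h Z') ⊗ f))) :=
    Fac.of_iso (muIso (tpow M.L c ⊗ M.h Z) e (tpow M.L d ⊗ M.h Z') f ≪≫
      whiskerLeftIso ((tpow M.L c ⊗ M.h Z) ⊗ (tpow M.L d ⊗ M.h Z')) pair) h2
  have h4 := h3.comp (u ⊗ₘ u') (v ⊗ₘ v')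
  rwa [Category.id_comp, tensorHom_comp_tensorHom] at h4

end

end Pool.VAS
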