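import Pool.Agent.Work.MP_292d0f_iso.Interface2

/-! # Block PTR (typist helper87; after block PET of `MP_292d0f_va`) -/

set_option autoImplicit false

open CategoryTheory MonoidalCategory
open Pool.Agent.Work.MP_c42eb9_num.Defs Pool.Agent.Work.MP_c42eb9_num

namespace Pool.VAS

universe v u w

variable (V : Type w) (A : Type u) [Category.{v} A] [MonoidalCategory A] [SymmetricCategory A]
  [Preadditive A] [MonoidalPreadditive A] [Linear ℚ A] [MonoidalLinear ℚ A]
  (M : ChowMotives V A) (K : K3Motive M)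

omit [MonoidalLinear ℚ A] in
theorem i_PTR : Stmt_PTR V A M K := by
  intro B hV n l hl z hz w
  have h1 : ext (w ≫ K.inc) (z ≫ tpowMap (K.pr ≫ K.inc) (n + 1)) =
      ext w (z ≫ tpowMap K.pr (n + 1)) ≫ tpowMap K.inc (n + 2) := by
    rw [tpowMap_comp, ← Category.assoc z]
    exact PET_aux w K.inc (z ≫ tpowMap K.pr (n + 1)) (tpowMap K.inc (n + 1))
  have h2 : ext w (z ≫ tpowMap K.pr (n + 1)) ≫ alt K.t (n + 2) = 0 :=
    hV n l hl (ext w (z ≫ tpowMap K.pr (n + 1)))
  rw [h1, Category.assoc, ← alt_nat K.inc (n + 2), ← Category.assoc, h2, Limits.zero_comp]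

end Pool.VAS
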