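import Pool.Agent.Work.MP_292d0f_iso.Interface

/-! Block REA: reordering factors. -/

open CategoryTheory MonoidalCategory
open Pool.Agent.Work.MP_c42eb9_num.Defs Pool.Agent.Work.MP_c42eb9_num

namespace Pool.VAS

universe v u w

section

variable (A : Type u) [Category.{v} A] [MonoidalCategory A] [SymmetricCategory A]
  [Preadditive A] [MonoidalPreadditive A] [Linear ℚ A] [MonoidalLinear ℚ A]

theorem i_REA : Stmt_REA A := by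
  intro L F G K B
  let ψ : (L ⊗ (F ⊗ G)) ⊗ K ≅ G ⊗ (L ⊗ (F ⊗ K)) :=
    α_ L (F ⊗ G) K ≪≫ whiskerLeftIso L (α_ F G K) ≪≫
      whiskerLeftIso L (whiskerLeftIso F (β_ G K)) ≪≫ whiskerLeftIso L (α_ F K G).symm ≪≫
      (α_ L (F ⊗ K) G).symm ≪≫ β_ (L ⊗ (F ⊗ K)) G
  refine ⟨α_ B (L ⊗ (F ⊗ G)) K ≪≫ whiskerLeftIso B ψ ≪≫ (α_ B G (L ⊗ (F ⊗ K))).symm,
    fun s => ?_⟩
  have e1 := associator_naturality_left s (L ⊗ (F ⊗ G)) K
  have e2 := whisker_exchange s ψ.hom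
  have e3 := associator_inv_naturality_left s G (L ⊗ (F ⊗ K))
  show (s ▷ (L ⊗ (F ⊗ G))) ▷ K ≫ (α_ B (L ⊗ (F ⊗ G)) K).hom ≫ B ◁ ψ.hom ≫
      (α_ B G (L ⊗ (F ⊗ K))).inv =
    ((α_ B (L ⊗ (F ⊗ G)) K).hom ≫ B ◁ ψ.hom ≫ (α_ B G (L ⊗ (F ⊗ K))).inv) ≫
      (s ▷ G) ▷ (L ⊗ (F ⊗ K))
  rw [← Category.assoc, e1, Category.assoc, Category.assoc, Category.assoc]
  congr 1
  rw [← e3, ← Category.assoc, ← Category.assoc, e2]

end

end Pool.VAS
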