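import Pool.Agent.Work.MP_292d0f_iso.Interface2

/-!
# Block SPR: one more summand `L ^ (k + 1)` (edit of va/B_STP, helper38)
-/

open CategoryTheory MonoidalCategory
open Pool.Agent.Work.MP_c42eb9_num.Defs Pool.Agent.Work.MP_c42eb9_num

namespace Pool.VAS

universe v u w

variable (V : Type w) (A : Type u) [Category.{v} A] [MonoidalCategory A] [SymmetricCategory A]
  [Preadditive A] [MonoidalPreadditive A] [Linear ℚ A] [MonoidalLinear ℚ A]
  (M : ChowMotives V A) (K : K3Motive M)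

theorem i_SPR : Stmt_SPR V A M K := by
  have hADD : Stmt_ADD A := p_ADD A
  have hTW : Stmt_TW V A M := p_TW V A M
  have hNEG : Stmt_NEG V A M := k_NEG M
  have hPOW : Stmt_POW V A M := p_POW V A M
  have hBRL : Stmt_BRL A := p_BRL A
  have hEXP : Stmt_EXP A := p_EXP
  have hSWP : Stmt_SWP A := p_SWP A
  intro B hB a j ha n l hl z hz w
  obtain ⟨k, hk⟩ : ∃ k, k = K.k j + 1 := ⟨_, rfl⟩
  have hk0 : 1 ≤ k := by omega
  have key : ∀ (p : M.h K.S ⟶ tpow M.L k) (i : tpow M.L k ⟶ M.h K.S),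
      ext (w ≫ K.inc) (z ≫ tpowMap (a + p ≫ i) (n + 1)) ≫ alt (M.h K.S) (n + 2) = 0 := by
    intro p i
    have hL : ∀ m, M.h K.S ◁ alt (M.h K.S) (m + 1) ≫ alt (M.h K.S) (m + 2) =
        alt (M.h K.S) (m + 2) := fun m => Lalt_alt (exchE (M.h K.S)) (m + 1)
    refine STP_gen (H := M.h K.S) (W := tpow (M.h K.S) n) (X := tpow M.L l)
      (alt (M.h K.S) (n + 1)) (alt (M.h K.S) (n + 2)) (hL n) (tpowMap (a + p ≫ i) (n + 1))
      (tpowMap a (n + 1)) ((p ≫ i) ⊗ₘ tpowMap a n) ((n : ℚ) + 1)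
      (hEXP (M.h K.S) (tpow M.L k) (hBRL M.L M.braid k) a p i n) (w ≫ K.inc) z hz
      (ha n l hl z hz w) ?_
    by_cases hlk : l < k
    · exact STP_zero (H := M.h K.S) (W := tpow (M.h K.S) n) (X := tpow M.L l)
        (alt (M.h K.S) (n + 2)) (w ≫ K.inc) z p i (tpowMap a n)
        (STP_neg V A M K hNEG hPOW l k n hlk _)
    · obtain ⟨l', rfl⟩ : ∃ l', l = k + l' := ⟨l - k, by omega⟩
      obtain ⟨n', rfl, hB'⟩ := hB n l' (K.k j) (by rw [← hk]; exact hl)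
      obtain ⟨e⟩ := hADD M.L k l'
      have hsurj := (hTW k (tpow M.L l') (tpow (M.h K.S) (n' + 1))).2
      obtain ⟨z', hz'⟩ : ∃ z' : tpow M.L (k + l') ⟶ M.h K.S ⊗ tpow (M.h K.S) (n' + 1),
        z' = z := ⟨z, rfl⟩
      obtain ⟨z₁, hz₁⟩ := hsurj (e.inv ≫ z' ≫ p ▷ tpow (M.h K.S) (n' + 1))
      have hz₁' : tpow M.L k ◁ z₁ = e.inv ≫ z' ≫ p ▷ tpow (M.h K.S) (n' + 1) := hz₁
      have hza : z' ≫ (alt (M.h K.S) (n' + 2) : M.h K.S ⊗ tpow (M.h K.S) (n' + 1) ⟶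
          M.h K.S ⊗ tpow (M.h K.S) (n' + 1)) = z' := by
        rw [hz']
        exact hz
      have hanti : z₁ ≫ alt (M.h K.S) (n' + 1) = z₁ := by
        apply (hTW k _ _).1
        exact STP_anti (H := M.h K.S) (W := tpow (M.h K.S) (n' + 1)) (alt (M.h K.S) (n' + 2))
          (alt (M.h K.S) (n' + 1)) (alt_Lalt (exchE (M.h K.S)) (n' + 1)) z' hza p e z₁ hz₁'
      have h5 : z' ≫ p ▷ tpow (M.h K.S) (n' + 1) = e.hom ≫ tpow M.L k ◁ z₁ := by
        rw [hz₁', Iso.hom_inv_id_assoc]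
      have h8 := ha n' l' hB' z₁ hanti w
      have h9 := STP_pos (H := M.h K.S) (W := tpow (M.h K.S) (n' + 1))
        (X := tpow M.L (k + l')) (Λ := tpow M.L k) (P := tpow M.L l')
        (alt (M.h K.S) (n' + 2)) (alt (M.h K.S) (n' + 3)) (exch (M.h K.S) (n' + 1))
        (exch_alt (exchE (M.h K.S)) (n' + 1)) (hL (n' + 1)) (w ≫ K.inc) z' p i
        (tpowMap a (n' + 1)) e z₁ h5
        (fun y₁ => hSWP (M.h K.S) (tpow M.L k) (tpow M.L l') (tpow (M.h K.S) (n' + 1))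
          (w ≫ K.inc) i y₁) h8
      rw [hz'] at h9
      exact h9
  subst hk
  exact key (K.up j) (K.dn j)

end Pool.VAS
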