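import Pool.Agent.Work.MP_292d0f_iso.Interface

/-! # TEX: the exchange of the first two factors `a ⊗ e` -/

open CategoryTheory MonoidalCategory
open Pool.Agent.Work.MP_c42eb9_num.Defs Pool.Agent.Work.MP_c42eb9_num

namespace Pool.VAS

universe v u

section

variable {A : Type u} [Category.{v} A] [MonoidalCategory A]

theorem TEX_nat {T Z W : A} (s : T ⊗ T ⟶ T ⊗ T) (g : Z ⟶ W) :
    ((α_ T T Z).inv ≫ s ▷ Z ≫ (α_ T T Z).hom) ≫ T ◁ (T ◁ g) =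
      T ◁ (T ◁ g) ≫ ((α_ T T W).inv ≫ s ▷ W ≫ (α_ T T W).hom) := by
  have h1 : (α_ T T Z).hom ≫ T ◁ (T ◁ g) = (T ⊗ T) ◁ g ≫ (α_ T T W).hom := by
    simp
  have h2 : T ◁ (T ◁ g) ≫ (α_ T T W).inv = (α_ T T Z).inv ≫ (T ⊗ T) ◁ g := by
    simp
  rw [Category.assoc, Category.assoc, h1, ← whisker_exchange_assoc, reassoc_of% h2]

variable [SymmetricCategory A]

theorem TEX_aux (a e X Y Z : A) (g : Z ⟶ X ⊗ Y)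
    (h : (β_ (a ⊗ e) (a ⊗ e)).hom ≫ tensorμ a e a e =
      tensorμ a e a e ≫ ((β_ a a).hom ⊗ₘ (β_ e e).hom)) :
    ((α_ (a ⊗ e) (a ⊗ e) Z).inv ≫ (β_ (a ⊗ e) (a ⊗ e)).hom ▷ Z ≫ (α_ (a ⊗ e) (a ⊗ e) Z).hom) ≫
      ((a ⊗ e) ◁ ((a ⊗ e) ◁ g ≫ tensorμ a e X Y) ≫ tensorμ a e (a ⊗ X) (e ⊗ Y)) =
    ((a ⊗ e) ◁ ((a ⊗ e) ◁ g ≫ tensorμ a e X Y) ≫ tensorμ a e (a ⊗ X) (e ⊗ Y)) ≫
      (((α_ a a X).inv ≫ (β_ a a).hom ▷ X ≫ (α_ a a X).hom) ⊗ₘ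
        ((α_ e e Y).inv ≫ (β_ e e).hom ▷ Y ≫ (α_ e e Y).hom)) := by
  have hR : (a ⊗ e) ◁ tensorμ a e X Y ≫ tensorμ a e (a ⊗ X) (e ⊗ Y) =
      (α_ (a ⊗ e) (a ⊗ e) (X ⊗ Y)).inv ≫ tensorμ a e a e ▷ (X ⊗ Y) ≫
        tensorμ (a ⊗ a) (e ⊗ e) X Y ≫ ((α_ a a X).hom ⊗ₘ (α_ e e Y).hom) := by
    rw [tensor_associativity, Iso.inv_hom_id_assoc]
  have h1 : (β_ (a ⊗ e) (a ⊗ e)).hom ▷ (X ⊗ Y) ≫ tensorμ a e a e ▷ (X ⊗ Y) ≫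
      tensorμ (a ⊗ a) (e ⊗ e) X Y =
      tensorμ a e a e ▷ (X ⊗ Y) ≫ tensorμ (a ⊗ a) (e ⊗ e) X Y ≫
        ((β_ a a).hom ▷ X ⊗ₘ (β_ e e).hom ▷ Y) := by
    rw [← comp_whiskerRight_assoc, h, comp_whiskerRight_assoc, tensorμ_natural_left]
  have h2 : ((α_ a a X).hom ⊗ₘ (α_ e e Y).hom) ≫
      (((α_ a a X).inv ≫ (β_ a a).hom ▷ X ≫ (α_ a a X).hom) ⊗ₘ
        ((α_ e e Y).inv ≫ (β_ e e).hom ▷ Y ≫ (α_ e e Y).hom)) =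
      ((β_ a a).hom ▷ X ⊗ₘ (β_ e e).hom ▷ Y) ≫ ((α_ a a X).hom ⊗ₘ (α_ e e Y).hom) := by
    rw [tensorHom_comp_tensorHom, tensorHom_comp_tensorHom, Iso.hom_inv_id_assoc,
      Iso.hom_inv_id_assoc]
  have hS : (a ⊗ e) ◁ ((a ⊗ e) ◁ g ≫ tensorμ a e X Y) ≫ tensorμ a e (a ⊗ X) (e ⊗ Y) =
      (a ⊗ e) ◁ ((a ⊗ e) ◁ g) ≫ (α_ (a ⊗ e) (a ⊗ e) (X ⊗ Y)).inv ≫ tensorμ a e a e ▷ (X ⊗ Y) ≫
        tensorμ (a ⊗ a) (e ⊗ e) X Y ≫ ((α_ a a X).hom ⊗ₘ (α_ e e Y).hom) := by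
    rw [MonoidalCategory.whiskerLeft_comp, Category.assoc, hR]
  rw [hS]
  have h3 := TEX_nat (T := a ⊗ e) (β_ (a ⊗ e) (a ⊗ e)).hom g
  calc _ = (((α_ (a ⊗ e) (a ⊗ e) Z).inv ≫ (β_ (a ⊗ e) (a ⊗ e)).hom ▷ Z ≫
        (α_ (a ⊗ e) (a ⊗ e) Z).hom) ≫ (a ⊗ e) ◁ ((a ⊗ e) ◁ g)) ≫
        (α_ (a ⊗ e) (a ⊗ e) (X ⊗ Y)).inv ≫ tensorμ a e a e ▷ (X ⊗ Y) ≫
        tensorμ (a ⊗ a) (e ⊗ e) X Y ≫ ((α_ a a X).hom ⊗ₘ (α_ e e Y).hom) := by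
        simp only [Category.assoc]
    _ = (a ⊗ e) ◁ ((a ⊗ e) ◁ g) ≫ (α_ (a ⊗ e) (a ⊗ e) (X ⊗ Y)).inv ≫
        ((β_ (a ⊗ e) (a ⊗ e)).hom ▷ (X ⊗ Y) ≫ tensorμ a e a e ▷ (X ⊗ Y) ≫
        tensorμ (a ⊗ a) (e ⊗ e) X Y) ≫ ((α_ a a X).hom ⊗ₘ (α_ e e Y).hom) := by
        rw [h3]
        simp only [Category.assoc, Iso.hom_inv_id_assoc]
    _ = (a ⊗ e) ◁ ((a ⊗ e) ◁ g) ≫ (α_ (a ⊗ e) (a ⊗ e) (X ⊗ Y)).inv ≫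
        tensorμ a e a e ▷ (X ⊗ Y) ≫ tensorμ (a ⊗ a) (e ⊗ e) X Y ≫
        (((β_ a a).hom ▷ X ⊗ₘ (β_ e e).hom ▷ Y) ≫ ((α_ a a X).hom ⊗ₘ (α_ e e Y).hom)) := by
        rw [h1]
        simp only [Category.assoc]
    _ = _ := by
        rw [← h2]
        simp only [Category.assoc]

end

section

variable (A : Type u) [Category.{v} A] [MonoidalCategory A] [SymmetricCategory A]
  [Preadditive A] [MonoidalPreadditive A] [Linear ℚ A] [MonoidalLinear ℚ A]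

theorem i_TEX (hTMB : Stmt_TMB A) : Stmt_TEX A := fun a e n =>
  TEX_aux a e (tpow a n) (tpow e n) (tpow (a ⊗ e) n) (tau a e n).hom (hTMB a e)

end

end Pool.VAS
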