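import Pool.Agent.Work.MP_292d0f_iso.Interface

/-! Block TMB: the exchange of the factors `a ⊗ e`. -/

open CategoryTheory MonoidalCategory
open Pool.Agent.Work.MP_c42eb9_num.Defs Pool.Agent.Work.MP_c42eb9_num

namespace Pool.VAS

universe v u w

section

variable (A : Type u) [Category.{v} A] [MonoidalCategory A] [SymmetricCategory A]
  [Preadditive A] [MonoidalPreadditive A] [Linear ℚ A] [MonoidalLinear ℚ A]

theorem TMB_del {B : Type u} [Category.{v} B] [MonoidalCategory B] [SymmetricCategory B]
    (a e : B) : tensorμ a a e e = tensorδ a e a e := by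
  dsimp only [tensorμ, tensorδ]
  rw [SymmetricCategory.braiding_swap_eq_inv_braiding e a]

theorem TMB_aux {B : Type u} [Category.{v} B] [MonoidalCategory B] [SymmetricCategory B]
    (a e : B) : (β_ (a ⊗ e) (a ⊗ e)).hom ≫ tensorμ a e a e =
      tensorμ a e a e ≫ ((β_ a a).hom ⊗ₘ (β_ e e).hom) := by
  have h := SymmetricCategory.tensorμ_braid_swap a e
  rw [TMB_del] at h
  have h2 := congrArg (fun f => tensorμ a e a e ≫ f ≫ tensorμ a e a e) h
  simp only [Category.assoc, tensorμ_tensorδ_assoc, tensorδ_tensorμ, Category.comp_id] at h2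
  exact h2

theorem i_TMB : Stmt_TMB A := fun a e => TMB_aux a e

end

end Pool.VAS
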