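import Pool.Agent.Work.MP_292d0f_iso.Interface

/-!
# Block TRA: extension of the coefficients
-/

open CategoryTheory MonoidalCategory
open Pool.Agent.Work.MP_c42eb9_num.Defs Pool.Agent.Work.MP_c42eb9_num

namespace Pool.VAS

universe v u w v' u' w'

section

variable (V : Type w) (A : Type u) [Category.{v} A] [MonoidalCategory A] [SymmetricCategory A]
  [Preadditive A] [MonoidalPreadditive A] [Linear ℚ A] [MonoidalLinear ℚ A]
  (M : ChowMotives V A)
  (V' : Type w') (A' : Type u') [Category.{v'} A'] [MonoidalCategory A']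
  [SymmetricCategory A'] [Preadditive A'] [MonoidalPreadditive A'] [Linear ℚ A']
  [MonoidalLinear ℚ A'] (M' : ChowMotives V' A')

omit [MonoidalLinear ℚ A] [MonoidalLinear ℚ A'] in
theorem i_TRA : Stmt_TRA V A M V' A' M' := by
  intro D t n l h z
  have _ := D.braided
  have _ := D.additive
  have _ := D.faithful
  have e1 : tpowMap D.isoL.hom l ≫ tpowMap D.isoL.inv l = 𝟙 (tpow (D.F.obj M.L) l) := by
    rw [← tpowMap_comp, Iso.hom_inv_id, tpowMap_id]
  have h1 := h (tpowMap D.isoL.inv l ≫ (cmp D.F M.L l).hom ≫ D.F.map z ≫ (cmp D.F t n).inv)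
  have h2 : (cmp D.F t n).inv ≫ alt (D.F.obj t) n = D.F.map (alt t n) ≫ (cmp D.F t n).inv := by
    rw [Iso.inv_comp_eq, ← Category.assoc, Iso.eq_comp_inv]
    exact map_alt D.F t n
  have h3 : tpowMap D.isoL.inv l ≫ (cmp D.F M.L l).hom ≫ D.F.map (z ≫ alt t n) ≫
      (cmp D.F t n).inv = 0 := by
    rw [← h1, Functor.map_comp]
    simp only [Category.assoc]
    rw [h2]
  have h4 : D.F.map (z ≫ alt t n) = (cmp D.F M.L l).inv ≫ tpowMap D.isoL.hom l ≫
      (tpowMap D.isoL.inv l ≫ (cmp D.F M.L l).hom ≫ D.F.map (z ≫ alt t n) ≫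
      (cmp D.F t n).inv) ≫ (cmp D.F t n).hom := by
    simp only [Category.assoc, Iso.inv_hom_id, Category.comp_id]
    rw [← Category.assoc (tpowMap D.isoL.hom l), e1, Category.id_comp, Iso.inv_hom_id_assoc]
  apply D.F.map_injective
  rw [h4, h3, Functor.map_zero]
  simp

end

end Pool.VAS
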