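import Pool.Agent.Work.MP_292d0f_iso.Interface

/-!
# K3 surfaces with half twists: block VAN
-/

open CategoryTheory MonoidalCategory
open Pool.Agent.Work.MP_c42eb9_num.Defs Pool.Agent.Work.MP_c42eb9_num

namespace Pool.VAS

universe v u w

variable {V : Type w} {A : Type u} [Category.{v} A] [MonoidalCategory A] [SymmetricCategory A]
  [Preadditive A] [MonoidalPreadditive A] [Linear ℚ A] [MonoidalLinear ℚ A]
  {M : ChowMotives V A} {R : RatConn M}

/-- The cycles of dimension less than `N` on the `(N + 1)`-st power are not antisymmetric. -/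
theorem i_VAN (hWFA : Stmt_WFA V A M R) (hEX2 : Stmt_EX2 A) : Stmt_VAN V A M R := by
  intro t T N h1 h2 l hl z
  have hE := hEX2 t (T.ix ≫ T.rx) (T.iy ≫ T.ry) T.sum (N + 1)
  have key : ∀ g ∈ Submodule.span ℚ {g : tpow t (N + 1) ⟶ tpow t (N + 1) | ∃ i, i ≤ N + 1 ∧
      g = alt t (N + 1) ≫ wrd (T.ix ≫ T.rx) (T.iy ≫ T.ry) i (N + 1) ≫ alt t (N + 1)},
      z ≫ g = 0 := by
    intro g hg
    induction hg using Submodule.span_induction with
    | mem g hg =>
      obtain ⟨i, hi, rfl⟩ := hg
      have h3 := (hWFA t T N h1 h2 i hi).kill hl (z ≫ alt t (N + 1))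
      rw [← h3, Category.assoc]
    | zero => exact Limits.comp_zero
    | add x y _ _ hx hy => rw [Preadditive.comp_add, hx, hy, add_zero]
    | smul c x _ hx => rw [Linear.comp_smul, hx, smul_zero]
  exact key _ hE

end Pool.VAS
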