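import Pool.Agent.Work.MP_292d0f_iso.Interface

open CategoryTheory MonoidalCategory
open Pool.Agent.Work.MP_c42eb9_num.Defs Pool.Agent.Work.MP_c42eb9_num

namespace Pool.VAS

universe v u w

section

theorem WFA_absorb {A : Type u} [Category.{v} A] [MonoidalCategory A] {T X Y : A}
    (ad : T ≅ X ⊗ Y) (a : X ⟶ X) (b : Y ⟶ Y) (c : T ⟶ T)
    (h1 : (ad.hom ≫ (a ▷ Y) ≫ ad.inv) ≫ c = c) (h2 : (ad.hom ≫ (X ◁ b) ≫ ad.inv) ≫ c = c)
    (p : X ⟶ X) (q : Y ⟶ Y) :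
    (ad.hom ≫ (p ⊗ₘ q) ≫ ad.inv) ≫ c = ad.hom ≫ ((p ≫ a) ⊗ₘ (q ≫ b)) ≫ ad.inv ≫ c := by
  have e1 : ad.inv ≫ c = (a ▷ Y) ≫ ad.inv ≫ c := by
    conv_lhs => rw [← h1]
    simp only [Category.assoc, Iso.inv_hom_id_assoc]
  have e2 : ad.inv ≫ c = (X ◁ b) ≫ ad.inv ≫ c := by
    conv_lhs => rw [← h2]
    simp only [Category.assoc, Iso.inv_hom_id_assoc]
  have e3 : ad.inv ≫ c = (a ⊗ₘ b) ≫ ad.inv ≫ c := by
    rw [MonoidalCategory.tensorHom_def, Category.assoc, ← e2, ← e1]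
  calc (ad.hom ≫ (p ⊗ₘ q) ≫ ad.inv) ≫ c = ad.hom ≫ (p ⊗ₘ q) ≫ (ad.inv ≫ c) := by
        simp only [Category.assoc]
    _ = ad.hom ≫ (p ⊗ₘ q) ≫ ((a ⊗ₘ b) ≫ ad.inv ≫ c) := by rw [← e3]
    _ = ad.hom ≫ ((p ≫ a) ⊗ₘ (q ≫ b)) ≫ ad.inv ≫ c := by
        rw [← MonoidalCategory.tensorHom_comp_tensorHom]
        simp only [Category.assoc]

end

section

variable (V : Type w) (A : Type u) [Category.{v} A] [MonoidalCategory A] [SymmetricCategory A]
  [Preadditive A] [MonoidalPreadditive A] [Linear ℚ A] [MonoidalLinear ℚ A]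
  (M : ChowMotives V A) (R : RatConn M)

theorem WFA_right {V : Type w} {A : Type u} [Category.{v} A] [MonoidalCategory A]
    [SymmetricCategory A] [Preadditive A] [Linear ℚ A] {M : ChowMotives V A} {N : ℕ} {X Y : A}
    (g : X ⟶ Y) (h : Fac M N g) : Fac M N (𝟙 (𝟙_ A) ⊗ₘ g) := by
  have h1 := h.comp (λ_ X).hom (λ_ Y).inv
  rw [leftUnitor_inv_naturality, Iso.hom_inv_id_assoc] at h1
  rw [id_tensorHom]
  exact h1

theorem WFA_left {V : Type w} {A : Type u} [Category.{v} A] [MonoidalCategory A]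
    [SymmetricCategory A] [Preadditive A] [Linear ℚ A] {M : ChowMotives V A} {N : ℕ} {X Y : A}
    (g : X ⟶ Y) (h : Fac M N g) : Fac M N (g ⊗ₘ 𝟙 (𝟙_ A)) := by
  have h1 := h.comp (ρ_ X).hom (ρ_ Y).inv
  rw [rightUnitor_inv_naturality, Iso.hom_inv_id_assoc] at h1
  rw [tensorHom_id]
  exact h1

theorem WFA_fac {A : Type u} [Category.{v} A] [MonoidalCategory A]
    [SymmetricCategory A] [Preadditive A] [MonoidalPreadditive A] [Linear ℚ A]
    [MonoidalLinear ℚ A] {t x : A} (ι : t ⟶ x) (r : x ⟶ t) (n : ℕ) :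
    tpowMap (ι ≫ r) n ≫ alt t n = tpowMap ι n ≫ alt x n ≫ tpowMap r n := by
  rw [alt_nat, tpowMap_comp, Category.assoc]

theorem i_WFA (hWWE : Stmt_WWE.{v, u} A) (hABL : Stmt_ABL.{v, u} A) (hABR : Stmt_ABR.{v, u} A)
    (hMXE : Stmt_MXE V A M) (hFEF : Stmt_FEF V A M) : Stmt_WFA V A M R := by
  intro t T N h1 h2 i hi
  obtain ⟨P, hP⟩ : ∃ P : t ⟶ t, P = T.ix ≫ T.rx := ⟨_, rfl⟩
  obtain ⟨Q, hQ⟩ : ∃ Q : t ⟶ t, Q = T.iy ≫ T.ry := ⟨_, rfl⟩
  rw [← hP, ← hQ]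
  have key : ∀ i j m : ℕ, m = j + i → m = N + 1 → Fac M N (wrd P Q i m ≫ alt t m) := by
    intro i j m hm hN
    subst hm
    rw [hWWE t P Q i j, WFA_absorb (ad t j i) (alt t i) (alt t j) (alt t (j + i)) (hABL t j i)
      (hABR t j i) (tpowMap P i) (tpowMap Q j)]
    have hPi : tpowMap P i ≫ alt t i = tpowMap T.ix i ≫ alt (T.p.a ⊗ T.p.e) i ≫ tpowMap T.rx i := by
      rw [hP, WFA_fac]
    have hQj : tpowMap Q j ≫ alt t j = tpowMap T.iy j ≫ alt (T.q.a ⊗ T.q.e) j ≫ tpowMap T.ry j := by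
      rw [hQ, WFA_fac]
    have hmid : Fac M N ((tpowMap P i ≫ alt t i) ⊗ₘ (tpowMap Q j ≫ alt t j)) := by
      rcases i with _ | i'
      · rcases j with _ | j'
        · omega
        · have hj : j' = N := by omega
          subst hj
          have h3 : Fac M j' (tpowMap Q (j' + 1) ≫ alt t (j' + 1)) := by
            rw [hQj]
            exact hFEF T.q.e T.q.E T.q.eE T.q.Ee T.q.eE_Ee j' _ _ _ ((h2 j' le_rfl).comp _ _)
          have h4 : tpowMap P 0 ≫ alt t 0 = 𝟙 (𝟙_ A) := Category.comp_id _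
          rw [h4]
          exact WFA_right _ h3
      · rcases j with _ | j'
        · have hj : i' = N := by omega
          subst hj
          have h3 : Fac M i' (tpowMap P (i' + 1) ≫ alt t (i' + 1)) := by
            rw [hPi]
            exact hFEF T.p.e T.p.E T.p.eE T.p.Ee T.p.eE_Ee i' _ _ _ ((h1 i' le_rfl).comp _ _)
          have h4 : tpowMap Q 0 ≫ alt t 0 = 𝟙 (𝟙_ A) := Category.comp_id _
          rw [h4]
          exact WFA_left _ h3
        · have hN' : N = i' + j' + 1 := by omega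
          rw [hN', hPi, hQj]
          exact hMXE T.p.e T.q.e T.pair i' j' _ _ _ _ _ _ ((h1 i' (by omega)).comp _ _)
            ((h2 j' (by omega)).comp _ _)
    exact hmid.comp _ _
  obtain ⟨j, hj⟩ : ∃ j, N + 1 = j + i := ⟨N + 1 - i, by omega⟩
  exact key i j (N + 1) hj rfl

end

end Pool.VAS
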