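import Pool.Agent.Work.MP_292d0f_iso.Interface2

open CategoryTheory MonoidalCategory
open Pool.Agent.Work.MP_c42eb9_num.Defs Pool.Agent.Work.MP_c42eb9_num

namespace Pool.VAS

universe v u w

section

theorem WFG_absorb {A : Type u} [Category.{v} A] [MonoidalCategory A] {T X Y : A}
    (ad : T ≅ X ⊗ Y) (a : X ⟶ X) (b : Y ⟶ Y) (c : T ⟶ T)
    (h1 : (ad.hom ≫ (a ▷ Y) ≫ ad.inv) ≫ c = c) (h2 : (ad.hom ≫ (X ◁ b) ≫ ad.inv) ≫ c = c)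
    (p : X ⟶ X) (q : Y ⟶ Y) :
    (ad.hom ≫ (p ⊗ₘ q) ≫ ad.inv) ≫ c = ad.hom ≫ ((p ≫ a) ⊗ₘ (q ≫ b)) ≫ ad.inv ≫ c := by
  have e1 : ad.inv ≫ c = (a ▷ Y) ≫ ad.inv ≫ c := by
    conv_lhs => rw [← h1]
    simp only [Category.assoc, Iso.inv_hom_id_assoc]
  have e2 : ad.inv ≫ c = (X ◁ b) ≫ ad.inv ≫ c := by
    conv_lhs => rw [← h2]
    simp only [Category.assoc, Iso.inv_hom_id_assoc]
  have e3 : ad.inv ≫ c = (a ⊗ₘ b) ≫ ad.inv ≫ c := by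
    rw [MonoidalCategory.tensorHom_def, Category.assoc, ← e2, ← e1]
  calc (ad.hom ≫ (p ⊗ₘ q) ≫ ad.inv) ≫ c = ad.hom ≫ (p ⊗ₘ q) ≫ (ad.inv ≫ c) := by
        simp only [Category.assoc]
    _ = ad.hom ≫ (p ⊗ₘ q) ≫ ((a ⊗ₘ b) ≫ ad.inv ≫ c) := by rw [← e3]
    _ = ad.hom ≫ ((p ≫ a) ⊗ₘ (q ≫ b)) ≫ ad.inv ≫ c := by
        rw [← MonoidalCategory.tensorHom_comp_tensorHom]
        simp only [Category.assoc]

end

section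

variable (V : Type w) (A : Type u) [Category.{v} A] [MonoidalCategory A] [SymmetricCategory A]
  [Preadditive A] [MonoidalPreadditive A] [Linear ℚ A] [MonoidalLinear ℚ A]
  (M : ChowMotives V A) (R : RatConn M)

theorem WFG_fac {A : Type u} [Category.{v} A] [MonoidalCategory A]
    [SymmetricCategory A] [Preadditive A] [MonoidalPreadditive A] [Linear ℚ A]
    [MonoidalLinear ℚ A] {t x : A} (ι : t ⟶ x) (r : x ⟶ t) (n : ℕ) :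
    tpowMap (ι ≫ r) n ≫ alt t n = tpowMap ι n ≫ alt x n ≫ tpowMap r n := by
  rw [alt_nat, tpowMap_comp, Category.assoc]

theorem WFG_mid {A : Type u} [Category.{v} A] [MonoidalCategory A] {X Y X' Y' : A}
    (a : X ⟶ X') (b : X' ⟶ X') (c : X' ⟶ X) (a' : Y ⟶ Y') (b' : Y' ⟶ Y') (c' : Y' ⟶ Y) :
    ((a ≫ b ≫ c) ⊗ₘ (a' ≫ b' ≫ c')) = (a ⊗ₘ a') ≫ (b ⊗ₘ b') ≫ (c ⊗ₘ c') := by
  rw [MonoidalCategory.tensorHom_comp_tensorHom, MonoidalCategory.tensorHom_comp_tensorHom]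

theorem i_WFG (hWWE : Stmt_WWE.{v, u} A) (hABL : Stmt_ABL.{v, u} A)
    (hABR : Stmt_ABR.{v, u} A) : Stmt_WFG V A M R := by
  intro t T N c h i hi
  obtain ⟨P, hP⟩ : ∃ P : t ⟶ t, P = T.ix ≫ T.rx := ⟨_, rfl⟩
  obtain ⟨Q, hQ⟩ : ∃ Q : t ⟶ t, Q = T.iy ≫ T.ry := ⟨_, rfl⟩
  rw [← hP, ← hQ]
  obtain ⟨j, hj⟩ : ∃ j, N = j + i := ⟨N - i, by omega⟩
  subst hj
  have hPi : tpowMap P i ≫ alt t i = tpowMap T.ix i ≫ alt (T.p.a ⊗ T.p.e) i ≫ tpowMap T.rx i := by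
    rw [hP, WFG_fac]
  have hQj : tpowMap Q j ≫ alt t j = tpowMap T.iy j ≫ alt (T.q.a ⊗ T.q.e) j ≫ tpowMap T.ry j := by
    rw [hQ, WFG_fac]
  obtain ⟨c', hc', h1⟩ := h i j rfl
  refine ⟨c', hc', ?_⟩
  rw [hWWE t P Q i j, WFG_absorb (ad t j i) (alt t i) (alt t j) (alt t (j + i)) (hABL t j i)
    (hABR t j i) (tpowMap P i) (tpowMap Q j), hPi, hQj, WFG_mid]
  exact (h1.comp _ _).comp _ _

end

end Pool.VAS
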