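import Pool.Agent.Work.MP_292d0f_iso.Interface2

/-! # Block WMX: mixed products (helper40) -/

open CategoryTheory MonoidalCategory
open Pool.Agent.Work.MP_c42eb9_num.Defs Pool.Agent.Work.MP_c42eb9_num

namespace Pool.VAS

universe v u w

section

variable {A : Type u} [Category.{v} A] [MonoidalCategory A] [SymmetricCategory A]

/-- reordering of the factors -/
def WMX_sw (X I W : A) : X ⊗ (I ⊗ W) ≅ (X ⊗ W) ⊗ I :=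
  whiskerLeftIso X (β_ I W) ≪≫ (α_ X W I).symm

theorem WMX_sw_nat (X I W : A) (σ : X ⟶ X) :
    σ ▷ (I ⊗ W) ≫ (WMX_sw X I W).hom = (WMX_sw X I W).hom ≫ (σ ▷ W) ▷ I := by
  show σ ▷ (I ⊗ W) ≫ X ◁ (β_ I W).hom ≫ (α_ X W I).inv =
    (X ◁ (β_ I W).hom ≫ (α_ X W I).inv) ≫ (σ ▷ W) ▷ I
  rw [← whisker_exchange_assoc, associator_inv_naturality_left, Category.assoc]

theorem WMX_half {T X P I W : A} (α : T ⟶ T) (σ : X ⟶ X) (τ : T ≅ X ⊗ P) (d : P ≅ I ⊗ W)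
    (h : α ≫ τ.hom = τ.hom ≫ σ ▷ P) :
    α ≫ (τ ≪≫ whiskerLeftIso X d ≪≫ WMX_sw X I W).hom =
      (τ ≪≫ whiskerLeftIso X d ≪≫ WMX_sw X I W).hom ≫ (σ ▷ W) ▷ I := by
  show α ≫ τ.hom ≫ X ◁ d.hom ≫ (WMX_sw X I W).hom =
    (τ.hom ≫ X ◁ d.hom ≫ (WMX_sw X I W).hom) ≫ (σ ▷ W) ▷ I
  rw [← Category.assoc, h, Category.assoc, ← whisker_exchange_assoc, WMX_sw_nat, Category.assoc,
    Category.assoc]

theorem WMX_mu {X X' I I' : A} (f : X ⟶ X) (g : X' ⟶ X') :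
    ((f ▷ I) ⊗ₘ (g ▷ I')) ≫ tensorμ X I X' I' =
      tensorμ X I X' I' ≫ ((f ⊗ₘ g) ⊗ₘ 𝟙 (I ⊗ I')) := by
  have h := tensorμ_natural f (𝟙 I) g (𝟙 I')
  simpa only [tensorHom_id, id_whiskerRight] using h

end

section

variable {V : Type w} {A : Type u} [Category.{v} A] [MonoidalCategory A] [SymmetricCategory A]
  [Preadditive A] [MonoidalPreadditive A] [Linear ℚ A] [MonoidalLinear ℚ A]
  {M : ChowMotives V A} {R : RatConn M}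

omit [MonoidalPreadditive A] [MonoidalLinear ℚ A] in
theorem WMX_main (hFTN : Stmt_FTN V A M) {T T' X X' I I' : A} {c c' i : ℕ} (α : T ⟶ T)
    (α' : T' ⟶ T') (f : X ⟶ X) (g : X' ⟶ X') (φ : T ≅ X ⊗ I) (φ' : T' ≅ X' ⊗ I')
    (h : α ≫ φ.hom = φ.hom ≫ f ▷ I) (h' : α' ≫ φ'.hom = φ'.hom ≫ g ▷ I')
    (h1 : Fac M c f) (h2 : Fac M c' g) (h3 : Fac M i (𝟙 (I ⊗ I'))) :
    Fac M (c + c' + i) (α ⊗ₘ α') := by
  have h4 := hFTN (c + c') i _ _ _ _ _ _ (hFTN c c' _ _ _ _ _ _ h1 h2) h3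
  refine h4.conj ((φ ⊗ᵢ φ') ≪≫ muIso X I X' I') ((φ ⊗ᵢ φ') ≪≫ muIso X I X' I') ?_
  show (α ⊗ₘ α') ≫ (φ.hom ⊗ₘ φ'.hom) ≫ tensorμ X I X' I' =
    ((φ.hom ⊗ₘ φ'.hom) ≫ tensorμ X I X' I') ≫ ((f ⊗ₘ g) ⊗ₘ 𝟙 (I ⊗ I'))
  rw [← Category.assoc, MonoidalCategory.tensorHom_comp_tensorHom, h, h',
    ← MonoidalCategory.tensorHom_comp_tensorHom, Category.assoc, Category.assoc, WMX_mu]

theorem i_WMX (hALS : Stmt_ALS.{v, u} A) (hFTN : Stmt_FTN V A M) (hFLN : Stmt_FLN V A M) :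
    Stmt_WMX V A M R := by
  intro p q pr s s' i c c' hp hq
  have h1 := WMX_half (alt (p.a ⊗ p.e) (s + i)) (symm p.a (s + i)) (tau p.a p.e (s + i))
    (ad p.e s i) (hALS p.a p.e p.odd (s + i))
  have h2 := WMX_half (alt (q.a ⊗ q.e) (s' + i)) (symm q.a (s' + i)) (tau q.a q.e (s' + i))
    (ad q.e s' i) (hALS q.a q.e q.odd (s' + i))
  have h3 : Fac M i (𝟙 (tpow p.e i ⊗ tpow q.e i)) := hFLN q.e p.e (β_ q.e p.e ≪≫ pr) i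
  exact WMX_main hFTN _ _ _ _ _ _ h1 h2 hp hq h3

end

end Pool.VAS
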