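import Pool.Agent.Work.MP_292d0f_iso.Interface

open CategoryTheory MonoidalCategory
open Pool.Agent.Work.MP_c42eb9_num.Defs Pool.Agent.Work.MP_c42eb9_num

namespace Pool.VAS

universe v u

section

variable {A : Type u} [Category.{v} A] [MonoidalCategory A]

theorem WWE_zero {t : A} (P Q : t ⟶ t) : ∀ n : ℕ, wrd P Q 0 n = tpowMap Q n
  | 0 => rfl
  | n + 1 => by
    show Q ⊗ₘ wrd P Q 0 n = Q ⊗ₘ tpowMap Q n
    rw [WWE_zero P Q n]

theorem WWE_unit {X : A} (g : X ⟶ X) :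
    g = (λ_ X).symm.hom ≫ (𝟙 (𝟙_ A) ⊗ₘ g) ≫ (λ_ X).symm.inv := by
  rw [Iso.symm_hom, Iso.symm_inv, id_tensorHom, leftUnitor_naturality, Iso.inv_hom_id_assoc]

theorem WWE_step {X Y Z W : A} (e : W ≅ Y ⊗ Z) (P : X ⟶ X) (f : Y ⟶ Y) (g : Z ⟶ Z)
    (w : W ⟶ W) (h : w = e.hom ≫ (f ⊗ₘ g) ≫ e.inv) :
    P ⊗ₘ w = (whiskerLeftIso X e ≪≫ (α_ X Y Z).symm).hom ≫ ((P ⊗ₘ f) ⊗ₘ g) ≫
      (whiskerLeftIso X e ≪≫ (α_ X Y Z).symm).inv := by
  subst h
  simp only [Iso.trans_hom, Iso.trans_inv, Iso.symm_hom, Iso.symm_inv, whiskerLeftIso_hom,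
    whiskerLeftIso_inv, Category.assoc]
  rw [associator_naturality_assoc, Iso.inv_hom_id_assoc, ← id_tensorHom, ← id_tensorHom,
    tensorHom_comp_tensorHom, tensorHom_comp_tensorHom, Category.comp_id, Category.id_comp]

end

theorem i_WWE (A : Type u) [Category.{v} A] [MonoidalCategory A] [SymmetricCategory A]
    [Preadditive A] [MonoidalPreadditive A] [Linear ℚ A] [MonoidalLinear ℚ A] : Stmt_WWE A := by
  intro t P Q i j
  induction i with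
  | zero =>
    show wrd P Q 0 j = (λ_ (tpow t j)).symm.hom ≫ (𝟙 (𝟙_ A) ⊗ₘ tpowMap Q j) ≫
      (λ_ (tpow t j)).symm.inv
    rw [WWE_zero P Q j]
    exact WWE_unit (tpowMap Q j)
  | succ i ih =>
    exact WWE_step (ad t j i) P (tpowMap P i) (tpowMap Q j) (wrd P Q i (j + i)) ih

end Pool.VAS
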