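import Pool.Agent.Work.MP_292d0f_va.Defs

/-!
# Voisin's anti-symmetrization conjecture for K3 surfaces with half twists: definitions

`M : ChowMotives V A` are the covariant Chow motives over `ℂ` with rational coefficients, and
`M' : ChowMotives V' A'` the same with coefficients in `k = ℚ(√-1)` or `k = ℚ(√-3)`. `S` is a K3
surface such as `y² = x³ + p₁₂(t)` (`d = 6`) or `y² = x³ + p₈(t) x` (`d = 4`): it is birational to
`(C × E) / μ_d`, where `C : s ^ d = p(t)` and `E` is an elliptic curve with complex multiplication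
by `k`.
-/

open CategoryTheory MonoidalCategory
open Pool.Agent.Work.MP_c42eb9_num.Defs

namespace Pool.VAS

universe v u w v' u' w'

section

variable {V : Type w} {A : Type u} [Category.{v} A] [MonoidalCategory A] [SymmetricCategory A]
  [Preadditive A] [Linear ℚ A]

/-- Zero-cycles on rationally connected varieties: those of degree zero vanish. -/
structure RatConn (M : ChowMotives V A) where
  /-- The (connected) smooth projective variety is rationally connected. -/
  RC : V → Prop
  /-- The degree. -/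
  deg : ∀ X : V, RC X → (M.h X ⟶ 𝟙_ A)
  zero : ∀ (X : V) (hX : RC X) (z : 𝟙_ A ⟶ M.h X), z ≫ deg X hX = 0 → z = 0

/-- `a` is the part of `h₁ (C)` with character `χ` (or a direct summand of it) and `e` the part of
`h₁ (E)` with the conjugate character. `X` is a resolution of the threefold `y² = x³ + ∏ ℓ_j(u) ^ a_j` (or
`y² = x³ + ∏ ℓ_j(u) ^ a_j x`) of degree 12 in `ℙ(1,1,1,4,6)`, where the lines `ℓ_j` are tangent to a
conic: the threefold is a Fano variety with canonical singularities, so `X` is rationally connected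
(Zhang, Hacon-McKernan), and it is birational to the quotient of `C × C × E` by
`{(z₁, z₂, z₃) | z₁ z₂ = z₃} ⋊ S₂`. -/
structure HalfPiece (M : ChowMotives V A) (R : RatConn M) where
  a : A
  e : A
  /-- The curve `C`; `a` is a direct summand of its motive. -/
  C : V
  aC : a ⟶ M.h C
  Ca : M.h C ⟶ a
  aC_Ca : aC ≫ Ca = 𝟙 a
  /-- The elliptic curve `E`; `e` is a direct summand of its motive. -/
  E : V
  eE : e ⟶ M.h E
  Ee : M.h E ⟶ e
  eE_Ee : eE ≫ Ee = 𝟙 e
  /-- `e` is odd of dimension one: `Sym² e = 0`. -/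
  odd : (β_ e e).hom = -𝟙 (e ⊗ e)
  /-- The threefold. -/
  X : V
  rc : R.RC X
  /-- `Sym² a ⊗ e` is a direct summand of the motive of `X`; its cycles have degree zero. -/
  u : tpow a 2 ⊗ e ⟶ M.h X
  v : M.h X ⟶ tpow a 2 ⊗ e
  u_v : u ≫ v = symm a 2 ▷ e
  u_deg : u ≫ R.deg X rc = 0

/-- The motive `t` is a direct summand of `(a ⊗ e) ⊕ (b ⊗ f)`, where `p = (a, e)` and `q = (b, f)`
are the parts of `h₁ (C)` and `h₁ (E)` with the two conjugate characters; `e ⊗ f = L`. -/
structure HalfTwist (M : ChowMotives V A) (R : RatConn M) (t : A) where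
  p : HalfPiece M R
  q : HalfPiece M R
  pair : p.e ⊗ q.e ≅ M.L
  ix : t ⟶ p.a ⊗ p.e
  rx : p.a ⊗ p.e ⟶ t
  iy : t ⟶ q.a ⊗ q.e
  ry : q.a ⊗ q.e ⟶ t
  sum : ix ≫ rx + iy ≫ ry = 𝟙 t

/-- `a` has dimension `n + 2` (it is odd: the symmetric powers of the motive are the exterior
powers of its cohomology) and its determinant `Sym^(n+2) a` is `L ⊗ f ^ n`, as both are Fermat
motives (Schoen; the Hodge conjecture for Fermat varieties of degree 4 and 6 is due to Shioda).
So, by the duality of finite-dimensional motives (Kimura), `Sym^k a ⊗ L^j ≅ Sym^j b ⊗ L ⊗ f ^ n`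
for `j + k = n + 2`. -/
structure HalfPiece.Dim {M : ChowMotives V A} {R : RatConn M} (p q : HalfPiece M R) (n : ℕ) :
    Prop where
  top : symm p.a (n + 3) = 0
  dual : ∀ j k : ℕ, j + k = n + 2 →
    ∃ (u : tpow p.a k ⊗ tpow M.L j ⟶ tpow q.a j ⊗ (M.L ⊗ tpow q.e n))
      (v : tpow q.a j ⊗ (M.L ⊗ tpow q.e n) ⟶ tpow p.a k ⊗ tpow M.L j),
      u ≫ symm q.a j ▷ (M.L ⊗ tpow q.e n) ≫ v = symm p.a k ▷ tpow M.L j

/-- Both pieces have dimension `n + 2`. For the transcendental motive `t` of a K3 surface with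
Picard number `ρ` this is `22 - ρ = 2 (n + 2)`. -/
def HalfTwist.Dim {M : ChowMotives V A} {R : RatConn M} {t : A} (T : HalfTwist M R t) (n : ℕ) :
    Prop :=
  T.p.Dim T.q n ∧ T.q.Dim T.p n

/-- Zero-cycles of degree zero on the K3 surface commute: `w × w' = w' × w` in
`CH_0 (S × S)` (a conjecture of Voisin, 1996). -/
def K3Motive.Commute {M : ChowMotives V A} (K : K3Motive M) : Prop :=
  ∀ w w' : 𝟙_ A ⟶ M.h K.S, w ≫ K.deg = 0 → w' ≫ K.deg = 0 → (w ⊗ₘ w') = (w' ⊗ₘ w)

end

/-- The extension of the coefficients of the Chow motives, from `ℚ` to `k`. -/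
structure Coefficients {V : Type w} {A : Type u} [Category.{v} A] [MonoidalCategory A]
    [SymmetricCategory A] [Preadditive A] [Linear ℚ A] (M : ChowMotives V A)
    {V' : Type w'} {A' : Type u'} [Category.{v'} A'] [MonoidalCategory A']
    [SymmetricCategory A'] [Preadditive A'] [Linear ℚ A'] (M' : ChowMotives V' A') where
  F : A ⥤ A'
  braided : F.Braided
  additive : F.Additive
  faithful : F.Faithful
  isoL : F.obj M.L ≅ M'.L

end Pool.VAS
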