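import Pool.Agent.Work.MP_292d0f_va.Final
import Pool.Agent.Work.MP_292d0f_sp.Map
import Pool.Agent.Work.MP_292d0f_iso.Defs

/-!
# K3 surfaces with half twists: basic definitions for the proof
-/

open CategoryTheory MonoidalCategory
open Pool.Agent.Work.MP_c42eb9_num.Defs Pool.Agent.Work.MP_c42eb9_num

namespace Pool.VAS

universe v u w

section

variable {A : Type u} [Category.{v} A] [MonoidalCategory A]

/-- `P ⊗ ⋯ ⊗ P ⊗ Q ⊗ ⋯ ⊗ Q` with `min i n` factors `P` and `n` factors in all. -/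
def wrd {t : A} (P Q : t ⟶ t) : ℕ → (n : ℕ) → (tpow t n ⟶ tpow t n)
  | _, 0 => 𝟙 _
  | 0, n + 1 => Q ⊗ₘ wrd P Q 0 n
  | i + 1, n + 1 => P ⊗ₘ wrd P Q i n

/-- The first `i` factors and the last `j` factors. -/
def ad (N : A) (j : ℕ) : ∀ i : ℕ, tpow N (j + i) ≅ tpow N i ⊗ tpow N j
  | 0 => (λ_ (tpow N j)).symm
  | i + 1 => whiskerLeftIso N (ad N j i) ≪≫ (α_ N (tpow N i) (tpow N j)).symm

variable [SymmetricCategory A]

/-- The exchange of the middle factors. -/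
def muIso (X₁ X₂ Y₁ Y₂ : A) : (X₁ ⊗ X₂) ⊗ (Y₁ ⊗ Y₂) ≅ (X₁ ⊗ Y₁) ⊗ (X₂ ⊗ Y₂) where
  hom := tensorμ X₁ X₂ Y₁ Y₂
  inv := tensorδ X₁ X₂ Y₁ Y₂

/-- Reordering the factors of `(a ⊗ e) ⊗ ⋯ ⊗ (a ⊗ e)`. -/
def tau (a e : A) : ∀ n : ℕ, tpow (a ⊗ e) n ≅ tpow a n ⊗ tpow e n
  | 0 => (λ_ (𝟙_ A)).symm
  | n + 1 => whiskerLeftIso (a ⊗ e) (tau a e n) ≪≫ muIso a e (tpow a n) (tpow e n)

end

section

variable {V : Type w} {A : Type u} [Category.{v} A] [MonoidalCategory A] [SymmetricCategory A]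
  [Preadditive A] [Linear ℚ A] (M : ChowMotives V A)

/-- `g` factors through `L ^ c ⊗ h Z`. -/
def Fac (c : ℕ) {X Y : A} (g : X ⟶ Y) : Prop :=
  ∃ (Z : V) (u : X ⟶ tpow M.L c ⊗ M.h Z) (v : tpow M.L c ⊗ M.h Z ⟶ Y), u ≫ v = g

/-- `g` factors through `(L ^ c ⊗ h Z) ⊗ e`. -/
def FacE (e : A) (c : ℕ) {X Y : A} (g : X ⟶ Y) : Prop :=
  ∃ (Z : V) (u : X ⟶ (tpow M.L c ⊗ M.h Z) ⊗ e) (v : (tpow M.L c ⊗ M.h Z) ⊗ e ⟶ Y), u ≫ v = g

variable {M}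

theorem Fac.comp {c : ℕ} {X Y X' Y' : A} {g : X ⟶ Y} (h : Fac M c g) (p : X' ⟶ X)
    (q : Y ⟶ Y') : Fac M c (p ≫ g ≫ q) := by
  obtain ⟨Z, u, v, rfl⟩ := h
  exact ⟨Z, p ≫ u, v ≫ q, by simp only [Category.assoc]⟩

theorem FacE.comp {e : A} {c : ℕ} {X Y X' Y' : A} {g : X ⟶ Y} (h : FacE M e c g) (p : X' ⟶ X)
    (q : Y ⟶ Y') : FacE M e c (p ≫ g ≫ q) := by
  obtain ⟨Z, u, v, rfl⟩ := h
  exact ⟨Z, p ≫ u, v ≫ q, by simp only [Category.assoc]⟩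

theorem Fac.right {c : ℕ} {X Y Y' : A} {g : X ⟶ Y} (h : Fac M c g) (q : Y ⟶ Y') :
    Fac M c (g ≫ q) := by
  have := h.comp (𝟙 X) q
  rwa [Category.id_comp] at this

theorem Fac.left {c : ℕ} {X Y X' : A} {g : X ⟶ Y} (h : Fac M c g) (p : X' ⟶ X) :
    Fac M c (p ≫ g) := by
  have := h.comp p (𝟙 Y)
  rwa [Category.comp_id] at this

/-- Every morphism from or to an object whose identity factors, factors. -/
theorem Fac.of_id_left {c : ℕ} {X Y : A} (h : Fac M c (𝟙 X)) (g : X ⟶ Y) : Fac M c g := by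
  have := h.right g
  rwa [Category.id_comp] at this

theorem Fac.of_iso {c : ℕ} {X Y : A} (i : X ≅ Y) (h : Fac M c (𝟙 Y)) : Fac M c (𝟙 X) := by
  have := h.comp i.hom i.inv
  rwa [Category.id_comp, Iso.hom_inv_id] at this

theorem Fac.conj {c : ℕ} {X Y X' Y' : A} {g : X ⟶ Y} {g' : X' ⟶ Y'} (h : Fac M c g)
    (i : X' ≅ X) (j : Y' ≅ Y) (e : g' ≫ j.hom = i.hom ≫ g) : Fac M c g' := by
  have h1 := h.comp i.hom j.inv
  rwa [← Category.assoc, ← e, Category.assoc, Iso.hom_inv_id, Category.comp_id] at h1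

theorem Fac.twist (c : ℕ) (Z : V) : Fac M c (𝟙 (tpow M.L c ⊗ M.h Z)) :=
  ⟨Z, 𝟙 _, 𝟙 _, Category.comp_id _⟩

theorem Fac.variety (Z : V) : Fac M 0 (𝟙 (M.h Z)) :=
  Fac.of_iso (λ_ (M.h Z)).symm (Fac.twist 0 Z)

theorem Fac.retract {e : A} {E : V} {i : e ⟶ M.h E} {r : M.h E ⟶ e} (h : i ≫ r = 𝟙 e) :
    Fac M 0 (𝟙 e) := by
  have := (Fac.variety (M := M) E).comp i r
  rwa [Category.id_comp, h] at this

theorem Fac.lefschetz : Fac M 1 (𝟙 M.L) := by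
  obtain ⟨i⟩ := M.isoPt
  exact Fac.of_iso ((ρ_ M.L).symm ≪≫ (ρ_ (M.L ⊗ 𝟙_ A)).symm ≪≫
    whiskerLeftIso (M.L ⊗ 𝟙_ A) i.symm) (Fac.twist 1 M.pt)

theorem Fac.zero {c : ℕ} {X Y : A} : Fac M c (0 : X ⟶ Y) := ⟨M.pt, 0, 0, Limits.zero_comp⟩

end

section

variable {V : Type w} {A : Type u} [Category.{v} A] [MonoidalCategory A] [SymmetricCategory A]
  [Preadditive A] [MonoidalPreadditive A] [Linear ℚ A] [MonoidalLinear ℚ A] {M : ChowMotives V A}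

/-- Cycles of dimension `l < c` are killed. -/
theorem Fac.kill {c l : ℕ} (hl : l < c) {X Y : A} {g : X ⟶ Y} (h : Fac M c g)
    (z : tpow M.L l ⟶ X) : z ≫ g = 0 := by
  obtain ⟨Z, u, v, rfl⟩ := h
  rw [← Category.assoc, k_NEG M l c Z (z ≫ u) hl, Limits.zero_comp]

end

end Pool.VAS
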