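import Pool.Agent.Work.MP_292d0f_iso.Skel2
import Pool.Agent.Work.MP_292d0f_iso.B_ALS
import Pool.Agent.Work.MP_292d0f_iso.B_EXS
import Pool.Agent.Work.MP_292d0f_iso.B_TMB
import Pool.Agent.Work.MP_292d0f_iso.B_TEX
import Pool.Agent.Work.MP_292d0f_iso.B_FTN
import Pool.Agent.Work.MP_292d0f_iso.B_FCN
import Pool.Agent.Work.MP_292d0f_iso.B_FLN
import Pool.Agent.Work.MP_292d0f_iso.B_REA
import Pool.Agent.Work.MP_292d0f_iso.B_FB1
import Pool.Agent.Work.MP_292d0f_iso.B_CN0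
import Pool.Agent.Work.MP_292d0f_iso.B_CNM
import Pool.Agent.Work.MP_292d0f_iso.B_DUZ
import Pool.Agent.Work.MP_292d0f_iso.B_WWE
import Pool.Agent.Work.MP_292d0f_iso.B_ABL
import Pool.Agent.Work.MP_292d0f_iso.B_ABR
import Pool.Agent.Work.MP_292d0f_iso.B_MOV
import Pool.Agent.Work.MP_292d0f_iso.B_EX2
import Pool.Agent.Work.MP_292d0f_iso.B_VNG
import Pool.Agent.Work.MP_292d0f_iso.B_TRA
import Pool.Agent.Work.MP_292d0f_iso.B_PTR
import Pool.Agent.Work.MP_292d0f_iso.B_SPR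
import Pool.Agent.Work.MP_292d0f_iso.B_SMR
import Pool.Agent.Work.MP_292d0f_iso.B_FRR
import Pool.Agent.Work.MP_292d0f_iso.B_COM
import Pool.Agent.Work.MP_292d0f_iso.B_DUG
import Pool.Agent.Work.MP_292d0f_iso.B_CN2
import Pool.Agent.Work.MP_292d0f_iso.B_WMX
import Pool.Agent.Work.MP_292d0f_iso.B_WFG

/-!
# K3 surfaces with half twists: the main theorem
-/

open CategoryTheory MonoidalCategory
open Pool.Agent.Work.MP_c42eb9_num.Defs Pool.Agent.Work.MP_c42eb9_num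

namespace Pool.VAS

universe v u w v' u' w'

variable {V : Type w} {A : Type u} [Category.{v} A] [MonoidalCategory A] [SymmetricCategory A]
  [Preadditive A] [MonoidalPreadditive A] [Linear ℚ A] [MonoidalLinear ℚ A]
  {M : ChowMotives V A}
  {V' : Type w'} {A' : Type u'} [Category.{v'} A'] [MonoidalCategory A']
  [SymmetricCategory A'] [Preadditive A'] [MonoidalPreadditive A'] [Linear ℚ A']
  [MonoidalLinear ℚ A'] {M' : ChowMotives V' A'} {R' : RatConn M'}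

theorem iso_main (K : K3Motive M) (D : Coefficients M M') (T : HalfTwist M' R' (D.F.obj K.t)) :
    K.Commute ∧
    (∀ d : ℕ, d ≤ 8 → T.Dim d → (∀ n l : ℕ, l + 2 ≤ n → K.At n l) ∧
      (∀ n l : ℕ, n ≤ 3 → l + 1 ≤ n → K.At n l)) ∧
    (∀ d : ℕ, d ≤ 5 → T.Dim d → (∀ n l : ℕ, l + 1 ≤ n → K.At n l) ∧ (∀ l : ℕ, l ≤ 1 → K.At 1 l)) ∧
    (∀ d : ℕ, d ≤ 3 → T.Dim d → K.Q1) := by
  have hFTN : Stmt_FTN V' A' M' := i_FTN V' A' M'
  have hALS : Stmt_ALS A' := i_ALS A' i_EXS (i_TEX A' (i_TMB A'))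
  have hFLN : Stmt_FLN V' A' M' := i_FLN hFTN
  have hFCN : Stmt_FCN V' A' M' := i_FCN V' A' M' (p_TW V' A' M')
  have hCN2 : Stmt_CN2 V' A' M' R' := i_CN2 hFTN (i_FB1 V' A' M' R')
  have hDUG : Stmt_DUG V' A' M' R' := i_DUG V' A' M' R' hFTN hFCN hFLN (i_REA A')
  have hWMX : Stmt_WMX V' A' M' R' := i_WMX hALS hFTN hFLN
  have hWFG : Stmt_WFG V' A' M' R' := i_WFG V' A' M' R' (i_WWE A') (i_ABL A') (i_ABR A')
  exact final2 hALS (i_CN0 V' A' M' R' hFTN) (i_CNM hFTN) hCN2 hDUG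
    (i_DUZ V' A' M' R') hWMX (i_VNG hWFG (i_EX2 A' (i_MOV A')))
    (i_TRA V A M V' A' M') (i_PTR V A M K) (i_SPR V A M K) (i_SMR V A M K) (i_FRR V A M K)
    (i_COM V A M K) D T

end Pool.VAS
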