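import Pool.Agent.Work.MP_292d0f_iso.Basic

/-!
# K3 surfaces with half twists: the blocks

Theorem (file `Defs`): Voisin's conjecture Q1 holds for the K3 surfaces whose transcendental motive
has half twists of dimension at most 5. Notation: `A` is a `ℚ`-linear symmetric monoidal category
(Chow motives), `M : ChowMotives V A`, `L = M.L`, `L ^ n = tpow L n`. `Fac M c g` means that `g`
factors through `L ^ c ⊗ h Z` (file `Basic`, with `Fac.comp`, `Fac.right`, `Fac.left`,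
`Fac.of_iso`, `Fac.conj`, `Fac.twist`, `Fac.variety`, `Fac.retract`, `Fac.lefschetz`, `Fac.zero`,
`Fac.kill`, `FacE.comp`).

Available: `p_ADD A N a b : Nonempty (tpow N (a + b) ≅ tpow N a ⊗ tpow N b)`, `p_TW V A M n X Y`
(`fun f => tpow M.L n ◁ f` is bijective), `M.prod`, `M.isoPt`, `p_SHF`, `p_BRL`, `p_SWP`, `p_LEI`,
`p_EXP` (statements in `Pool.Agent.Work.MP_292d0f_va.Interface`), and in
`Pool.Agent.Work.MP_c42eb9_num` (the exchange operators of the tensor power are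
`exchE X : Exch X`, and `(exchE X).alt n` is `alt X n`, `(exchE X).op n` is `exch X n`, by `rfl`;
also `negE X` with `(negE X).alt n = symm X n` by `rfl` or `funext`, see file `Twist`/`TwistE`):
`alt_idem`, `exch_alt : E.op n ≫ E.alt (n+2) = -E.alt (n+2)`, `alt_exch`,
`Lalt_alt : Lalt E n ≫ E.alt (n+1) = E.alt (n+1)` (`Lalt E n` is `X ◁ E.alt n` by `rfl`),
`alt_Lalt`, `alt_zero`, `alt_one`, `alt_succ_succ`, `alt_nat : alt X n ≫ tpowMap f n = tpowMap f n ≫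
alt Y n`, `alt_nat_aux`, `alt_tensor`, `alt_swap`, `sw_tensor`, `natE_exch`, `tpowMap_comp`,
`tpowMap_id`.

Lean does not see through `tpow N (n+1) = N ⊗ tpow N n` when it rewrites (it is true by `rfl`):
state auxiliary lemmas for general objects in the place of `tpow N n` and apply them with `exact`,
`refine`, `.trans`, `congrArg`, or use `show`.

Each block is a file `B_XXX.lean` in this folder which imports this file and proves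
`theorem i_XXX : Stmt_XXX A` (or `Stmt_XXX V A M`, the arguments as in the statement), with the
hypotheses named after the word uses as arguments, for instance
`theorem i_FCN (hTW : Stmt_TW V A M) : Stmt_FCN V A M` or directly with `p_TW V A M`.
-/

open CategoryTheory MonoidalCategory
open Pool.Agent.Work.MP_c42eb9_num.Defs Pool.Agent.Work.MP_c42eb9_num

namespace Pool.VAS

universe v u w v' u' w'

section

variable (A : Type u) [Category.{v} A] [MonoidalCategory A] [SymmetricCategory A]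
  [Preadditive A] [MonoidalPreadditive A] [Linear ℚ A] [MonoidalLinear ℚ A]

/-- EXS (20 lines). `exch e n = α⁻¹ ≫ β ▷ _ ≫ α` with `β = -𝟙`. -/
def Stmt_EXS : Prop := ∀ (e : A), (β_ e e).hom = -𝟙 (e ⊗ e) → ∀ n : ℕ, exch e n = -𝟙 _

/-- TMB (100 lines). The exchange of `a ⊗ e` and `a ⊗ e` is the exchange of `a` and `a` and of `e`
and `e`.
Proof. By the hexagons (`BraidedCategory.braiding_tensor_left_hom`,
`BraidedCategory.braiding_tensor_right_hom`) the left side is a composite of the exchanges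
`a e`, `a a`, `e e`, `e a` and then (in `tensorμ`) `a e` again, which cancels with `e a`
(`SymmetricCategory.symmetry`). Compare `BRL_aux` in `Pool.Agent.Work.MP_292d0f_va.B_BRL`, or
`MonoidalCategory.tensorμ_natural`. -/
def Stmt_TMB : Prop := ∀ (a e : A),
  (β_ (a ⊗ e) (a ⊗ e)).hom ≫ tensorμ a e a e = tensorμ a e a e ≫ ((β_ a a).hom ⊗ₘ (β_ e e).hom)

/-- TEX (100 lines, uses TMB). The exchange of the first two factors `a ⊗ e`.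
Proof. Lemma for general objects `Z`, `X`, `Y` and `g : Z ⟶ X ⊗ Y` in the place of
`tpow (a ⊗ e) n`, `tpow a n`, `tpow e n`, `(tau a e n).hom`:
`(α⁻¹ ≫ β_ (a⊗e) (a⊗e) ▷ Z ≫ α) ≫ ((a⊗e) ◁ ((a⊗e) ◁ g ≫ tensorμ a e X Y) ≫
tensorμ a e (a⊗X) (e⊗Y)) = (...) ≫ ((α⁻¹ ≫ β_ a a ▷ X ≫ α) ⊗ₘ (α⁻¹ ≫ β_ e e ▷ Y ≫ α))`.
`g` moves out by naturality (`whisker_exchange`). Mathlib's `MonoidalCategory.tensor_associativity`:
`(tensorμ a e a e ▷ (X ⊗ Y)) ≫ tensorμ (a⊗a) (e⊗e) X Y ≫ (α ⊗ₘ α) = α ≫ ((a⊗e) ◁ tensorμ a e X Y) ≫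
tensorμ a e (a⊗X) (e⊗Y)`; with it the left side is `α⁻¹ ≫ β ▷ (X⊗Y) ≫ (tensorμ ▷ (X⊗Y)) ≫
tensorμ (a⊗a) (e⊗e) X Y ≫ (α ⊗ₘ α)`; use TMB and the naturality of `tensorμ`
(`tensorμ_natural_left`). -/
def Stmt_TEX : Prop := ∀ (a e : A) (n : ℕ), exch (a ⊗ e) n ≫ (tau a e (n + 2)).hom =
  (tau a e (n + 2)).hom ≫ (exch a n ⊗ₘ exch e n)

/-- ALS (80 lines, uses EXS TEX). For odd `e` the antisymmetriser of `a ⊗ e` is the symmetriser of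
`a`.
Proof. Induction on `n`. `0`, `1`: all are identities. `n + 2`: `alt_nat_aux` with
`B = (a ⊗ e) ◁ alt (a ⊗ e) (n + 1)`, `s = exch (a ⊗ e) n`, `F = (tau a e (n + 2)).hom`,
`B' = (a ◁ symm a (n + 1)) ▷ tpow e (n + 2)`, `s' = (-exch a n) ▷ tpow e (n + 2)`, and
`symm a (n + 2) ▷ W = c • (B' - c' • (B' ≫ s' ≫ B'))`. `B ≫ F = F ≫ B'` is the induction
hypothesis and the naturality of `tensorμ`; `s ≫ F = F ≫ s'` is TEX with `exch e n = -𝟙` (EXS). -/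
def Stmt_ALS : Prop := ∀ (a e : A), (β_ e e).hom = -𝟙 (e ⊗ e) → ∀ n : ℕ,
  alt (a ⊗ e) n ≫ (tau a e n).hom = (tau a e n).hom ≫ symm a n ▷ tpow e n

/-- WWE (50 lines). Proof. Induction on `i` (for `i = 0`: `wrd P Q 0 n = tpowMap Q n` by induction
on `n`, and `tpowMap P 0 = 𝟙`). -/
def Stmt_WWE : Prop := ∀ (t : A) (P Q : t ⟶ t) (i j : ℕ), wrd P Q i (j + i) =
  (ad t j i).hom ≫ (tpowMap P i ⊗ₘ tpowMap Q j) ≫ (ad t j i).inv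

/-- ABL (120 lines). `alt t (j + i)` absorbs `alt t i` on the first `i` factors.
Proof. Put `O i = (ad t j i).hom ≫ (alt t i ▷ tpow t j) ≫ (ad t j i).inv`. `O 0 = O 1 = 𝟙`
(`alt t 0 = 𝟙`, `alt t 1 = 𝟙` by `rfl`). With `altOf`'s recursion
`alt t (i + 2) = c • (t ◁ alt t (i + 1) - c' • (t ◁ alt t (i + 1) ≫ exch t i ≫ t ◁ alt t (i + 1)))`,
`c = (i + 2)⁻¹`, `c' = i + 1`, one gets `O (i + 2) = c • (t ◁ O (i + 1) - c' • (t ◁ O (i + 1) ≫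
exch t (j + i) ≫ t ◁ O (i + 1)))`, as `ad t j (i + 2)` is `t ◁ (t ◁ ad t j i)` followed by
associators (`exch` commutes with them, coherence). By induction `O (i + 1) ≫ alt t (j + i + 1) =
alt t (j + i + 1)`, so `t ◁ O (i + 1) ≫ alt t (j + i + 2) = alt t (j + i + 2)` (`Lalt_alt`), and
`exch ≫ alt = -alt` (`exch_alt`): `O (i + 2) ≫ alt = c • (alt + c' • alt) = alt`. -/
def Stmt_ABL : Prop := ∀ (t : A) (j i : ℕ),
  ((ad t j i).hom ≫ (alt t i ▷ tpow t j) ≫ (ad t j i).inv) ≫ alt t (j + i) = alt t (j + i)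

/-- ABR (60 lines). The same for the last `j` factors.
Proof. Induction on `i`: `i = 0` is `alt_idem`. The operator for `i + 1` is `t ◁` the operator for
`i` (up to associators which cancel); insert `t ◁ alt t (j + i)` before `alt t (j + i + 1)`
(`Lalt_alt`). -/
def Stmt_ABR : Prop := ∀ (t : A) (j i : ℕ),
  ((ad t j i).hom ≫ (tpow t i ◁ alt t j) ≫ (ad t j i).inv) ≫ alt t (j + i) = alt t (j + i)

/-- MOV (100 lines). Moving a factor `Q` behind the factors `P`.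
Proof. Induction on `i`, for all `N`. `i = 0`: `wrd P Q 0 (N + 1) = Q ⊗ₘ wrd P Q 0 N` by `rfl`.
`i + 1 ≤ N`, so `N = N' + 1` and `wrd P Q (i + 1) (N' + 1) = P ⊗ₘ W`, `W = wrd P Q i N'`. By
`alt_swap` (`exchE`, `natE_exch`) `alt ≫ (Q ⊗ₘ (P ⊗ₘ W)) ≫ alt =
alt ≫ (P ⊗ₘ (Q ⊗ₘ W)) ≫ (-exch) ≫ alt = alt ≫ (P ⊗ₘ (Q ⊗ₘ W)) ≫ alt`. Insert `t ◁ alt t (N' + 1)`
on both sides (`alt_tensor` / `alt_Lalt`, `Lalt_alt`): `P ⊗ₘ (alt ≫ (Q ⊗ₘ W) ≫ alt)`, apply the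
induction hypothesis inside and remove `t ◁ alt` again: `alt ≫ (P ⊗ₘ wrd P Q i (N' + 1)) ≫ alt`. -/
def Stmt_MOV : Prop := ∀ (t : A) (P Q : t ⟶ t) (i N : ℕ), i ≤ N →
  alt t (N + 1) ≫ (Q ⊗ₘ wrd P Q i N : tpow t (N + 1) ⟶ tpow t (N + 1)) ≫ alt t (N + 1) =
    alt t (N + 1) ≫ wrd P Q i (N + 1) ≫ alt t (N + 1)

/-- EX2 (80 lines, uses MOV). Expansion of `(P + Q) ^ N = 𝟙` on antisymmetric tensors.
Proof. Induction on `N`; `N = 0`: `𝟙 = 𝟙 ≫ wrd P Q 0 0 ≫ 𝟙`. Step: `alt t (N + 1) = alt t (N + 1) ≫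
(t ◁ alt t N) ≫ alt t (N + 1)` and `t ◁ f = (P + Q) ⊗ₘ f = P ⊗ₘ f + Q ⊗ₘ f`; the set of the
`f : tpow t N ⟶ tpow t N` with `alt t (N + 1) ≫ (t ◁ f) ≫ alt t (N + 1)` in the span for `N + 1` is a
submodule; for `f = alt ≫ wrd P Q i N ≫ alt` the inner `alt` are absorbed, `P ⊗ₘ wrd P Q i N` is
`wrd P Q (i + 1) (N + 1)` and `Q ⊗ₘ wrd P Q i N` is MOV. -/
def Stmt_EX2 : Prop := ∀ (t : A) (P Q : t ⟶ t), P + Q = 𝟙 t → ∀ N : ℕ,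
  alt t N ∈ Submodule.span ℚ {g | ∃ i, i ≤ N ∧ g = alt t N ≫ wrd P Q i N ≫ alt t N}

/-- REA (40 lines). Reordering factors; `s` acts only on `B`.
Proof. `φ = α ≪≫ B ◁ ψ ≪≫ α⁻¹`, where `ψ : (L ⊗ (F ⊗ G)) ⊗ K ≅ G ⊗ (L ⊗ (F ⊗ K))` is any composite of
associators and braidings (for instance `(L ⊗ (F ⊗ G)) ⊗ K ≅ L ⊗ (F ⊗ (G ⊗ K)) ≅ L ⊗ (F ⊗ (K ⊗ G))
≅ (L ⊗ (F ⊗ K)) ⊗ G ≅ G ⊗ (L ⊗ (F ⊗ K))`). -/
def Stmt_REA : Prop := ∀ (L F G K B : A),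
  ∃ φ : (B ⊗ (L ⊗ (F ⊗ G))) ⊗ K ≅ (B ⊗ G) ⊗ (L ⊗ (F ⊗ K)), ∀ s : B ⟶ B,
    (s ▷ (L ⊗ (F ⊗ G))) ▷ K ≫ φ.hom = φ.hom ≫ (s ▷ G) ▷ (L ⊗ (F ⊗ K))

end

section

variable (V : Type w) (A : Type u) [Category.{v} A] [MonoidalCategory A] [SymmetricCategory A]
  [Preadditive A] [MonoidalPreadditive A] [Linear ℚ A] [MonoidalLinear ℚ A]
  (M : ChowMotives V A) (R : RatConn M)

/-- FTN (60 lines). Tensor products.
Proof. `g = u ≫ v` through `L^c ⊗ h Z`, `g' = u' ≫ v'` through `L^d ⊗ h Z'`;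
`g ⊗ₘ g' = (u ⊗ₘ u') ≫ (v ⊗ₘ v')` and `(L^c ⊗ h Z) ⊗ (L^d ⊗ h Z') ≅ (L^c ⊗ L^d) ⊗ (h Z ⊗ h Z')`
(`muIso`) `≅ L^(c+d) ⊗ h W` (`p_ADD`, `M.prod`). -/
def Stmt_FTN : Prop := ∀ (c d : ℕ) (X Y X' Y' : A) (g : X ⟶ Y) (g' : X' ⟶ Y'),
  Fac M c g → Fac M d g' → Fac M (c + d) (g ⊗ₘ g')

/-- FCN (80 lines). Cancellation of `L ^ j`.
Proof. With the braiding `L^j ◁ g = β ≫ (g ▷ L^j) ≫ β⁻¹` factors through
`L^(j+c) ⊗ h Z ≅ L^j ⊗ (L^c ⊗ h Z)` (`p_ADD`): `L^j ◁ g = u ≫ v`. By `p_TW` (surjective)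
`u = L^j ◁ u'`, `v = L^j ◁ v'`, so `L^j ◁ (u' ≫ v') = L^j ◁ g`, and `u' ≫ v' = g` (injective). -/
def Stmt_FCN : Prop := ∀ (j c : ℕ) (X Y : A) (g : X ⟶ Y),
  Fac M (j + c) (g ▷ tpow M.L j) → Fac M c g

/-- FLN (60 lines, uses FTN). `f ^ n ⊗ e ^ n` is a twist by `L ^ n`.
Proof. Induction on `n`. `n = 0`: `𝟙 ⊗ 𝟙 ≅ 𝟙 ≅ h pt`, `Fac.variety`. Step:
`(f ⊗ f^n) ⊗ (e ⊗ e^n) ≅ (f ⊗ e) ⊗ (f^n ⊗ e^n)` (`muIso`), `f ⊗ e ≅ e ⊗ f ≅ L` (`Fac.lefschetz`),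
FTN (`𝟙 ⊗ₘ 𝟙 = 𝟙`), `1 + n = n + 1`. -/
def Stmt_FLN : Prop := ∀ (e f : A), (e ⊗ f ≅ M.L) → ∀ n : ℕ, Fac M n (𝟙 (tpow f n ⊗ tpow e n))

/-- FB0 (30 lines). `symm a 1 = 𝟙` (`rfl`), `(a ⊗ 𝟙) ⊗ 𝟙 ≅ a`, `Fac.retract p.aC_Ca`. -/
def Stmt_FB0 : Prop := ∀ p : HalfPiece M R, Fac M 0 (symm p.a 1 ▷ tpow p.e 0)

/-- FB1 (60 lines). The theorem of Bloch and Srinivas for the threefold.
Proof. `v ≫ u : h X ⟶ h X` kills every zero-cycle `z`, since `(z ≫ v ≫ u) ≫ deg = 0` (`u_deg`) and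
`R.zero`. So (`M.blochSrinivas`) `v ≫ u = a ≫ b` with `a : h X ⟶ L ⊗ h Z`. `s := symm a 2 ▷ e = u ≫ v`
is idempotent (`alt_idem (negE _)`), so `s = s ≫ s = u ≫ (v ≫ u) ≫ v = (u ≫ a) ≫ (b ≫ v)` factors
through `L ⊗ h Z ≅ tpow L 1 ⊗ h Z`. Finally `tpow e 1 = e ⊗ 𝟙 ≅ e`. -/
def Stmt_FB1 : Prop := ∀ p : HalfPiece M R, Fac M 1 (symm p.a 2 ▷ tpow p.e 1)

/-- AXE (60 lines, uses ALS). Proof. By ALS `alt (a ⊗ e) (k + 1) = τ ≫ (symm a (k + 1) ▷ tpow e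
(k + 1)) ≫ τ⁻¹`, and `tpow a (k + 1) ⊗ (e ⊗ tpow e k) ≅ (tpow a (k + 1) ⊗ tpow e k) ⊗ e` turns the
middle morphism into `(symm a (k + 1) ▷ tpow e k) ▷ e`, which factors through
`(L^k ⊗ h Z) ⊗ e`. -/
def Stmt_AXE : Prop := ∀ (p : HalfPiece M R) (k : ℕ), Fac M k (symm p.a (k + 1) ▷ tpow p.e k) →
  FacE M p.e k (alt (p.a ⊗ p.e) (k + 1))

/-- MXE (60 lines, uses FTN). Proof. `((L^c ⊗ h Z) ⊗ e) ⊗ ((L^d ⊗ h Z') ⊗ f) ≅
((L^c ⊗ h Z) ⊗ (L^d ⊗ h Z')) ⊗ (e ⊗ f)` (`muIso`), the identity of this object factors (FTN twice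
with `Fac.twist`, `Fac.lefschetz`, `Fac.of_iso`). -/
def Stmt_MXE : Prop := ∀ (e f : A), (e ⊗ f ≅ M.L) → ∀ (c d : ℕ) (X Y X' Y' : A) (g : X ⟶ Y)
  (g' : X' ⟶ Y'), FacE M e c g → FacE M f d g' → Fac M (c + d + 1) (g ⊗ₘ g')

/-- FEF (40 lines, uses FTN). Proof. The identity of `(L^c ⊗ h Z) ⊗ e` factors through
`L^(c+0) ⊗ h W` (FTN, `Fac.twist`, `Fac.retract`). -/
def Stmt_FEF : Prop := ∀ (e : A) (E : V) (i : e ⟶ M.h E) (r : M.h E ⟶ e), i ≫ r = 𝟙 e →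
  ∀ (c : ℕ) (X Y : A) (g : X ⟶ Y), FacE M e c g → Fac M c g

/-- WFA (120 lines, uses WWE ABL ABR MXE FEF). The words.
Proof. `N + 1 = j + i` (`obtain ⟨j, hj⟩ : ∃ j, N + 1 = j + i`; to avoid casts prove first the
statement for all `i j N` with `j + i = N + 1` in the form: for all `m`, `m = j + i → …`, `subst`).
Write `x = p.a ⊗ p.e`, `y = q.a ⊗ q.e`. By WWE, ABL, ABR: `wrd P Q i (j + i) ≫ alt t (j + i) =
ad.hom ≫ ((tpowMap P i ≫ alt t i) ⊗ₘ (tpowMap Q j ≫ alt t j)) ≫ ad.inv ≫ alt t (j + i)`, and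
`tpowMap P i ≫ alt t i = tpowMap ix i ≫ alt x i ≫ tpowMap rx i` (`tpowMap_comp`, `alt_nat`). If
`i = i' + 1`, `j = j' + 1` then MXE gives `Fac M (i' + j' + 1)`, `i' + j' + 1 = N`. If `i = 0`: the
second factor is in `Fac M (j - 1) = Fac M N` by FEF, and `alt t 0 = 𝟙`: the whole is (`ad t j 0` is
the unitor) conjugate to it; or use `wrd P Q 0 n = tpowMap Q n` directly. The same for `j = 0`
(`wrd P Q n n = tpowMap P n`). -/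
def Stmt_WFA : Prop := ∀ (t : A) (T : HalfTwist M R t) (N : ℕ),
  (∀ k : ℕ, k ≤ N → FacE M T.p.e k (alt (T.p.a ⊗ T.p.e) (k + 1))) →
  (∀ k : ℕ, k ≤ N → FacE M T.q.e k (alt (T.q.a ⊗ T.q.e) (k + 1))) →
  ∀ i : ℕ, i ≤ N + 1 →
    Fac M N (wrd (T.ix ≫ T.rx) (T.iy ≫ T.ry) i (N + 1) ≫ alt t (N + 1))

/-- VAN (50 lines, uses WFA EX2). Proof. `z ≫ alt = z ≫ g` for `g = alt t (N + 1)` in the span of
EX2 (with `T.sum`); the set of the `g` with `z ≫ g = 0` is a submodule, and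
`z ≫ alt ≫ wrd ≫ alt = (z ≫ alt) ≫ (wrd ≫ alt) = 0` by WFA and `Fac.kill`. -/
def Stmt_VAN : Prop := ∀ (t : A) (T : HalfTwist M R t) (N : ℕ),
  (∀ k : ℕ, k ≤ N → FacE M T.p.e k (alt (T.p.a ⊗ T.p.e) (k + 1))) →
  (∀ k : ℕ, k ≤ N → FacE M T.q.e k (alt (T.q.a ⊗ T.q.e) (k + 1))) →
  ∀ l : ℕ, l < N → ∀ z : tpow M.L l ⟶ tpow t (N + 1), z ≫ alt t (N + 1) = 0

/-- DU0 (80 lines, uses FTN FCN FLN). The determinant.
Proof. `dual` with `j = 0`, `k = n + 2`: `symm a (n + 2) ▷ 𝟙_ = u ≫ (symm b 0 ▷ _) ≫ v` factors through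
`𝟙_ ⊗ (L ⊗ f^n)`. So `symm a (n + 2) ▷ e^(n+1)` factors through `(L ⊗ f^n) ⊗ (e ⊗ e^n) ≅
L ⊗ (e ⊗ (f^n ⊗ e^n))`, whose identity is in `Fac M (1 + (0 + n))` (`Fac.lefschetz`,
`Fac.retract p.eE_Ee`, FLN). -/
def Stmt_DU0 : Prop := ∀ (p q : HalfPiece M R), (p.e ⊗ q.e ≅ M.L) → ∀ n : ℕ, p.Dim q n →
  Fac M (n + 1) (symm p.a (n + 2) ▷ tpow p.e (n + 1))

/-- DU1 (120 lines, uses FTN FCN FLN REA). Duality.
Proof. Let `B = tpow q.a (j + 1)`, `s = symm q.a (j + 1)`, `f = q.e`, `e = p.e`. `dual` for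
`(j + 1) + (k + 1) = n + 2`: `symm p.a (k + 1) ▷ L^(j+1) = u ≫ (s ▷ (L ⊗ f^n)) ≫ v`. Here `n = j + k`,
`f^n ≅ f^k ⊗ f^j` (`ad f j k`). By REA (with `F = f^k`, `G = f^j`, `K = e^k`)
`(s ▷ (L ⊗ f^n)) ▷ e^k` is conjugate to `(s ▷ f^j) ▷ (L ⊗ (f^k ⊗ e^k)) = (s ▷ f^j) ⊗ₘ 𝟙`, which is
in `Fac M (j + (1 + k))` (hypothesis, `Fac.lefschetz`, FLN, FTN). So
`(symm p.a (k + 1) ▷ L^(j+1)) ▷ e^k` is in `Fac M ((j + 1) + k)`, hence so is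
`(symm p.a (k + 1) ▷ e^k) ▷ L^(j+1)` (exchange the last two factors); FCN gives `Fac M k`. -/
def Stmt_DU1 : Prop := ∀ (p q : HalfPiece M R), (p.e ⊗ q.e ≅ M.L) → ∀ n : ℕ, p.Dim q n →
  ∀ j k : ℕ, j + k = n → Fac M j (symm q.a (j + 1) ▷ tpow q.e j) →
    Fac M k (symm p.a (k + 1) ▷ tpow p.e k)

/-- DU2 (40 lines). The symmetric powers vanish above the dimension.
Proof. `symm a (m + 1) = (a ◁ symm a m) ≫ symm a (m + 1)` (`Lalt_alt (negE a)`), so by induction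
`symm a m = 0` for all `m ≥ n + 3`; `Fac.zero`. -/
def Stmt_DU2 : Prop := ∀ (p q : HalfPiece M R) (n : ℕ), p.Dim q n →
  ∀ k : ℕ, n + 2 ≤ k → Fac M k (symm p.a (k + 1) ▷ tpow p.e k)

section K3

variable (K : K3Motive M)

/-- COM (60 lines). Proof. By `p_WRI V A M K` `w = w₀ ≫ inc`, `w' = w₀' ≫ inc`. The hypothesis for
`z = λ⁻¹ ≫ (w₀ ⊗ₘ (w₀' ≫ ρ⁻¹))` gives `λ⁻¹ ≫ (w₀ ⊗ₘ w₀') ≫ (𝟙 - β_ t t) = 0`, so `w₀ ⊗ₘ w₀' =
(w₀ ⊗ₘ w₀') ≫ β_ t t = w₀' ⊗ₘ w₀`; compose with `inc ⊗ₘ inc`. -/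
def Stmt_COM : Prop := (∀ z : tpow M.L 0 ⟶ tpow K.t 2, z ≫ alt K.t 2 = 0) → K.Commute

/-- A00 (50 lines). Proof. Let `z : tpow L 0 ⟶ tpow H 1` (`H = h S`), `z ≫ forget deg 0 = 0` and
`w ≫ deg = 0`. `z = z₁ ≫ ρ⁻¹` with `z₁ = z ≫ ρ : 𝟙_ A ⟶ H` and `z₁ ≫ deg = 0`, so by `p_WRI V A M K`
`z₁ = z₀ ≫ inc`, `w = w₀ ≫ inc`, and `z = (z₀ ≫ ρ⁻¹) ≫ tpowMap inc 1`. So (compare `PET_aux` in
`Pool.Agent.Work.MP_292d0f_va.B_PET`) `ext w z ≫ alt H 2 = ext w₀ (z₀ ≫ ρ⁻¹) ≫ tpowMap inc 2 ≫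
alt H 2 = ext w₀ (z₀ ≫ ρ⁻¹) ≫ alt t 2 ≫ tpowMap inc 2 = 0`. -/
def Stmt_A00 : Prop := (∀ z : tpow M.L 0 ⟶ tpow K.t 2, z ≫ alt K.t 2 = 0) → K.At 0 0

end K3

section Coeff

variable (V' : Type w') (A' : Type u') [Category.{v'} A'] [MonoidalCategory A']
  [SymmetricCategory A'] [Preadditive A'] [MonoidalPreadditive A'] [Linear ℚ A']
  [MonoidalLinear ℚ A'] (M' : ChowMotives V' A')

/-- TRA (80 lines). Extension of the coefficients.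
Proof. `D.F` is braided, additive and faithful (`have := D.braided` etc.). With the comparison
`cmp F X n : tpow (F.obj X) n ≅ F.obj (tpow X n)` (file `Pool.Agent.Work.MP_292d0f_sp.Map`) put
`z' = tpowMap D.isoL.inv l ≫ (cmp F L l).hom ≫ F.map z ≫ (cmp F t n).inv : tpow M'.L l ⟶
tpow (F.obj t) n` (`tpowMap` of an isomorphism is an isomorphism: `tpowMap_comp`, `tpowMap_id`).
`z' ≫ alt (F.obj t) n = 0` and `map_alt` give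
`(tpowMap D.isoL.inv l ≫ (cmp F L l).hom) ≫ F.map (z ≫ alt t n) = 0`; cancel the isomorphism;
`F` is faithful. -/
def Stmt_TRA : Prop := ∀ (D : Coefficients M M') (t : A) (n l : ℕ),
  (∀ z' : tpow M'.L l ⟶ tpow (D.F.obj t) n, z' ≫ alt (D.F.obj t) n = 0) →
    ∀ z : tpow M.L l ⟶ tpow t n, z ≫ alt t n = 0

end Coeff

end

end Pool.VAS
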