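import Pool.Agent.Work.MP_292d0f_iso.Interface

/-!
# K3 surfaces with half twists, second part: all dimensions up to 10

`p.Con k s c` means that `Sym^k a ⊗ e^s` has coniveau `c` (it is a summand of `L^c ⊗ h Z`).
The rules are those of `Interface.lean` (`Fac`, `Fac.comp`, `Fac.conj`, `Fac.of_iso`, …).
-/

open CategoryTheory MonoidalCategory
open Pool.Agent.Work.MP_c42eb9_num.Defs Pool.Agent.Work.MP_c42eb9_num

namespace Pool.VAS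

universe v u w

section

variable {V : Type w} {A : Type u} [Category.{v} A] [MonoidalCategory A] [SymmetricCategory A]
  [Preadditive A] [Linear ℚ A]

/-- `Sym^k a ⊗ e^s` is a direct summand of `L^c ⊗ h Z`. -/
def HalfPiece.Con {M : ChowMotives V A} {R : RatConn M} (p : HalfPiece M R) (k s c : ℕ) : Prop :=
  Fac M c (symm p.a k ▷ tpow p.e s)

/-- `g` factors through `L ^ c' ⊗ h Z` for some `c' ≥ c`. -/
def FacG (M : ChowMotives V A) (c : ℕ) {X Y : A} (g : X ⟶ Y) : Prop :=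
  ∃ c' : ℕ, c ≤ c' ∧ Fac M c' g

/-- Auxiliary property of an endomorphism `a` of `h S`, for the pairs `(n, l)` with `B n l`. -/
def K3Motive.KillsR {M : ChowMotives V A} (K : K3Motive M) (B : ℕ → ℕ → Prop)
    (a : M.h K.S ⟶ M.h K.S) : Prop :=
  ∀ n l : ℕ, B n l → ∀ z : tpow M.L l ⟶ tpow (M.h K.S) (n + 1),
    z ≫ alt (M.h K.S) (n + 1) = z → ∀ w : 𝟙_ A ⟶ K.t,
    ext (w ≫ K.inc) (z ≫ tpowMap a (n + 1)) ≫ alt (M.h K.S) (n + 2) = 0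

end

section

variable (V : Type w) (A : Type u) [Category.{v} A] [MonoidalCategory A] [SymmetricCategory A]
  [Preadditive A] [MonoidalPreadditive A] [Linear ℚ A] [MonoidalLinear ℚ A]
  (M : ChowMotives V A) (R : RatConn M)

/-- CN0 (60 lines, uses FTN). `Con k s 0`.
Proof. `Fac M 0 (𝟙 (tpow p.a k))` by induction on `k` (`tpow a 0 = 𝟙_ ≅ h pt`, `Fac.variety`,
`Fac.of_iso`; `Fac.retract p.aC_Ca`, FTN, `𝟙 ⊗ₘ 𝟙 = 𝟙`, `0 + 0 = 0`), the same for `p.e`; FTN;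
`Fac.of_id_left`. -/
def Stmt_CN0 : Prop := ∀ (p : HalfPiece M R) (k s : ℕ), p.Con k s 0

/-- CNM (40 lines, uses FTN). One more factor `e`.
Proof. `symm a k ▷ (e ⊗ e^s)` is conjugate (`tpow a k ⊗ (e ⊗ e^s) ≅ e ⊗ (tpow a k ⊗ e^s)`) to
`𝟙 e ⊗ₘ (symm a k ▷ e^s)`; `Fac.retract p.eE_Ee`, FTN, `0 + c = c`. -/
def Stmt_CNM : Prop := ∀ (p : HalfPiece M R) (k s c : ℕ), p.Con k s c → p.Con k (s + 1) c

/-- CN2 (120 lines, uses FTN FB1). Two more factors `a` and one more `e`.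
Proof. By FB1 `symm a 2 ▷ tpow e 1` is in `Fac M 1`; put `h = (1/2) • (𝟙 + β_ a a) : a ⊗ a ⟶ a ⊗ a`, so
`symm a 2` is `h` up to the unitor (`alt_succ_succ (negE a)`, `alt_one`), and `h ▷ e` is in
`Fac M 1`. `symm a (k + 2) = (1/2) • (𝟙 + exch a k) ≫ symm a (k + 2)` (`exch_alt (negE a)`) and
`a ◁ (a ◁ symm a k) ≫ symm a (k + 2) = symm a (k + 2)` (`Lalt_alt (negE a)` twice), so
`symm a (k + 2) = α⁻¹ ≫ (h ⊗ₘ symm a k) ≫ α ≫ symm a (k + 2)` and `symm a (k + 2) ▷ (e ⊗ e^s)` is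
`φ ≫ ((h ▷ e) ⊗ₘ (symm a k ▷ e^s)) ≫ φ⁻¹ ≫ (α ≫ symm a (k + 2)) ▷ _` up to associators
(`muIso`: `((a ⊗ a) ⊗ a^k) ⊗ (e ⊗ e^s) ≅ ((a ⊗ a) ⊗ e) ⊗ (a^k ⊗ e^s)`); FTN, `1 + c = c + 1`. -/
def Stmt_CN2 : Prop := ∀ (p : HalfPiece M R) (k s c : ℕ), p.Con k s c →
  p.Con (k + 2) (s + 1) (c + 1)

/-- DUG (120 lines, uses FTN FCN FLN REA): DU1 of `Interface.lean` with general exponents.
Proof. Let `B = tpow q.a j`, `σ = symm q.a j`, `f = q.e`, `e = p.e`. `dual`: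
`symm p.a k ▷ L^j = u ≫ (σ ▷ (L ⊗ f^n)) ≫ v`. Here `n = s' + s`, `f^n ≅ f^s ⊗ f^s'` (`ad f s' s`). By
REA (with `F = f^s`, `G = f^s'`, `K = e^s`) `(σ ▷ (L ⊗ f^n)) ▷ e^s` is conjugate to
`(σ ▷ f^s') ▷ (L ⊗ (f^s ⊗ e^s)) = (σ ▷ f^s') ⊗ₘ 𝟙`, which is in `Fac M (c' + (1 + s))` (hypothesis,
`Fac.lefschetz`, FLN, FTN). So `(symm p.a k ▷ L^j) ▷ e^s` is in `Fac M (j + c)`, hence so is
`(symm p.a k ▷ e^s) ▷ L^j` (exchange the last two factors); FCN gives `Fac M c`. -/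
def Stmt_DUG : Prop := ∀ (p q : HalfPiece M R), (p.e ⊗ q.e ≅ M.L) → ∀ n : ℕ, p.Dim q n →
  ∀ j k s s' c c' : ℕ, j + k = n + 2 → s' + s = n → q.Con j s' c' → j + c = c' + (1 + s) →
    p.Con k s c

/-- DUZ (30 lines). `symm a (m + 1) = (a ◁ symm a m) ≫ symm a (m + 1)` (`Lalt_alt (negE a)`). -/
def Stmt_DUZ : Prop := ∀ (p q : HalfPiece M R) (n : ℕ), p.Dim q n →
  ∀ k : ℕ, n + 3 ≤ k → symm p.a k = 0

/-- WMX (100 lines, uses ALS FTN FLN). Mixed products.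
Proof. By ALS `alt (p.a ⊗ p.e) k = τ ≫ (symm p.a k ▷ e^k) ≫ τ⁻¹`, the same for `q`, and
`e^(s+i) ≅ e^i ⊗ e^s` (`ad e s i`), `f^(s'+i) ≅ f^i ⊗ f^s'`. So the tensor product is conjugate to
`((symm p.a k ▷ e^s) ⊗ₘ (symm q.a k' ▷ f^s')) ⊗ₘ 𝟙 (e^i ⊗ f^i)` (reordering; only the first factors
of the two halves are acted on), and `𝟙 (e^i ⊗ f^i)` is in `Fac M i` (FLN and the braiding). -/
def Stmt_WMX : Prop := ∀ (p q : HalfPiece M R), (p.e ⊗ q.e ≅ M.L) →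
  ∀ s s' i c c' : ℕ, p.Con (s + i) s c → q.Con (s' + i) s' c' →
    Fac M (c + c' + i) (alt (p.a ⊗ p.e) (s + i) ⊗ₘ alt (q.a ⊗ q.e) (s' + i))

/-- WFG (80 lines, uses WWE ABL ABR). The words.
Proof. `N = j + i` (`obtain`, `subst`). Write `P = ix ≫ rx`, `Q = iy ≫ ry`, `x = p.a ⊗ p.e`,
`y = q.a ⊗ q.e`. By WWE, ABL, ABR:
`wrd P Q i (j + i) ≫ alt t (j + i) = ad.hom ≫ ((tpowMap P i ≫ alt t i) ⊗ₘ (tpowMap Q j ≫ alt t j)) ≫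
ad.inv ≫ alt t (j + i)`, and `tpowMap P i ≫ alt t i = tpowMap ix i ≫ alt x i ≫ tpowMap rx i`
(`tpowMap_comp`, `alt_nat`), the same for `Q`. So it is `_ ≫ (alt x i ⊗ₘ alt y j) ≫ _`. -/
def Stmt_WFG : Prop := ∀ (t : A) (T : HalfTwist M R t) (N c : ℕ),
  (∀ i j : ℕ, j + i = N → FacG M c (alt (T.p.a ⊗ T.p.e) i ⊗ₘ alt (T.q.a ⊗ T.q.e) j)) →
  ∀ i : ℕ, i ≤ N → FacG M c (wrd (T.ix ≫ T.rx) (T.iy ≫ T.ry) i N ≫ alt t N)

/-- VNG (50 lines, uses WFG EX2). Proof. `z ≫ alt = z ≫ g` for `g = alt t N` in the span of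
EX2 (with `T.sum`); the set of the `g` with `z ≫ g = 0` is a submodule, and
`z ≫ alt ≫ wrd ≫ alt = (z ≫ alt) ≫ (wrd ≫ alt) = 0` by WFG and `Fac.kill` (`l < c ≤ c'`). -/
def Stmt_VNG : Prop := ∀ (t : A) (T : HalfTwist M R t) (N c : ℕ),
  (∀ i j : ℕ, j + i = N → FacG M c (alt (T.p.a ⊗ T.p.e) i ⊗ₘ alt (T.q.a ⊗ T.q.e) j)) →
  ∀ l : ℕ, l < c → ∀ z : tpow M.L l ⟶ tpow t N, z ≫ alt t N = 0

section K3

variable (K : K3Motive M)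

/-- PTR (30 lines): edit of `Pool.Agent.Work.MP_292d0f_va.B_PET`. -/
def Stmt_PTR : Prop := ∀ B : ℕ → ℕ → Prop,
  (∀ n l : ℕ, B n l → ∀ z : tpow M.L l ⟶ tpow K.t (n + 2), z ≫ alt K.t (n + 2) = 0) →
    K.KillsR B (K.pr ≫ K.inc)

/-- SPR (200 lines): edit of `Pool.Agent.Work.MP_292d0f_va.B_STP` (the hypothesis `l ≤ n` is
replaced by `B n l`; where `l = (k j + 1) + l'` the condition on `B` gives `n = n' + 1` and
`B n' l'`). -/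
def Stmt_SPR : Prop := ∀ B : ℕ → ℕ → Prop,
  (∀ n l k : ℕ, B n (k + 1 + l) → ∃ n' : ℕ, n = n' + 1 ∧ B n' l) →
    ∀ (a : M.h K.S ⟶ M.h K.S) (j : Fin K.m), K.KillsR B a → K.KillsR B (a + K.up j ≫ K.dn j)

/-- SMR (30 lines): edit of `Pool.Agent.Work.MP_292d0f_va.B_SUM`. -/
def Stmt_SMR : Prop := ∀ B : ℕ → ℕ → Prop,
  (∀ (a : M.h K.S ⟶ M.h K.S) (j : Fin K.m), K.KillsR B a → K.KillsR B (a + K.up j ≫ K.dn j)) →
    K.KillsR B (K.pr ≫ K.inc) → K.KillsR B (𝟙 (M.h K.S) - K.deg ≫ K.pt)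

/-- FRR (30 lines): edit of `Pool.Agent.Work.MP_292d0f_va.B_F31` (with `p_CTR A p_EXP` and
`p_WRI V A M K`). -/
def Stmt_FRR : Prop := ∀ B : ℕ → ℕ → Prop, K.KillsR B (𝟙 (M.h K.S) - K.deg ≫ K.pt) →
  ∀ n l : ℕ, B n l → K.At n l

end K3

end

end Pool.VAS
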