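import Pool.Agent.Work.MP_292d0f_iso.Interface

/-!
# K3 surfaces with half twists: the composition of the blocks
-/

open CategoryTheory MonoidalCategory
open Pool.Agent.Work.MP_c42eb9_num.Defs Pool.Agent.Work.MP_c42eb9_num

namespace Pool.VAS

universe v u w v' u' w'

section

variable {V : Type w} {A : Type u} [Category.{v} A] [MonoidalCategory A] [SymmetricCategory A]
  [Preadditive A] [MonoidalPreadditive A] [Linear ℚ A] [MonoidalLinear ℚ A]
  {M : ChowMotives V A} {R : RatConn M}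

/-- The coniveau of all the symmetric powers of `a` if the dimension is at most 5. -/
theorem half_all (hFB0 : Stmt_FB0 V A M R) (hFB1 : Stmt_FB1 V A M R) (hDU0 : Stmt_DU0 V A M R)
    (hDU1 : Stmt_DU1 V A M R) (hDU2 : Stmt_DU2 V A M R) (p q : HalfPiece M R) (i : p.e ⊗ q.e ≅ M.L)
    (n : ℕ) (hn : n ≤ 3) (h : p.Dim q n) (k : ℕ) : Fac M k (symm p.a (k + 1) ▷ tpow p.e k) := by
  rcases Nat.lt_or_ge k 2 with hk | hk
  · interval_cases k
    · exact hFB0 p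
    · exact hFB1 p
  rcases Nat.lt_or_ge n k with hnk | hnk
  · rcases Nat.lt_or_ge k (n + 2) with h2 | h2
    · obtain rfl : k = n + 1 := by omega
      exact hDU0 p q i n h
    · exact hDU2 p q n h k h2
  · obtain ⟨j, rfl⟩ : ∃ j, n = j + k := ⟨n - k, by omega⟩
    refine hDU1 p q i _ h j k rfl ?_
    have hj : j < 2 := by omega
    interval_cases j
    · exact hFB0 q
    · exact hFB1 q

theorem van_small (hFB0 : Stmt_FB0 V A M R) (hFB1 : Stmt_FB1 V A M R) (hAXE : Stmt_AXE V A M R)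
    (hVAN : Stmt_VAN V A M R) {t : A} (T : HalfTwist M R t) (z : tpow M.L 0 ⟶ tpow t 2) :
    z ≫ alt t 2 = 0 := by
  have h : ∀ p : HalfPiece M R, ∀ k : ℕ, k ≤ 1 → FacE M p.e k (alt (p.a ⊗ p.e) (k + 1)) := by
    intro p k hk
    refine hAXE p k ?_
    interval_cases k
    · exact hFB0 p
    · exact hFB1 p
  exact hVAN t T 1 (h T.p) (h T.q) 0 Nat.zero_lt_one z

theorem van_all (hFB0 : Stmt_FB0 V A M R) (hFB1 : Stmt_FB1 V A M R) (hDU0 : Stmt_DU0 V A M R)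
    (hDU1 : Stmt_DU1 V A M R) (hDU2 : Stmt_DU2 V A M R) (hAXE : Stmt_AXE V A M R)
    (hVAN : Stmt_VAN V A M R) {t : A} (T : HalfTwist M R t) (n : ℕ) (hn : n ≤ 3) (h : T.Dim n)
    (m l : ℕ) (hl : l + 2 ≤ m) (z : tpow M.L l ⟶ tpow t m) : z ≫ alt t m = 0 := by
  obtain ⟨N, rfl⟩ : ∃ N, m = N + 1 := ⟨m - 1, by omega⟩
  refine hVAN t T N (fun k _ => hAXE T.p k ?_) (fun k _ => hAXE T.q k ?_) l (by omega) z
  · exact half_all hFB0 hFB1 hDU0 hDU1 hDU2 T.p T.q T.pair n hn h.1 k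
  · exact half_all hFB0 hFB1 hDU0 hDU1 hDU2 T.q T.p ((β_ T.q.e T.p.e) ≪≫ T.pair) n hn h.2 k

end

variable {V : Type w} {A : Type u} [Category.{v} A] [MonoidalCategory A] [SymmetricCategory A]
  [Preadditive A] [MonoidalPreadditive A] [Linear ℚ A] [MonoidalLinear ℚ A]
  {M : ChowMotives V A}
  {V' : Type w'} {A' : Type u'} [Category.{v'} A'] [MonoidalCategory A']
  [SymmetricCategory A'] [Preadditive A'] [MonoidalPreadditive A'] [Linear ℚ A']
  [MonoidalLinear ℚ A'] {M' : ChowMotives V' A'} {R' : RatConn M'}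

theorem commute_of_half (hFB0 : Stmt_FB0 V' A' M' R') (hFB1 : Stmt_FB1 V' A' M' R')
    (hAXE : Stmt_AXE V' A' M' R') (hVAN : Stmt_VAN V' A' M' R') (hTRA : Stmt_TRA V A M V' A' M')
    {K : K3Motive M} (hCOM : Stmt_COM V A M K) (D : Coefficients M M')
    (T : HalfTwist M' R' (D.F.obj K.t)) : K.Commute :=
  hCOM (hTRA D K.t 2 0 (van_small hFB0 hFB1 hAXE hVAN T))

theorem vanishing_of_half (hFB0 : Stmt_FB0 V' A' M' R') (hFB1 : Stmt_FB1 V' A' M' R')
    (hDU0 : Stmt_DU0 V' A' M' R') (hDU1 : Stmt_DU1 V' A' M' R') (hDU2 : Stmt_DU2 V' A' M' R')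
    (hAXE : Stmt_AXE V' A' M' R') (hVAN : Stmt_VAN V' A' M' R') (hTRA : Stmt_TRA V A M V' A' M')
    {K : K3Motive M} (D : Coefficients M M')
    (T : HalfTwist M' R' (D.F.obj K.t)) (n : ℕ) (hn : n ≤ 3) (h : T.Dim n) : K.Vanishing :=
  fun m l hl => hTRA D K.t m l (van_all hFB0 hFB1 hDU0 hDU1 hDU2 hAXE hVAN T n hn h m l hl)

end Pool.VAS
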