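import Pool.Agent.Work.MP_292d0f_iso.Interface2

/-!
# K3 surfaces with half twists: the composition of the blocks of the second part
-/

open CategoryTheory MonoidalCategory
open Pool.Agent.Work.MP_c42eb9_num.Defs Pool.Agent.Work.MP_c42eb9_num

namespace Pool.VAS

universe v u w v' u' w'

/-- A lower bound for the coniveau of `Sym^k a ⊗ e^s`, where `a` has dimension `n + 2`. -/
def cc (n k s : ℕ) : ℕ :=
  max (min s (k / 2)) (if s ≤ n then 1 + s + min (n - s) ((n + 2 - k) / 2) - (n + 2 - k) else k - 1)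

/-- Arithmetic of the words, with the defect `d`. -/
def Good (n i j d : ℕ) : Prop :=
  ∃ r, r ≤ i ∧ r ≤ j ∧ i + j ≤ r + cc n i (i - r) + cc n j (j - r) + 1 + d

section

variable {V : Type w} {A : Type u} [Category.{v} A] [MonoidalCategory A] [SymmetricCategory A]
  [Preadditive A] [MonoidalPreadditive A] [Linear ℚ A] [MonoidalLinear ℚ A]
  {M : ChowMotives V A} {R : RatConn M}

theorem con_mono (hCNM : Stmt_CNM V A M R) (p : HalfPiece M R) {k s c : ℕ} (h : p.Con k s c) :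
    ∀ r : ℕ, p.Con k (s + r) c
  | 0 => h
  | r + 1 => hCNM p k (s + r) c (con_mono hCNM p h r)

theorem con_pairs (hCN0 : Stmt_CN0 V A M R) (hCN2 : Stmt_CN2 V A M R) (p : HalfPiece M R) (k : ℕ) :
    ∀ h : ℕ, p.Con (k + 2 * h) h h
  | 0 => hCN0 p k 0
  | h + 1 => hCN2 p (k + 2 * h) h h (con_pairs hCN0 hCN2 p k h)

theorem con_dir (hCN0 : Stmt_CN0 V A M R) (hCNM : Stmt_CNM V A M R) (hCN2 : Stmt_CN2 V A M R)
    (p : HalfPiece M R) (k s : ℕ) : p.Con k s (min s (k / 2)) := by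
  generalize hh : min s (k / 2) = h
  obtain ⟨k', rfl⟩ : ∃ k', k = k' + 2 * h := ⟨k - 2 * h, by omega⟩
  obtain ⟨r, rfl⟩ : ∃ r, s = h + r := ⟨s - h, by omega⟩
  exact con_mono hCNM p (con_pairs hCN0 hCN2 p k' h) r

theorem con_cc (hCN0 : Stmt_CN0 V A M R) (hCNM : Stmt_CNM V A M R) (hCN2 : Stmt_CN2 V A M R)
    (hDUG : Stmt_DUG V A M R) (p q : HalfPiece M R) (i : p.e ⊗ q.e ≅ M.L) {n : ℕ}
    (h : p.Dim q n) {k : ℕ} (hk : k ≤ n + 2) (s : ℕ) : ∃ c, cc n k s ≤ c ∧ p.Con k s c := by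
  have hd := con_dir hCN0 hCNM hCN2 p k s
  by_cases hs : s ≤ n
  · by_cases h1 : n + 2 - k ≤ 1 + s + min (n - s) ((n + 2 - k) / 2)
    · have h2 : p.Con k s (1 + s + min (n - s) ((n + 2 - k) / 2) - (n + 2 - k)) :=
        hDUG p q i n h (n + 2 - k) k s (n - s) _ (min (n - s) ((n + 2 - k) / 2)) (by omega)
          (by omega) (con_dir hCN0 hCNM hCN2 q (n + 2 - k) (n - s)) (by omega)
      rcases le_total (min s (k / 2)) (1 + s + min (n - s) ((n + 2 - k) / 2) - (n + 2 - k)) with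
        h3 | h3
      · exact ⟨_, by rw [cc, if_pos hs, max_eq_right h3], h2⟩
      · exact ⟨_, by rw [cc, if_pos hs, max_eq_left h3], hd⟩
    · exact ⟨_, by rw [cc, if_pos hs, max_eq_left (by omega)], hd⟩
  · by_cases hk0 : k = 0
    · subst hk0
      exact ⟨_, by rw [cc, if_neg hs]; omega, hd⟩
    · have h2 : p.Con k n (k - 1) :=
        hDUG p q i n h (n + 2 - k) k n 0 _ 0 (by omega) (by omega) (hCN0 q (n + 2 - k) 0)
          (by omega)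
      obtain ⟨r, rfl⟩ : ∃ r, s = n + r := ⟨s - n, by omega⟩
      exact ⟨_, by rw [cc, if_neg hs]; omega, con_mono hCNM p h2 r⟩

/-- The words. -/
theorem word_good (hALS : Stmt_ALS A) (hCN0 : Stmt_CN0 V A M R) (hCNM : Stmt_CNM V A M R)
    (hCN2 : Stmt_CN2 V A M R) (hDUG : Stmt_DUG V A M R) (hDUZ : Stmt_DUZ V A M R)
    (hWMX : Stmt_WMX V A M R) {t : A} (T : HalfTwist M R t) {n : ℕ} (h : T.Dim n) (d : ℕ)
    (i j : ℕ) (hg : i ≤ n + 2 → j ≤ n + 2 → Good n i j d) :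
    FacG M (i + j - 1 - d) (alt (T.p.a ⊗ T.p.e) i ⊗ₘ alt (T.q.a ⊗ T.q.e) j) := by
  have hz : ∀ (p q : HalfPiece M R) (m : ℕ), p.Dim q n → n + 3 ≤ m → alt (p.a ⊗ p.e) m = 0 := by
    intro p q m hp hm
    have h1 := hALS p.a p.e p.odd m
    rw [hDUZ p q n hp m hm, MonoidalPreadditive.zero_whiskerRight, Limits.comp_zero] at h1
    have h2 := congrArg (fun f => f ≫ (tau p.a p.e m).inv) h1
    simpa using h2
  by_cases hi : n + 3 ≤ i
  · refine ⟨_, le_rfl, ?_⟩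
    rw [hz T.p T.q i h.1 hi, MonoidalPreadditive.zero_tensor]
    exact Fac.zero
  by_cases hj : n + 3 ≤ j
  · refine ⟨_, le_rfl, ?_⟩
    rw [hz T.q T.p j h.2 hj, MonoidalPreadditive.tensor_zero]
    exact Fac.zero
  obtain ⟨r, hri, hrj, hr⟩ := hg (by omega) (by omega)
  obtain ⟨c, hc, hc'⟩ := con_cc hCN0 hCNM hCN2 hDUG T.p T.q T.pair h.1 (k := i) (by omega) (i - r)
  obtain ⟨c', hcc, hcc'⟩ := con_cc hCN0 hCNM hCN2 hDUG T.q T.p (β_ T.q.e T.p.e ≪≫ T.pair) h.2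
    (k := j) (by omega) (j - r)
  obtain ⟨s, rfl⟩ : ∃ s, i = s + r := ⟨i - r, by omega⟩
  obtain ⟨s', rfl⟩ : ∃ s', j = s' + r := ⟨j - r, by omega⟩
  rw [Nat.add_sub_cancel] at hc hc' hcc hcc'
  rw [Nat.add_sub_cancel, Nat.add_sub_cancel] at hr
  exact ⟨c + c' + r, by omega, hWMX T.p T.q T.pair s s' r c c' hc' hcc'⟩

/-- No cycles of small dimension in the exterior powers. -/
theorem van_good (hALS : Stmt_ALS A) (hCN0 : Stmt_CN0 V A M R) (hCNM : Stmt_CNM V A M R)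
    (hCN2 : Stmt_CN2 V A M R) (hDUG : Stmt_DUG V A M R) (hDUZ : Stmt_DUZ V A M R)
    (hWMX : Stmt_WMX V A M R) (hVNG : Stmt_VNG V A M R) {t : A} (T : HalfTwist M R t) {n : ℕ}
    (h : T.Dim n) (d N l : ℕ)
    (hg : ∀ i j : ℕ, i ≤ n + 2 → j ≤ n + 2 → i + j = N → Good n i j d)
    (hl : l + 1 + d < N) (z : tpow M.L l ⟶ tpow t N) : z ≫ alt t N = 0 := by
  refine hVNG t T N (N - 1 - d) (fun i j hij => ?_) l (by omega) z
  have h1 := word_good hALS hCN0 hCNM hCN2 hDUG hDUZ hWMX T h d i j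
    (fun hi hj => hg i j hi hj (by omega))
  rwa [show i + j = N by omega] at h1

end

theorem good_2 : ∀ n ≤ 8, ∀ i ≤ n + 2, ∀ j ≤ n + 2, Good n i j 2 := by
  have h : ∀ n ≤ 8, ∀ i ≤ n + 2, ∀ j ≤ n + 2, ∃ r ≤ 10, r ≤ i ∧ r ≤ j ∧
      i + j ≤ r + cc n i (i - r) + cc n j (j - r) + 1 + 2 := by
    unfold cc
    decide +kernel
  intro n hn i hi j hj
  obtain ⟨r, -, h1, h2, h3⟩ := h n hn i hi j hj
  exact ⟨r, h1, h2, h3⟩

theorem good_1_small : ∀ n ≤ 8, ∀ i ≤ n + 2, ∀ j ≤ n + 2, i + j ≤ 5 → Good n i j 1 := by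
  have h : ∀ n ≤ 8, ∀ i ≤ n + 2, ∀ j ≤ n + 2, ¬ i + j ≤ 5 ∨ ∃ r ≤ 10, r ≤ i ∧ r ≤ j ∧
      i + j ≤ r + cc n i (i - r) + cc n j (j - r) + 1 + 1 := by
    unfold cc
    decide +kernel
  intro n hn i hi j hj hij
  obtain ⟨r, -, h1, h2, h3⟩ := (h n hn i hi j hj).resolve_left (not_not.2 hij)
  exact ⟨r, h1, h2, h3⟩

theorem good_1 : ∀ n ≤ 5, ∀ i ≤ n + 2, ∀ j ≤ n + 2, Good n i j 1 := by
  have h : ∀ n ≤ 5, ∀ i ≤ n + 2, ∀ j ≤ n + 2, ∃ r ≤ 10, r ≤ i ∧ r ≤ j ∧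
      i + j ≤ r + cc n i (i - r) + cc n j (j - r) + 1 + 1 := by
    unfold cc
    decide +kernel
  intro n hn i hi j hj
  obtain ⟨r, -, h1, h2, h3⟩ := h n hn i hi j hj
  exact ⟨r, h1, h2, h3⟩

theorem good_0_small : ∀ n ≤ 5, ∀ i ≤ n + 2, ∀ j ≤ n + 2, i + j ≤ 3 → Good n i j 0 := by
  have h : ∀ n ≤ 5, ∀ i ≤ n + 2, ∀ j ≤ n + 2, ¬ i + j ≤ 3 ∨ ∃ r ≤ 10, r ≤ i ∧ r ≤ j ∧
      i + j ≤ r + cc n i (i - r) + cc n j (j - r) + 1 + 0 := by
    unfold cc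
    decide +kernel
  intro n hn i hi j hj hij
  obtain ⟨r, -, h1, h2, h3⟩ := (h n hn i hi j hj).resolve_left (not_not.2 hij)
  exact ⟨r, h1, h2, h3⟩

theorem good_0 : ∀ n ≤ 3, ∀ i ≤ n + 2, ∀ j ≤ n + 2, Good n i j 0 := by
  have h : ∀ n ≤ 3, ∀ i ≤ n + 2, ∀ j ≤ n + 2, ∃ r ≤ 10, r ≤ i ∧ r ≤ j ∧
      i + j ≤ r + cc n i (i - r) + cc n j (j - r) + 1 + 0 := by
    unfold cc
    decide +kernel
  intro n hn i hi j hj
  obtain ⟨r, -, h1, h2, h3⟩ := h n hn i hi j hj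
  exact ⟨r, h1, h2, h3⟩

section

variable {V : Type w} {A : Type u} [Category.{v} A] [MonoidalCategory A] [SymmetricCategory A]
  [Preadditive A] [MonoidalPreadditive A] [Linear ℚ A] [MonoidalLinear ℚ A]
  {M : ChowMotives V A} {R : RatConn M}

/-- Without any bound on the dimension: no zero-cycles in `∧² t`. -/
theorem van_two (hCN0 : Stmt_CN0 V A M R) (hCNM : Stmt_CNM V A M R)
    (hCN2 : Stmt_CN2 V A M R) (hWMX : Stmt_WMX V A M R) (hVNG : Stmt_VNG V A M R) {t : A}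
    (T : HalfTwist M R t) (z : tpow M.L 0 ⟶ tpow t 2) : z ≫ alt t 2 = 0 := by
  refine hVNG t T 2 1 (fun i j hij => ?_) 0 Nat.zero_lt_one z
  have h1 : ∀ p : HalfPiece M R, p.Con 2 2 1 := fun p =>
    hCNM p 2 1 1 (hCN2 p 0 0 0 (hCN0 p 0 0))
  have hi : i ≤ 2 := by omega
  interval_cases i
  · obtain rfl : j = 2 := by omega
    exact ⟨0 + 1 + 0, le_rfl, hWMX T.p T.q T.pair 0 2 0 0 1 (hCN0 T.p 0 0) (h1 T.q)⟩
  · obtain rfl : j = 1 := by omega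
    exact ⟨0 + 0 + 1, le_rfl, hWMX T.p T.q T.pair 0 0 1 0 0 (hCN0 T.p 1 0) (hCN0 T.q 1 0)⟩
  · obtain rfl : j = 0 := by omega
    exact ⟨1 + 0 + 0, le_rfl, hWMX T.p T.q T.pair 2 0 0 1 0 (h1 T.p) (hCN0 T.q 0 0)⟩

/-- From the vanishing to the slots of the conjecture. -/
theorem slots {K : K3Motive M} (hPTR : Stmt_PTR V A M K) (hSPR : Stmt_SPR V A M K)
    (hSMR : Stmt_SMR V A M K) (hFRR : Stmt_FRR V A M K) (B : ℕ → ℕ → Prop)
    (hB : ∀ n l k : ℕ, B n (k + 1 + l) → ∃ n' : ℕ, n = n' + 1 ∧ B n' l)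
    (hV : ∀ n l : ℕ, B n l → ∀ z : tpow M.L l ⟶ tpow K.t (n + 2), z ≫ alt K.t (n + 2) = 0)
    (n l : ℕ) (h : B n l) : K.At n l :=
  hFRR B (hSMR B (hSPR B hB) (hPTR B hV)) n l h

end

section

variable {V : Type w} {A : Type u} [Category.{v} A] [MonoidalCategory A] [SymmetricCategory A]
  [Preadditive A] [MonoidalPreadditive A] [Linear ℚ A] [MonoidalLinear ℚ A]
  {M : ChowMotives V A}
  {V' : Type w'} {A' : Type u'} [Category.{v'} A'] [MonoidalCategory A']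
  [SymmetricCategory A'] [Preadditive A'] [MonoidalPreadditive A'] [Linear ℚ A']
  [MonoidalLinear ℚ A'] {M' : ChowMotives V' A'} {R' : RatConn M'}

theorem final2 (hALS : Stmt_ALS A') (hCN0 : Stmt_CN0 V' A' M' R') (hCNM : Stmt_CNM V' A' M' R')
    (hCN2 : Stmt_CN2 V' A' M' R') (hDUG : Stmt_DUG V' A' M' R') (hDUZ : Stmt_DUZ V' A' M' R')
    (hWMX : Stmt_WMX V' A' M' R') (hVNG : Stmt_VNG V' A' M' R')
    (hTRA : Stmt_TRA V A M V' A' M')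
    {K : K3Motive M} (hPTR : Stmt_PTR V A M K) (hSPR : Stmt_SPR V A M K)
    (hSMR : Stmt_SMR V A M K) (hFRR : Stmt_FRR V A M K) (hCOM : Stmt_COM V A M K)
    (D : Coefficients M M') (T : HalfTwist M' R' (D.F.obj K.t)) :
    K.Commute ∧
    (∀ d : ℕ, d ≤ 8 → T.Dim d → (∀ n l : ℕ, l + 2 ≤ n → K.At n l) ∧
      (∀ n l : ℕ, n ≤ 3 → l + 1 ≤ n → K.At n l)) ∧
    (∀ d : ℕ, d ≤ 5 → T.Dim d → (∀ n l : ℕ, l + 1 ≤ n → K.At n l) ∧ (∀ l : ℕ, l ≤ 1 → K.At 1 l)) ∧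
    (∀ d : ℕ, d ≤ 3 → T.Dim d → K.Q1) := by
  have hv : ∀ d : ℕ, T.Dim d → ∀ e n l : ℕ,
      (∀ i j : ℕ, i ≤ d + 2 → j ≤ d + 2 → i + j = n + 2 → Good d i j e) → l + 1 + e < n + 2 →
      ∀ z : tpow M.L l ⟶ tpow K.t (n + 2), z ≫ alt K.t (n + 2) = 0 := by
    intro d hd e n l hg hl
    exact hTRA D K.t (n + 2) l
      (van_good hALS hCN0 hCNM hCN2 hDUG hDUZ hWMX hVNG T hd e (n + 2) l hg hl)
  refine ⟨hCOM (hTRA D K.t 2 0 (van_two hCN0 hCNM hCN2 hWMX hVNG T)), ?_, ?_, ?_⟩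
  · intro d hd hT
    refine ⟨fun n l h => slots hPTR hSPR hSMR hFRR (fun n l => l + 2 ≤ n) ?_ ?_ n l h,
      fun n l h3 h => slots hPTR hSPR hSMR hFRR (fun n l => n ≤ 3 ∧ l + 1 ≤ n) ?_ ?_ n l ⟨h3, h⟩⟩
    · intro n l k hk
      have hk' : k + 1 + l + 2 ≤ n := hk
      exact ⟨n - 1, by omega, show l + 2 ≤ n - 1 by omega⟩
    · intro n l hnl
      have hnl' : l + 2 ≤ n := hnl
      exact hv d hT 2 n l (fun i j hi hj _ => good_2 d hd i hi j hj) (by omega)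
    · intro n l k hk
      obtain ⟨hk1, hk2⟩ : n ≤ 3 ∧ k + 1 + l + 1 ≤ n := hk
      exact ⟨n - 1, by omega, show n - 1 ≤ 3 ∧ l + 1 ≤ n - 1 by omega⟩
    · intro n l hnl
      obtain ⟨h1, h2⟩ : n ≤ 3 ∧ l + 1 ≤ n := hnl
      exact hv d hT 1 n l (fun i j hi hj hij => good_1_small d hd i hi j hj (by omega)) (by omega)
  · intro d hd hT
    refine ⟨fun n l h => slots hPTR hSPR hSMR hFRR (fun n l => l + 1 ≤ n) ?_ ?_ n l h,
      fun l h => slots hPTR hSPR hSMR hFRR (fun n l => n ≤ 1 ∧ l ≤ n) ?_ ?_ 1 l ⟨le_rfl, h⟩⟩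
    · intro n l k hk
      have hk' : k + 1 + l + 1 ≤ n := hk
      exact ⟨n - 1, by omega, show l + 1 ≤ n - 1 by omega⟩
    · intro n l hnl
      have hnl' : l + 1 ≤ n := hnl
      exact hv d hT 1 n l (fun i j hi hj _ => good_1 d hd i hi j hj) (by omega)
    · intro n l k hk
      obtain ⟨hk1, hk2⟩ : n ≤ 1 ∧ k + 1 + l ≤ n := hk
      exact ⟨n - 1, by omega, show n - 1 ≤ 1 ∧ l ≤ n - 1 by omega⟩
    · intro n l hnl
      obtain ⟨h1, h2⟩ : n ≤ 1 ∧ l ≤ n := hnl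
      exact hv d hT 0 n l (fun i j hi hj hij => good_0_small d hd i hi j hj (by omega)) (by omega)
  · intro d hd hT n l _ h
    refine slots hPTR hSPR hSMR hFRR (fun n l => l ≤ n) ?_ ?_ n l h
    · intro n l k hk
      have hk' : k + 1 + l ≤ n := hk
      exact ⟨n - 1, by omega, show l ≤ n - 1 by omega⟩
    · intro n l hnl
      have hnl' : l ≤ n := hnl
      exact hv d hT 0 n l (fun i j hi hj _ => good_0 d hd i hi j hj) (by omega)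

end

end Pool.VAS
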